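import Mathlib

/-!
# `-1` is a sum of two squares modulo an odd number
-/

set_option autoImplicit false
open Finset

namespace Pool.Agent.W65.FS

theorem exists_neg_one (n : ℕ) (hn : Odd n) : ∃ a b : ℤ, (n : ℤ) ∣ a ^ 2 + b ^ 2 + 1 := by
  have hn0 : 0 < n := hn.pos
  have : NeZero (4 * n) := ⟨by omega⟩
  have hcop : Nat.Coprime (2 * n ^ 2 - 1) (4 * n) := by
    have h1 : 1 ≤ 2 * n ^ 2 := by nlinarith
    apply Nat.coprime_of_dvd
    intro l hl h2 h3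
    have h4 : l ∣ 4 ∨ l ∣ n := hl.dvd_mul.1 h3
    rcases h4 with h4 | h4
    · have h5 : l = 2 := (Nat.prime_dvd_prime_iff_eq hl Nat.prime_two).1
        (hl.dvd_of_dvd_pow (show l ∣ 2 ^ 2 by norm_num; exact h4))
      subst h5
      obtain ⟨t, ht⟩ := h2
      omega
    · have h5 : l ∣ 2 * n ^ 2 := Dvd.dvd.mul_left (dvd_pow h4 two_ne_zero) 2
      have h6 : l ∣ 1 := by
        have := Nat.dvd_sub h5 h2
        have h7 : 2 * n ^ 2 - (2 * n ^ 2 - 1) = 1 := by omega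
        rwa [h7] at this
      exact hl.one_lt.ne' (Nat.dvd_one.1 h6)
  have hu : IsUnit (((2 * n ^ 2 - 1 : ℕ)) : ZMod (4 * n)) := (ZMod.isUnit_iff_coprime _ _).2 hcop
  obtain ⟨p, _, hp, hpe⟩ := Nat.forall_exists_prime_gt_and_eq_mod hu 2
  have h1 : p ≡ 2 * n ^ 2 - 1 [MOD 4 * n] := (ZMod.natCast_eq_natCast_iff _ _ _).1 hpe
  have h1' : 1 ≤ 2 * n ^ 2 := by nlinarith
  have h4 : p ≡ 2 * n ^ 2 - 1 [MOD 4] := h1.of_mul_right n
  have hn' : p ≡ 2 * n ^ 2 - 1 [MOD n] := h1.of_mul_left 4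
  have hp4 : p % 4 ≠ 3 := by
    have h5 : (2 * n ^ 2 - 1) % 4 = 1 := by
      obtain ⟨k, hk⟩ := hn
      have h6 : 2 * n ^ 2 - 1 = 4 * (2 * k ^ 2 + 2 * k) + 1 := by
        rw [hk]
        have : 2 * (2 * k + 1) ^ 2 = 4 * (2 * k ^ 2 + 2 * k) + 2 := by ring
        omega
      omega
    rw [h4]
    omega
  have := Fact.mk hp
  obtain ⟨a, b, hab⟩ := Nat.Prime.sq_add_sq hp4
  refine ⟨a, b, ?_⟩
  have h6 : (n : ℤ) ∣ (p : ℤ) - ((2 * n ^ 2 - 1 : ℕ) : ℤ) := by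
    have := (Nat.modEq_iff_dvd.1 hn'.symm)
    exact this
  have h7 : ((2 * n ^ 2 - 1 : ℕ) : ℤ) = 2 * (n : ℤ) ^ 2 - 1 := by
    rw [Nat.cast_sub h1']
    push_cast; ring
  rw [h7] at h6
  have h8 : (a : ℤ) ^ 2 + (b : ℤ) ^ 2 + 1 = ((p : ℤ) - (2 * (n : ℤ) ^ 2 - 1)) + n * (2 * n) := by
    have : ((a ^ 2 + b ^ 2 : ℕ) : ℤ) = (p : ℤ) := by rw [hab]
    push_cast at this
    rw [← this]
    ring
  rw [h8]
  exact dvd_add h6 (dvd_mul_right _ _)

theorem exists_neg_one_zmod (n : ℕ) (hn : Odd n) : ∃ a b : ZMod n, a ^ 2 + b ^ 2 = -1 := by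
  obtain ⟨a, b, h⟩ := exists_neg_one n hn
  refine ⟨a, b, ?_⟩
  have := (ZMod.intCast_zmod_eq_zero_iff_dvd _ n).2 h
  push_cast at this
  linear_combination this

/-- the fourth power of the quadratic Gauss sum -/
theorem gauss_four (q : ℕ) [NeZero q] (hq : Odd q) (a : ZMod q) (ha : IsUnit a) :
    (∑ r : ZMod q, (ZMod.stdAddChar (a * r ^ 2) : ℂ)) ^ 4 = (q : ℂ) ^ 2 := by
  obtain ⟨a0, b0, hab⟩ := exists_neg_one_zmod q hq
  have h2 : IsUnit (2 : ZMod q) := by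
    have := (ZMod.isUnit_iff_coprime 2 q).2 ((Nat.coprime_two_left).2 hq)
    exact_mod_cast this
  set g : ℂ := ∑ r : ZMod q, (ZMod.stdAddChar (a * r ^ 2) : ℂ) with hg
  have h1 : g ^ 4 = ∑ x : ZMod q, ∑ y : ZMod q, ∑ z : ZMod q, ∑ w : ZMod q,
      (ZMod.stdAddChar (a * (x ^ 2 + y ^ 2 + (z ^ 2 + w ^ 2))) : ℂ) := by
    have e1 : ∀ x y z w : ZMod q, (ZMod.stdAddChar (a * (x ^ 2 + y ^ 2 + (z ^ 2 + w ^ 2))) : ℂ) =
        ZMod.stdAddChar (a * x ^ 2) * (ZMod.stdAddChar (a * y ^ 2) *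
          (ZMod.stdAddChar (a * z ^ 2) * ZMod.stdAddChar (a * w ^ 2))) := by
      intro x y z w
      rw [← AddChar.map_add_eq_mul, ← AddChar.map_add_eq_mul, ← AddChar.map_add_eq_mul]
      congr 1
      ring
    simp_rw [e1, ← Finset.mul_sum, ← Finset.sum_mul]
    rw [← hg]
    ring
  have h3 : ∀ x y : ZMod q, (∑ z : ZMod q, ∑ w : ZMod q,
      (ZMod.stdAddChar (a * (x ^ 2 + y ^ 2 + (z ^ 2 + w ^ 2))) : ℂ)) =
      ∑ z : ZMod q, ∑ w : ZMod q,
      (ZMod.stdAddChar (a * (z ^ 2 + w ^ 2) + x * (2 * a * (a0 * z + b0 * w)) + y * (2 * a * (b0 * z - a0 * w))) : ℂ) := by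
    intro x y
    rw [← Equiv.sum_comp (Equiv.addRight (a0 * x + b0 * y))]
    apply Finset.sum_congr rfl
    intro z _
    rw [← Equiv.sum_comp (Equiv.addRight (b0 * x - a0 * y))]
    apply Finset.sum_congr rfl
    intro w _
    congr 1
    simp only [Equiv.coe_addRight]
    linear_combination (a * (x ^ 2 + y ^ 2)) * hab
  rw [h1]
  simp_rw [h3]
  -- reorder
  have h4 : ∑ x : ZMod q, ∑ y : ZMod q, ∑ z : ZMod q, ∑ w : ZMod q,
      (ZMod.stdAddChar (a * (z ^ 2 + w ^ 2) + x * (2 * a * (a0 * z + b0 * w)) + y * (2 * a * (b0 * z - a0 * w))) : ℂ) =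
      ∑ z : ZMod q, ∑ w : ZMod q, (ZMod.stdAddChar (a * (z ^ 2 + w ^ 2)) : ℂ) *
        ((∑ x : ZMod q, (ZMod.stdAddChar (x * (2 * a * (a0 * z + b0 * w))) : ℂ)) *
        (∑ y : ZMod q, (ZMod.stdAddChar (y * (2 * a * (b0 * z - a0 * w))) : ℂ))) := by
    have e1 : ∀ x : ZMod q, ∑ y : ZMod q, ∑ z : ZMod q, ∑ w : ZMod q,
      (ZMod.stdAddChar (a * (z ^ 2 + w ^ 2) + x * (2 * a * (a0 * z + b0 * w)) + y * (2 * a * (b0 * z - a0 * w))) : ℂ) =
      ∑ z : ZMod q, ∑ w : ZMod q, ∑ y : ZMod q,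
      (ZMod.stdAddChar (a * (z ^ 2 + w ^ 2) + x * (2 * a * (a0 * z + b0 * w)) + y * (2 * a * (b0 * z - a0 * w))) : ℂ) := by
      intro x
      rw [Finset.sum_comm]
      apply Finset.sum_congr rfl
      intro z _
      rw [Finset.sum_comm]
    simp_rw [e1]
    rw [Finset.sum_comm]
    apply Finset.sum_congr rfl
    intro z _
    rw [Finset.sum_comm]
    apply Finset.sum_congr rfl
    intro w _
    rw [Finset.sum_mul_sum, Finset.mul_sum]
    apply Finset.sum_congr rfl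
    intro x _
    rw [Finset.mul_sum]
    apply Finset.sum_congr rfl
    intro y _
    rw [AddChar.map_add_eq_mul, AddChar.map_add_eq_mul]
    ring
  rw [h4]
  simp_rw [AddChar.sum_mulShift _ (ZMod.isPrimitive_stdAddChar q)]
  -- only z = w = 0 survives
  have h5 : ∀ z w : ZMod q, 2 * a * (a0 * z + b0 * w) = 0 → 2 * a * (b0 * z - a0 * w) = 0 → z = 0 ∧ w = 0 := by
    intro z w e1 e2
    have hu : IsUnit (2 * a) := h2.mul ha
    have e3 : a0 * z + b0 * w = 0 := (hu.mul_right_eq_zero).1 e1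
    have e4 : b0 * z - a0 * w = 0 := (hu.mul_right_eq_zero).1 e2
    constructor
    · linear_combination (-a0) * e3 - b0 * e4 + z * hab
    · linear_combination (-b0) * e3 + a0 * e4 + w * hab
  rw [Finset.sum_eq_single 0, Finset.sum_eq_single 0]
  · simp [ZMod.card]
    ring
  · intro w _ hw
    by_cases e1 : 2 * a * (a0 * 0 + b0 * w) = 0
    · by_cases e2 : 2 * a * (b0 * 0 - a0 * w) = 0
      · exact absurd (h5 0 w e1 e2).2 hw
      · rw [if_neg e2]; simp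
    · rw [if_neg e1]; simp
  · simp
  · intro z _ hz
    apply Finset.sum_eq_zero
    intro w _
    by_cases e1 : 2 * a * (a0 * z + b0 * w) = 0
    · by_cases e2 : 2 * a * (b0 * z - a0 * w) = 0
      · exact absurd (h5 z w e1 e2).1 hz
      · rw [if_neg e2]; simp
    · rw [if_neg e1]; simp
  · simp

end Pool.Agent.W65.FS
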