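import Pool.Agent.W65.FS.Dist
import Pool.Agent.W65.FS.NegOne

/-!
# Local counts
-/

set_option autoImplicit false
open Finset

namespace Pool.Agent.W65.FS

/-- number of solutions of `|u|² = n` modulo a prime -/
lemma count_quad (l : ℕ) [NeZero l] [Fact l.Prime] (hl : Odd l) (n : ZMod l) :
    (((univ.filter (fun u : Fin 4 → ZMod l => ∑ i, u i ^ 2 = n)).card : ℕ) : ℂ) * l =
      (l : ℂ) ^ 4 + (l : ℂ) ^ 2 * ((if n = 0 then (l : ℂ) else 0) - 1) := by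
  classical
  have h1 : (((univ.filter (fun u : Fin 4 → ZMod l => ∑ i, u i ^ 2 = n)).card : ℕ) : ℂ) * l =
      ∑ u : Fin 4 → ZMod l, ∑ a : ZMod l, ZMod.stdAddChar (a * (∑ i, u i ^ 2 - n)) := by
    have : ∀ u : Fin 4 → ZMod l, ∑ a : ZMod l, (ZMod.stdAddChar (a * (∑ i, u i ^ 2 - n)) : ℂ) =
        if ∑ i, u i ^ 2 = n then (l : ℂ) else 0 := by
      intro u
      rw [AddChar.sum_mulShift _ (ZMod.isPrimitive_stdAddChar l), ZMod.card]
      by_cases h : ∑ i, u i ^ 2 = n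
      · rw [if_pos h, if_pos (by rw [h, sub_self])]
      · rw [if_neg h, if_neg (by rwa [sub_eq_zero]), Nat.cast_zero]
    simp_rw [this]
    rw [← Finset.sum_filter, Finset.sum_const, nsmul_eq_mul]
  rw [h1, Finset.sum_comm]
  have h2 : ∀ a : ZMod l, ∑ u : Fin 4 → ZMod l, (ZMod.stdAddChar (a * (∑ i, u i ^ 2 - n)) : ℂ) =
      ZMod.stdAddChar (-(a * n)) * (∑ r : ZMod l, (ZMod.stdAddChar (a * r ^ 2) : ℂ)) ^ 4 := by
    intro a
    have e1 : (∑ r : ZMod l, (ZMod.stdAddChar (a * r ^ 2) : ℂ)) ^ 4 =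
        ∏ _i : Fin 4, ∑ r : ZMod l, (ZMod.stdAddChar (a * r ^ 2) : ℂ) := by
      rw [Finset.prod_const, Finset.card_univ, Fintype.card_fin]
    rw [e1, Finset.prod_univ_sum, Finset.mul_sum, Fintype.piFinset_univ]
    apply Finset.sum_congr rfl
    intro u _
    rw [Fin.prod_univ_four, ← AddChar.map_add_eq_mul, ← AddChar.map_add_eq_mul, ← AddChar.map_add_eq_mul,
      ← AddChar.map_add_eq_mul]
    congr 1
    rw [Fin.sum_univ_four]
    ring
  simp_rw [h2]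
  rw [← Finset.add_sum_erase _ _ (Finset.mem_univ (0 : ZMod l))]
  have h3 : ∀ a ∈ univ.erase (0 : ZMod l), (ZMod.stdAddChar (-(a * n)) : ℂ) * (∑ r : ZMod l, (ZMod.stdAddChar (a * r ^ 2) : ℂ)) ^ 4 =
      (l : ℂ) ^ 2 * ZMod.stdAddChar (a * (-n)) := by
    intro a ha
    rw [gauss_four l hl a (isUnit_iff_ne_zero.2 (Finset.ne_of_mem_erase ha))]
    have : -(a * n) = a * (-n) := by ring
    rw [this]
    ring
  rw [Finset.sum_congr rfl h3, ← Finset.mul_sum]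
  have h4 : ∑ a ∈ univ.erase (0 : ZMod l), (ZMod.stdAddChar (a * (-n)) : ℂ) = (if n = 0 then (l : ℂ) else 0) - 1 := by
    have h5 := AddChar.sum_mulShift (-n) (ZMod.isPrimitive_stdAddChar l)
    rw [← Finset.add_sum_erase _ _ (Finset.mem_univ (0 : ZMod l)), ZMod.card] at h5
    simp only [zero_mul, AddChar.map_zero_eq_one, neg_eq_zero] at h5
    split_ifs at h5 ⊢ with h
    · linear_combination h5
    · push_cast at h5
      linear_combination h5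
  rw [h4]
  simp [ZMod.card]

lemma count_lower (l : ℕ) (hlp : l.Prime) (hl2 : l ≠ 2) (n : ℕ) : (l : ℝ) ^ 3 - l ≤ ((Gl n l).card : ℝ) := by
  classical
  have : NeZero l := ⟨hlp.ne_zero⟩
  have : Fact l.Prime := ⟨hlp⟩
  have hlo : Odd l := hlp.odd_of_ne_two hl2
  have hl0 : (0 : ℝ) < l := by exact_mod_cast hlp.pos
  have hlz : (0 : ℤ) < l := by exact_mod_cast hlp.pos
  set S := univ.filter (fun u : Fin 4 → ZMod l => ∑ i, u i ^ 2 = (n : ZMod l)) with hS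
  have h1 := count_quad l hlo (n : ZMod l)
  rw [← hS] at h1
  have h2 : (S.card : ℝ) * l = (l : ℝ) ^ 4 + (l : ℝ) ^ 2 * ((if (n : ZMod l) = 0 then (l : ℝ) else 0) - 1) := by
    have h3 : (((S.card : ℝ) * l : ℝ) : ℂ) = (((l : ℝ) ^ 4 + (l : ℝ) ^ 2 * ((if (n : ZMod l) = 0 then (l : ℝ) else 0) - 1) : ℝ) : ℂ) := by
      push_cast
      rw [h1]
      split_ifs <;> push_cast <;> ring
    exact_mod_cast h3
  -- injection from S \ {0} to Gl
  have h4 : (S.erase 0).card ≤ (Gl n l).card := by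
    apply Finset.card_le_card_of_injOn (fun u i => ((u i).val : ℤ))
    · intro u hu
      rw [Finset.mem_coe, Finset.mem_erase, hS, Finset.mem_filter] at hu
      obtain ⟨hu0, _, hu1⟩ := hu
      rw [Finset.mem_coe, mem_Gl]
      refine ⟨fun i => ⟨by positivity, ?_⟩, ?_, ?_⟩
      · have := ZMod.val_lt (u i)
        show ((u i).val : ℤ) < l
        exact_mod_cast this
      · rw [← ZMod.intCast_zmod_eq_zero_iff_dvd]
        push_cast
        simp only [ZMod.natCast_zmod_val]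
        rw [hu1, sub_self]
      · by_contra h
        push Not at h
        apply hu0
        funext i
        have := (ZMod.intCast_zmod_eq_zero_iff_dvd _ l).2 (h i)
        push_cast at this
        rw [ZMod.natCast_zmod_val] at this
        exact this
    · intro u _ u' _ huu
      funext i
      have := congrFun huu i
      simp only [Nat.cast_inj] at this
      exact ZMod.val_injective _ this
  have h5 : (l : ℝ) ^ 3 - l ≤ ((S.erase 0).card : ℝ) := by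
    by_cases hn : (n : ZMod l) = 0
    · have h0 : (0 : Fin 4 → ZMod l) ∈ S := by
        rw [hS, Finset.mem_filter]
        refine ⟨Finset.mem_univ _, ?_⟩
        rw [hn]
        simp
      rw [Finset.card_erase_of_mem h0]
      rw [if_pos hn] at h2
      have h6 : (S.card : ℝ) = (l : ℝ) ^ 3 + (l : ℝ) ^ 2 - l := by
        have h7 : ((S.card : ℝ) - ((l : ℝ) ^ 3 + (l : ℝ) ^ 2 - l)) * l = 0 := by linear_combination h2
        rcases mul_eq_zero.1 h7 with h8 | h8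
        · linarith
        · linarith
      have hpos : 1 ≤ S.card := Finset.card_pos.2 ⟨0, h0⟩
      rw [Nat.cast_sub hpos, h6]
      have : (1 : ℝ) ≤ l := by exact_mod_cast hlp.one_lt.le
      push_cast
      nlinarith
    · have h0 : (0 : Fin 4 → ZMod l) ∉ S := by
        rw [hS, Finset.mem_filter]
        rintro ⟨_, h⟩
        apply hn
        rw [← h]
        simp
      rw [Finset.erase_eq_of_notMem h0]
      rw [if_neg hn] at h2
      have h7 : ((S.card : ℝ) - ((l : ℝ) ^ 3 - l)) * l = 0 := by linear_combination h2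
      rcases mul_eq_zero.1 h7 with h8 | h8
      · linarith
      · linarith
  have h6 : ((S.erase 0).card : ℝ) ≤ (Gl n l).card := by exact_mod_cast h4
  linarith

/-- bad classes of `f` modulo `l` -/
noncomputable def Bl (f : (Fin 4 → ℤ) → ℤ) (n l : ℕ) : Finset (Fin 4 → ℤ) := by
  classical
  exact (Gl n l).filter (fun c => (l : ℤ) ∣ f c)

lemma mem_Bl (f : (Fin 4 → ℤ) → ℤ) (n l : ℕ) (c : Fin 4 → ℤ) : c ∈ Bl f n l ↔ c ∈ Gl n l ∧ (l : ℤ) ∣ f c := by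
  unfold Bl
  rw [Finset.mem_filter]

/-- the form of the problem -/
def pf (X : Fin 4 → ℤ) : ℤ := X 0 ^ 2 + 3 * X 1 ^ 2 + 5 * X 2 ^ 2 + 7 * X 3 ^ 2

/-- `p (p - 2)` -/
def ff (X : Fin 4 → ℤ) : ℤ := pf X * (pf X - 2)

lemma pf_congr (l : ℕ) (X Y : Fin 4 → ℤ) (h : ∀ i, (l : ℤ) ∣ X i - Y i) : (l : ℤ) ∣ pf X - pf Y := by
  unfold pf
  have : X 0 ^ 2 + 3 * X 1 ^ 2 + 5 * X 2 ^ 2 + 7 * X 3 ^ 2 - (Y 0 ^ 2 + 3 * Y 1 ^ 2 + 5 * Y 2 ^ 2 + 7 * Y 3 ^ 2) =
    (X 0 - Y 0) * (X 0 + Y 0) + (X 1 - Y 1) * (3 * (X 1 + Y 1)) + (X 2 - Y 2) * (5 * (X 2 + Y 2)) +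
      (X 3 - Y 3) * (7 * (X 3 + Y 3)) := by ring
  rw [this]
  exact dvd_add (dvd_add (dvd_add ((h 0).mul_right _) ((h 1).mul_right _)) ((h 2).mul_right _)) ((h 3).mul_right _)

lemma ff_congr (l : ℕ) (X Y : Fin 4 → ℤ) (h : ∀ i, (l : ℤ) ∣ X i - Y i) : (l : ℤ) ∣ ff X - ff Y := by
  unfold ff
  have : pf X * (pf X - 2) - pf Y * (pf Y - 2) = (pf X - pf Y) * (pf X + pf Y - 2) := by ring
  rw [this]
  exact (pf_congr l X Y h).mul_right _

/-- two elements with congruent squares in `[0,l)` -/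
lemma sq_cases (l : ℕ) (hl : l.Prime) (x y : ℤ) (h : (l : ℤ) ∣ x ^ 2 - y ^ 2) (hx : 0 ≤ x ∧ x < l) (hy : 0 ≤ y ∧ y < l) :
    x = y ∨ x = (-y) % l := by
  have hlp : Prime (l : ℤ) := Nat.prime_iff_prime_int.1 hl
  have : x ^ 2 - y ^ 2 = (x - y) * (x + y) := by ring
  rw [this] at h
  rcases hlp.dvd_or_dvd h with h1 | h1
  · left
    obtain ⟨t, ht⟩ := h1
    have : t = 0 := by
      have h1 : -1 < t := by nlinarith
      have h2 : t < 1 := by nlinarith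
      omega
    rw [this] at ht
    linarith
  · right
    have h2 : x % l = (-y) % l := by
      apply Int.ModEq.symm
      rw [Int.modEq_iff_dvd]
      have : x - -y = x + y := by ring
      rw [this]
      exact h1
    rw [Int.emod_eq_of_lt hx.1 hx.2] at h2
    exact h2

lemma two_cancel (l : ℕ) (hl : l.Prime) (hl2 : l ≠ 2) (x : ℤ) (h : (l : ℤ) ∣ 2 * x) : (l : ℤ) ∣ x := by
  have hlp : Prime (l : ℤ) := Nat.prime_iff_prime_int.1 hl
  rcases hlp.dvd_or_dvd h with h1 | h1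
  · exfalso
    have : l ∣ 2 := by exact_mod_cast h1
    exact hl2 ((Nat.prime_dvd_prime_iff_eq hl Nat.prime_two).1 this)
  · exact h1

lemma bad_tau (l : ℕ) (hl : l.Prime) (hl2 : l ≠ 2) (n : ℕ) (τ : ℤ) (B : Finset (Fin 4 → ℤ))
    (hB : ∀ c ∈ B, c ∈ Gl n l ∧ (l : ℤ) ∣ pf c - τ) : B.card ≤ 4 * l ^ 2 := by
  classical
  have hcard : ((Finset.Ico (0 : ℤ) l) ×ˢ (Finset.Ico (0 : ℤ) l)).card = l ^ 2 := by
    rw [Finset.card_product]; simp; ring
  rw [← hcard]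
  apply Finset.card_le_mul_card_image_of_maps_to (f := fun c : Fin 4 → ℤ => (c 2, c 3))
  · intro c hc
    obtain ⟨h1, _⟩ := hB c hc
    have h2 := ((mem_Gl n l c).1 h1).1
    rw [Finset.mem_product, Finset.mem_Ico, Finset.mem_Ico]
    exact ⟨h2 2, h2 3⟩
  · intro r _
    by_cases hne : (B.filter (fun c => (c 2, c 3) = r)).Nonempty
    · obtain ⟨d, hd⟩ := hne
      rw [Finset.mem_filter] at hd
      obtain ⟨hdB, hdr⟩ := hd
      obtain ⟨hd1, hd2⟩ := hB d hdB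
      have hd3 := (mem_Gl n l d).1 hd1
      have hsub : B.filter (fun c => (c 2, c 3) = r) ⊆
          {![d 0, d 1, d 2, d 3], ![(-d 0) % l, d 1, d 2, d 3], ![d 0, (-d 1) % l, d 2, d 3],
            ![(-d 0) % l, (-d 1) % l, d 2, d 3]} := by
        intro c hc
        rw [Finset.mem_filter] at hc
        obtain ⟨hcB, hcr⟩ := hc
        obtain ⟨hc1, hc2⟩ := hB c hcB
        have hc3 := (mem_Gl n l c).1 hc1
        have e23 : (c 2, c 3) = (d 2, d 3) := by rw [hcr, hdr]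
        simp only [Prod.mk.injEq] at e23
        obtain ⟨e2, e3⟩ := e23
        have g1 : (l : ℤ) ∣ (c 0 ^ 2 + c 1 ^ 2) - (d 0 ^ 2 + d 1 ^ 2) := by
          have := dvd_sub hc3.2.1 hd3.2.1
          rw [Fin.sum_univ_four, Fin.sum_univ_four, e2, e3] at this
          have h5 : c 0 ^ 2 + c 1 ^ 2 + d 2 ^ 2 + d 3 ^ 2 - (n : ℤ) - (d 0 ^ 2 + d 1 ^ 2 + d 2 ^ 2 + d 3 ^ 2 - n) =
            (c 0 ^ 2 + c 1 ^ 2) - (d 0 ^ 2 + d 1 ^ 2) := by ring
          rwa [h5] at this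
        have g2 : (l : ℤ) ∣ (c 0 ^ 2 + 3 * c 1 ^ 2) - (d 0 ^ 2 + 3 * d 1 ^ 2) := by
          have := dvd_sub hc2 hd2
          unfold pf at this
          rw [e2, e3] at this
          have h5 : c 0 ^ 2 + 3 * c 1 ^ 2 + 5 * d 2 ^ 2 + 7 * d 3 ^ 2 - τ - (d 0 ^ 2 + 3 * d 1 ^ 2 + 5 * d 2 ^ 2 + 7 * d 3 ^ 2 - τ) =
            (c 0 ^ 2 + 3 * c 1 ^ 2) - (d 0 ^ 2 + 3 * d 1 ^ 2) := by ring
          rwa [h5] at this
        have g3 : (l : ℤ) ∣ c 1 ^ 2 - d 1 ^ 2 := by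
          apply two_cancel l hl hl2
          have := dvd_sub g2 g1
          have h5 : (c 0 ^ 2 + 3 * c 1 ^ 2) - (d 0 ^ 2 + 3 * d 1 ^ 2) - ((c 0 ^ 2 + c 1 ^ 2) - (d 0 ^ 2 + d 1 ^ 2)) =
            2 * (c 1 ^ 2 - d 1 ^ 2) := by ring
          rwa [h5] at this
        have g4 : (l : ℤ) ∣ c 0 ^ 2 - d 0 ^ 2 := by
          have := dvd_sub g1 g3
          have h5 : (c 0 ^ 2 + c 1 ^ 2) - (d 0 ^ 2 + d 1 ^ 2) - (c 1 ^ 2 - d 1 ^ 2) = c 0 ^ 2 - d 0 ^ 2 := by ring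
          rwa [h5] at this
        have k1 := sq_cases l hl (c 1) (d 1) g3 (hc3.1 1) (hd3.1 1)
        have k0 := sq_cases l hl (c 0) (d 0) g4 (hc3.1 0) (hd3.1 0)
        have hceq : c = ![c 0, c 1, c 2, c 3] := by
          funext i
          fin_cases i <;> rfl
        rw [hceq, e2, e3]
        simp only [Finset.mem_insert, Finset.mem_singleton]
        rcases k0 with k0 | k0 <;> rcases k1 with k1 | k1 <;> rw [k0, k1] <;> simp
      exact (Finset.card_le_card hsub).trans Finset.card_le_four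
    · rw [Finset.not_nonempty_iff_eq_empty.1 hne]
      simp

lemma Bl_card (l : ℕ) (hl : l.Prime) (hl2 : l ≠ 2) (n : ℕ) : (Bl ff n l).card ≤ 8 * l ^ 2 := by
  classical
  have hlp : Prime (l : ℤ) := Nat.prime_iff_prime_int.1 hl
  have hsub : Bl ff n l ⊆ (Gl n l).filter (fun c => (l : ℤ) ∣ pf c - 0) ∪ (Gl n l).filter (fun c => (l : ℤ) ∣ pf c - 2) := by
    intro c hc
    rw [mem_Bl] at hc
    rw [Finset.mem_union, Finset.mem_filter, Finset.mem_filter]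
    rcases hlp.dvd_or_dvd hc.2 with h | h
    · left; exact ⟨hc.1, by rwa [sub_zero]⟩
    · right; exact ⟨hc.1, h⟩
  have h1 := bad_tau l hl hl2 n 0 ((Gl n l).filter (fun c => (l : ℤ) ∣ pf c - 0)) (fun c hc => Finset.mem_filter.1 hc)
  have h2 := bad_tau l hl hl2 n 2 ((Gl n l).filter (fun c => (l : ℤ) ∣ pf c - 2)) (fun c hc => Finset.mem_filter.1 hc)
  calc (Bl ff n l).card ≤ _ := Finset.card_le_card hsub
    _ ≤ _ + _ := Finset.card_union_le _ _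
    _ ≤ 4 * l ^ 2 + 4 * l ^ 2 := Nat.add_le_add h1 h2
    _ = _ := by ring

/-- conversion of a small witness -/
lemma witness (l n : ℕ) (hl : l.Prime) (x y z w : ℕ) (hx : x < l) (hy : y < l) (hz : z < l) (hw : w < l)
    (h1 : (x ^ 2 + y ^ 2 + z ^ 2 + w ^ 2) % l = n % l) (h2 : x ≠ 0 ∨ y ≠ 0 ∨ z ≠ 0 ∨ w ≠ 0)
    (h3 : (x ^ 2 + 3 * y ^ 2 + 5 * z ^ 2 + 7 * w ^ 2) % l ≠ 0) (h4 : (x ^ 2 + 3 * y ^ 2 + 5 * z ^ 2 + 7 * w ^ 2) % l ≠ 2 % l) :
    ∃ c ∈ Gl n l, ¬ (l : ℤ) ∣ ff c := by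
  have hlp : Prime (l : ℤ) := Nat.prime_iff_prime_int.1 hl
  have hnd : ∀ t : ℕ, t ≠ 0 → t < l → ¬ (l : ℤ) ∣ (t : ℤ) := by
    intro t ht0 htl h
    have : l ∣ t := by exact_mod_cast h
    exact absurd (Nat.le_of_dvd (Nat.pos_of_ne_zero ht0) this) (by omega)
  refine ⟨![(x : ℤ), y, z, w], ?_, ?_⟩
  · rw [mem_Gl]
    refine ⟨?_, ?_, ?_⟩
    · intro i
      fin_cases i <;> simp <;> omega
    · rw [Fin.sum_univ_four]
      simp only [Matrix.cons_val_zero, Matrix.cons_val_one, Matrix.cons_val]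
      have : (n : ℕ) ≡ x ^ 2 + y ^ 2 + z ^ 2 + w ^ 2 [MOD l] := h1.symm
      have := (Nat.modEq_iff_dvd.1 this)
      push_cast at this
      exact this
    · rcases h2 with h | h | h | h
      · exact ⟨0, by simpa using hnd x h hx⟩
      · exact ⟨1, by simpa using hnd y h hy⟩
      · exact ⟨2, by simpa using hnd z h hz⟩
      · exact ⟨3, by simpa using hnd w h hw⟩
  · intro h
    unfold ff pf at h
    simp only [Matrix.cons_val_zero, Matrix.cons_val_one, Matrix.cons_val] at h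
    rcases hlp.dvd_or_dvd h with h5 | h5
    · apply h3
      apply Nat.mod_eq_zero_of_dvd
      exact_mod_cast h5
    · apply h4
      have h6 : ((l : ℕ) : ℤ) ∣ ((x ^ 2 + 3 * y ^ 2 + 5 * z ^ 2 + 7 * w ^ 2 : ℕ) : ℤ) - ((2 : ℕ) : ℤ) := by
        push_cast
        exact h5
      exact (Nat.modEq_iff_dvd.2 h6).symm

lemma loc3 : ∀ n : Fin 3, ∃ x y z w : Fin 3, (x.val ^ 2 + y.val ^ 2 + z.val ^ 2 + w.val ^ 2) % 3 = n.val ∧
    (x.val ≠ 0 ∨ y.val ≠ 0 ∨ z.val ≠ 0 ∨ w.val ≠ 0) ∧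
    (x.val ^ 2 + 3 * y.val ^ 2 + 5 * z.val ^ 2 + 7 * w.val ^ 2) % 3 ≠ 0 ∧
    (x.val ^ 2 + 3 * y.val ^ 2 + 5 * z.val ^ 2 + 7 * w.val ^ 2) % 3 ≠ 2 % 3 := by decide

lemma loc5 : ∀ n : Fin 5, ∃ x y z w : Fin 5, (x.val ^ 2 + y.val ^ 2 + z.val ^ 2 + w.val ^ 2) % 5 = n.val ∧
    (x.val ≠ 0 ∨ y.val ≠ 0 ∨ z.val ≠ 0 ∨ w.val ≠ 0) ∧
    (x.val ^ 2 + 3 * y.val ^ 2 + 5 * z.val ^ 2 + 7 * w.val ^ 2) % 5 ≠ 0 ∧
    (x.val ^ 2 + 3 * y.val ^ 2 + 5 * z.val ^ 2 + 7 * w.val ^ 2) % 5 ≠ 2 % 5 := by decide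

lemma loc7 : ∀ n : Fin 7, ∃ x y z w : Fin 7, (x.val ^ 2 + y.val ^ 2 + z.val ^ 2 + w.val ^ 2) % 7 = n.val ∧
    (x.val ≠ 0 ∨ y.val ≠ 0 ∨ z.val ≠ 0 ∨ w.val ≠ 0) ∧
    (x.val ^ 2 + 3 * y.val ^ 2 + 5 * z.val ^ 2 + 7 * w.val ^ 2) % 7 ≠ 0 ∧
    (x.val ^ 2 + 3 * y.val ^ 2 + 5 * z.val ^ 2 + 7 * w.val ^ 2) % 7 ≠ 2 % 7 := by decide

lemma local_ff (l : ℕ) (hl : l.Prime) (hl2 : l ≠ 2) (n : ℕ) : ∃ c ∈ Gl n l, ¬ (l : ℤ) ∣ ff c := by
  classical
  by_cases hbig : 11 ≤ l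
  · by_contra h
    push Not at h
    have h1 : Gl n l ⊆ Bl ff n l := fun c hc => (mem_Bl _ _ _ _).2 ⟨hc, h c hc⟩
    have h2 := (Finset.card_le_card h1).trans (Bl_card l hl hl2 n)
    have h3 := count_lower l hl hl2 n
    have h4 : ((Gl n l).card : ℝ) ≤ 8 * (l : ℝ) ^ 2 := by exact_mod_cast h2
    have h5 : (11 : ℝ) ≤ l := by exact_mod_cast hbig
    nlinarith [mul_pos (show (0:ℝ) < l by linarith) (show (0:ℝ) < l by linarith)]
  · have hcases : l = 3 ∨ l = 5 ∨ l = 7 := by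
      have := hl.two_le
      have h11 : l < 11 := by omega
      interval_cases l <;> first | omega | (exfalso; revert hl; decide)
    rcases hcases with rfl | rfl | rfl
    · obtain ⟨x, y, z, w, h1, h2, h3, h4⟩ := loc3 ⟨n % 3, Nat.mod_lt _ (by norm_num)⟩
      exact witness 3 n hl x y z w x.2 y.2 z.2 w.2 h1 h2 h3 h4
    · obtain ⟨x, y, z, w, h1, h2, h3, h4⟩ := loc5 ⟨n % 5, Nat.mod_lt _ (by norm_num)⟩
      exact witness 5 n hl x y z w x.2 y.2 z.2 w.2 h1 h2 h3 h4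
    · obtain ⟨x, y, z, w, h1, h2, h3, h4⟩ := loc7 ⟨n % 7, Nat.mod_lt _ (by norm_num)⟩
      exact witness 7 n hl x y z w x.2 y.2 z.2 w.2 h1 h2 h3 h4

end Pool.Agent.W65.FS
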