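import Pool.Agent.W65.FS.Prim

/-!
# Distribution of primitive representations in families of residue classes
-/

set_option autoImplicit false
open Finset

namespace Pool.Agent.W65.FS

/-- good classes modulo a prime, as vectors with entries in `[0, l)` -/
noncomputable def Gl (n l : ℕ) : Finset (Fin 4 → ℤ) := by
  classical
  exact (Fintype.piFinset fun _ : Fin 4 => Finset.Ico (0 : ℤ) l).filter
    (fun c => (l : ℤ) ∣ (∑ i, c i ^ 2) - n ∧ ∃ i, ¬ (l : ℤ) ∣ c i)

lemma mem_Gl (n l : ℕ) (c : Fin 4 → ℤ) :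
    c ∈ Gl n l ↔ (∀ i, 0 ≤ c i ∧ c i < l) ∧ (l : ℤ) ∣ (∑ i, c i ^ 2) - n ∧ ∃ i, ¬ (l : ℤ) ∣ c i := by
  unfold Gl
  rw [Finset.mem_filter, Fintype.mem_piFinset]
  simp only [Finset.mem_Ico]

lemma card_Gl_le (n l : ℕ) : (Gl n l).card ≤ l ^ 4 := by
  classical
  unfold Gl
  refine (Finset.card_filter_le _ _).trans ?_
  rw [Fintype.card_piFinset]
  simp

/-- reduction -/
def red (l : ℕ) (X : Fin 4 → ℤ) : Fin 4 → ℤ := fun i => X i % l

lemma red_dvd (l : ℕ) (X : Fin 4 → ℤ) (i : Fin 4) : (l : ℤ) ∣ X i - red l X i := by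
  unfold red
  exact Int.dvd_self_sub_emod

lemma red_mem (n l : ℕ) (hl : l.Prime) (X : Fin 4 → ℤ) (hX : ∑ i, X i ^ 2 = n) (hp : gc X = 1) : red l X ∈ Gl n l := by
  have hl0 : (0 : ℤ) < l := by exact_mod_cast hl.pos
  rw [mem_Gl]
  refine ⟨fun i => ⟨Int.emod_nonneg _ hl0.ne', Int.emod_lt_of_pos _ hl0⟩, ?_, ?_⟩
  · have h1 : (∑ i, red l X i ^ 2) - (n : ℤ) = -∑ i, (X i - red l X i) * (X i + red l X i) := by
      rw [← hX]
      simp only [Fin.sum_univ_four]
      ring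
    rw [h1, dvd_neg]
    exact Finset.dvd_sum fun i _ => (red_dvd l X i).mul_right _
  · by_contra h
    push Not at h
    have h1 : ∀ i, (l : ℤ) ∣ X i := by
      intro i
      have := dvd_add (red_dvd l X i) (h i)
      simpa using this
    have h2 := (dvd_gc l X).2 h1
    rw [hp] at h2
    exact hl.one_lt.ne' (Nat.dvd_one.1 h2)

/-- a vector with entries in `[0,l)` is determined by its residues -/
lemma red_unique (l : ℕ) (hl : 0 < l) (X c : Fin 4 → ℤ) (hc : ∀ i, 0 ≤ c i ∧ c i < l) :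
    red l X = c ↔ ∀ i, (l : ℤ) ∣ X i - c i := by
  constructor
  · rintro rfl
    exact red_dvd l X
  · intro h
    funext i
    unfold red
    have h1 : X i % l = c i % l := (Int.emod_emod_of_dvd _ dvd_rfl ▸ (Int.emod_emod_of_dvd _ dvd_rfl)) ▸
      (Int.ModEq.symm ((Int.modEq_iff_dvd).2 (h i)))
    rw [h1]
    exact Int.emod_eq_of_lt (hc i).1 (hc i).2

/-- the Chinese remainder theorem -/
lemma crt_exists (M : ℕ) (a : ℤ) (T : Finset ℕ) (hT : ∀ l ∈ T, l.Prime ∧ ¬ l ∣ M) (r : ℕ → ℤ) :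
    ∃ x : ℤ, (M : ℤ) ∣ x - a ∧ ∀ l ∈ T, (l : ℤ) ∣ x - r l := by
  classical
  induction T using Finset.induction_on with
  | empty => exact ⟨a, by simp, by simp⟩
  | insert l T hl ih =>
    obtain ⟨x, hx1, hx2⟩ := ih (fun l' hl' => hT l' (Finset.mem_insert_of_mem hl'))
    obtain ⟨hlp, hlM⟩ := hT l (Finset.mem_insert_self l T)
    have hcop : Nat.Coprime (M * ∏ l' ∈ T, l') l := by
      apply Nat.Coprime.mul_left
      · exact ((Nat.Prime.coprime_iff_not_dvd hlp).2 hlM).symm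
      · apply Nat.Coprime.prod_left
        intro l' hl'
        have hl'p := (hT l' (Finset.mem_insert_of_mem hl')).1
        rw [Nat.coprime_primes hl'p hlp]
        rintro rfl
        exact hl hl'
    obtain ⟨s, t, hst⟩ := Nat.isCoprime_iff_coprime.2 hcop
    refine ⟨x + s * (M * ∏ l' ∈ T, l' : ℕ) * (r l - x), ?_, ?_⟩
    · have h1 : x + s * ((M * ∏ l' ∈ T, l' : ℕ) : ℤ) * (r l - x) - a = (x - a) + M * (s * (∏ l' ∈ T, l' : ℕ) * (r l - x)) := by
        push_cast; ring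
      rw [h1]
      exact dvd_add hx1 (dvd_mul_right _ _)
    · intro l' hl'
      rw [Finset.mem_insert] at hl'
      rcases hl' with rfl | hl'
      · have h1 : x + s * ((M * ∏ l' ∈ T, l' : ℕ) : ℤ) * (r l' - x) - r l' = l' * (-t * (r l' - x)) := by
          linear_combination (r l' - x) * hst
        rw [h1]
        exact dvd_mul_right _ _
      · have h2 : (l' : ℤ) ∣ ((M * ∏ l' ∈ T, l' : ℕ) : ℤ) := by
          exact Int.natCast_dvd_natCast.2 (Dvd.dvd.mul_left (Finset.dvd_prod_of_mem _ hl') M)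
        have h1 : x + s * ((M * ∏ l' ∈ T, l' : ℕ) : ℤ) * (r l - x) - r l' =
          (x - r l') + ((M * ∏ l' ∈ T, l' : ℕ) : ℤ) * (s * (r l - x)) := by ring
        rw [h1]
        exact dvd_add (hx2 l' hl') (h2.mul_right _)

lemma dvd_all (M : ℕ) (T : Finset ℕ) (hT : ∀ l ∈ T, l.Prime ∧ ¬ l ∣ M) (x : ℤ) :
    ((M * ∏ l ∈ T, l : ℕ) : ℤ) ∣ x ↔ (M : ℤ) ∣ x ∧ ∀ l ∈ T, (l : ℤ) ∣ x := by
  constructor
  · intro h
    refine ⟨(Int.natCast_dvd_natCast.2 (dvd_mul_right _ _)).trans h, fun l hl => ?_⟩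
    exact (Int.natCast_dvd_natCast.2 (Dvd.dvd.mul_left (Finset.dvd_prod_of_mem _ hl) M)).trans h
  · rintro ⟨h1, h2⟩
    push_cast
    apply IsCoprime.mul_dvd
    · have : Nat.Coprime M (∏ l ∈ T, l) := by
        apply Nat.Coprime.prod_right
        intro l hl
        exact ((Nat.Prime.coprime_iff_not_dvd (hT l hl).1).2 (hT l hl).2).symm
      have := Nat.isCoprime_iff_coprime.2 this
      push_cast at this
      exact this
    · exact h1
    · have h3 : (∏ l ∈ T, l) ∣ x.natAbs :=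
        Finset.prod_primes_dvd _ (fun l hl => (hT l hl).1.prime) (fun l hl => Int.natCast_dvd.1 (h2 l hl))
      have h4 := Int.natCast_dvd.2 h3
      push_cast at h4
      exact h4

/-- number of primitive representations in a family of classes -/
noncomputable def Nc (n M : ℕ) (v : Fin 4 → ℤ) (T : Finset ℕ) (c : (l : ℕ) → l ∈ T → (Fin 4 → ℤ)) : Finset (Fin 4 → ℤ) := by
  classical
  exact (prc n M v).filter (fun X => ∀ l (h : l ∈ T), red l X = c l h)

lemma Nc_eq (n M : ℕ) (hM : 0 < M) (v : Fin 4 → ℤ) (hv : Good n M v) (T : Finset ℕ) (hT : ∀ l ∈ T, l.Prime ∧ ¬ l ∣ M)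
    (c : (l : ℕ) → l ∈ T → (Fin 4 → ℤ)) (hc : c ∈ T.pi (fun l => Gl n l)) :
    ∃ u : Fin 4 → ℤ, Good n (M * ∏ l ∈ T, l) u ∧ Nc n M v T c = prc n (M * ∏ l ∈ T, l) u := by
  classical
  have hcm : ∀ l (h : l ∈ T), c l h ∈ Gl n l := fun l h => (Finset.mem_pi.1 hc) l h
  have hex : ∀ i : Fin 4, ∃ x : ℤ, (M : ℤ) ∣ x - v i ∧ ∀ l ∈ T, (l : ℤ) ∣ x - (if h : l ∈ T then c l h i else 0) :=
    fun i => crt_exists M (v i) T hT (fun l => if h : l ∈ T then c l h i else 0)
  choose u hu1 hu2 using hex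
  have hu3 : ∀ i l (h : l ∈ T), (l : ℤ) ∣ u i - c l h i := by
    intro i l h
    have := hu2 i l h
    rwa [dif_pos h] at this
  refine ⟨u, ⟨?_, ?_⟩, ?_⟩
  · rw [dvd_all M T hT]
    constructor
    · have h1 : (∑ i, u i ^ 2) - (n : ℤ) = ((∑ i, v i ^ 2) - n) + ∑ i, (u i - v i) * (u i + v i) := by
        simp only [Fin.sum_univ_four]; ring
      rw [h1]
      exact dvd_add hv.1 (Finset.dvd_sum fun i _ => (hu1 i).mul_right _)
    · intro l h
      have h1 : (∑ i, u i ^ 2) - (n : ℤ) = ((∑ i, c l h i ^ 2) - n) + ∑ i, (u i - c l h i) * (u i + c l h i) := by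
        simp only [Fin.sum_univ_four]; ring
      rw [h1]
      exact dvd_add ((mem_Gl n l _).1 (hcm l h)).2.1 (Finset.dvd_sum fun i _ => (hu3 i l h).mul_right _)
  · intro l hl hlD
    rcases (Nat.Prime.dvd_mul hl).1 hlD with h | h
    · obtain ⟨i, hi⟩ := hv.2 l hl h
      refine ⟨i, fun h2 => hi ?_⟩
      have := dvd_sub h2 ((Int.natCast_dvd_natCast.2 h).trans (hu1 i))
      simpa using this
    · obtain ⟨l', hl', hll⟩ := (hl.prime.dvd_finsetProd_iff _).1 h
      have hle : l = l' := (Nat.prime_dvd_prime_iff_eq hl (hT l' hl').1).1 hll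
      subst hle
      obtain ⟨i, hi⟩ := ((mem_Gl n l _).1 (hcm l hl')).2.2
      refine ⟨i, fun h2 => hi ?_⟩
      have := dvd_sub h2 (hu3 i l hl')
      simpa using this
  · ext X
    unfold Nc prc
    rw [Finset.mem_filter, Finset.mem_filter, Finset.mem_filter, mem_repsc, mem_repsc]
    constructor
    · rintro ⟨⟨⟨h1, h2⟩, h3⟩, h4⟩
      refine ⟨⟨h1, fun i => ?_⟩, h3⟩
      rw [dvd_all M T hT]
      constructor
      · have := dvd_sub (h2 i) (hu1 i)
        simpa using this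
      · intro l h
        have h5 := (red_unique l (hT l h).1.pos X (c l h) ((mem_Gl n l _).1 (hcm l h)).1).1 (h4 l h) i
        have := dvd_sub h5 (hu3 i l h)
        simpa using this
    · rintro ⟨⟨h1, h2⟩, h3⟩
      have h2' := fun i => (dvd_all M T hT _).1 (h2 i)
      refine ⟨⟨⟨h1, fun i => ?_⟩, h3⟩, fun l h => ?_⟩
      · have := dvd_add (h2' i).1 (hu1 i)
        simpa using this
      · rw [red_unique l (hT l h).1.pos X (c l h) ((mem_Gl n l _).1 (hcm l h)).1]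
        intro i
        have := dvd_add ((h2' i).2 l h) (hu3 i l h)
        simpa using this

lemma sum_Nc (n M : ℕ) (v : Fin 4 → ℤ) (T : Finset ℕ) (S : ℕ → Finset (Fin 4 → ℤ)) :
    ∑ c ∈ T.pi S, (Nc n M v T c).card = ((prc n M v).filter (fun X => ∀ l ∈ T, red l X ∈ S l)).card := by
  classical
  rw [Finset.card_eq_sum_card_fiberwise (f := fun X => fun l (_ : l ∈ T) => red l X) (t := T.pi S)]
  · apply Finset.sum_congr rfl
    intro c hc
    congr 1
    ext X
    unfold Nc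
    rw [Finset.mem_filter, Finset.mem_filter, Finset.mem_filter]
    constructor
    · rintro ⟨h1, h2⟩
      refine ⟨⟨h1, fun l hl => ?_⟩, ?_⟩
      · rw [h2 l hl]
        exact (Finset.mem_pi.1 hc) l hl
      · funext l hl
        exact h2 l hl
    · rintro ⟨⟨h1, _⟩, h2⟩
      refine ⟨h1, fun l hl => ?_⟩
      exact congrFun (congrFun h2 l) hl
  · intro X hX
    rw [Finset.mem_coe, Finset.mem_filter] at hX
    rw [Finset.mem_coe, Finset.mem_pi]
    intro l hl
    exact hX.2 l hl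

/-- **distribution** -/
theorem distribution : ∃ C : ℝ, 0 < C ∧ ∀ (n M : ℕ), 1 ≤ n → 0 < M → Odd M → Squarefree M →
    ∀ v : Fin 4 → ℤ, Good n M v → ∀ T : Finset ℕ, (∀ l ∈ T, l.Prime ∧ ¬ l ∣ M ∧ l ≠ 2 ∧ (Gl n l).Nonempty) →
    ∀ S : ℕ → Finset (Fin 4 → ℤ), (∀ l ∈ T, S l ⊆ Gl n l) →
      |((((prc n M v).filter (fun X => ∀ l ∈ T, red l X ∈ S l)).card : ℕ) : ℝ) -
        ((prc n M v).card : ℝ) * ∏ l ∈ T, (((S l).card : ℝ) / (Gl n l).card)| ≤
      C * (M : ℝ) ^ 11 * ((∏ l ∈ T, l : ℕ) : ℝ) ^ 15 * (n : ℝ) ^ (19 / 20 : ℝ) := by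
  classical
  obtain ⟨C, hC, h⟩ := prim_bound
  refine ⟨C, hC, ?_⟩
  intro n M hn hM hMo hMs v hv T hT' S hS
  have hT : ∀ l ∈ T, l.Prime ∧ ¬ l ∣ M := fun l hl => ⟨(hT' l hl).1, (hT' l hl).2.1⟩
  set D : ℕ := ∏ l ∈ T, l with hD
  have hDpos : 0 < D := Finset.prod_pos fun l hl => (hT l hl).1.pos
  have hDodd : Odd D := by
    rw [hD]
    apply Finset.prod_induction _ Odd (fun a b ha hb => ha.mul hb) odd_one
    intro l hl
    exact (hT' l hl).1.odd_of_ne_two (hT' l hl).2.2.1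
  have hcopMD : Nat.Coprime M D := by
    apply Nat.Coprime.prod_right
    intro l hl
    exact ((Nat.Prime.coprime_iff_not_dvd (hT l hl).1).2 (hT l hl).2).symm
  have hDsq : Squarefree D := by
    rw [hD]
    apply Finset.squarefree_prod_of_pairwise_isCoprime
    · intro a ha b hb hab
      rw [Function.onFun, ← Nat.coprime_iff_isRelPrime, Nat.coprime_primes (hT a ha).1 (hT b hb).1]
      exact hab
    · intro l hl
      exact (hT l hl).1.squarefree
  have hMD : 0 < M * D := Nat.mul_pos hM hDpos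
  have hMDo : Odd (M * D) := hMo.mul hDodd
  have hMDs : Squarefree (M * D) := (Nat.squarefree_mul hcopMD).2 ⟨hMs, hDsq⟩
  set E : ℝ := C * ((M * D : ℕ) : ℝ) ^ 11 * (n : ℝ) ^ (19 / 20 : ℝ) with hE
  have hE0 : 0 ≤ E := by positivity
  set Gs := T.pi (fun l => Gl n l) with hGs
  set Ss := T.pi S with hSs
  have hsub : Ss ⊆ Gs := by
    intro c hc
    rw [hSs, Finset.mem_pi] at hc
    rw [hGs, Finset.mem_pi]
    intro l hl
    exact hS l hl (hc l hl)
  have hdiff : ∀ c ∈ Gs, ∀ c' ∈ Gs, |((Nc n M v T c).card : ℝ) - (Nc n M v T c').card| ≤ E := by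
    intro c hc c' hc'
    obtain ⟨u, hu1, hu2⟩ := Nc_eq n M hM v hv T hT c hc
    obtain ⟨u', hu1', hu2'⟩ := Nc_eq n M hM v hv T hT c' hc'
    rw [hu2, hu2']
    exact h n (M * D) hn hMD hMDo hMDs u u' hu1 hu1'
  have hsumS : (((prc n M v).filter (fun X => ∀ l ∈ T, red l X ∈ S l)).card : ℝ) = ∑ c ∈ Ss, ((Nc n M v T c).card : ℝ) := by
    rw [← sum_Nc]
    push_cast
    rfl
  have hsumG : ((prc n M v).card : ℝ) = ∑ c ∈ Gs, ((Nc n M v T c).card : ℝ) := by
    have h1 := sum_Nc n M v T (fun l => Gl n l)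
    have h2 : (prc n M v).filter (fun X => ∀ l ∈ T, red l X ∈ Gl n l) = prc n M v := by
      apply Finset.filter_true_of_mem
      intro X hX l hl
      unfold prc at hX
      rw [Finset.mem_filter, mem_repsc] at hX
      exact red_mem n l (hT l hl).1 X hX.1.1 hX.2
    rw [h2] at h1
    rw [← h1]
    push_cast
    rfl
  have hcG : (Gs.card : ℝ) = ∏ l ∈ T, ((Gl n l).card : ℝ) := by
    rw [hGs, Finset.card_pi]; push_cast; rfl
  have hcS : (Ss.card : ℝ) = ∏ l ∈ T, ((S l).card : ℝ) := by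
    rw [hSs, Finset.card_pi]; push_cast; rfl
  have hG0 : (0 : ℝ) < Gs.card := by
    rw [hcG]
    apply Finset.prod_pos
    intro l hl
    exact_mod_cast Finset.card_pos.2 (hT' l hl).2.2.2
  rw [Finset.prod_div_distrib, ← hcG, ← hcS, hsumS, hsumG]
  have e1 : ∑ c ∈ Ss, ((Nc n M v T c).card : ℝ) - (∑ c ∈ Gs, ((Nc n M v T c).card : ℝ)) * ((Ss.card : ℝ) / Gs.card) =
      (1 / (Gs.card : ℝ)) * ∑ c ∈ Ss, ∑ c' ∈ Gs, (((Nc n M v T c).card : ℝ) - (Nc n M v T c').card) := by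
    simp_rw [Finset.sum_sub_distrib]
    simp only [Finset.sum_const, nsmul_eq_mul]
    rw [← Finset.mul_sum]
    field_simp
  rw [e1, abs_mul, abs_of_pos (by positivity)]
  have e2 : |∑ c ∈ Ss, ∑ c' ∈ Gs, (((Nc n M v T c).card : ℝ) - (Nc n M v T c').card)| ≤ Ss.card * (Gs.card * E) := by
    refine (Finset.abs_sum_le_sum_abs _ _).trans ?_
    have : ∀ c ∈ Ss, |∑ c' ∈ Gs, (((Nc n M v T c).card : ℝ) - (Nc n M v T c').card)| ≤ Gs.card * E := by
      intro c hc
      refine (Finset.abs_sum_le_sum_abs _ _).trans ?_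
      refine (Finset.sum_le_sum fun c' hc' => hdiff c (hsub hc) c' hc').trans ?_
      rw [Finset.sum_const, nsmul_eq_mul]
    refine (Finset.sum_le_sum this).trans ?_
    rw [Finset.sum_const, nsmul_eq_mul]
  have hSle : (Ss.card : ℝ) ≤ (D : ℝ) ^ 4 := by
    rw [hcS, hD]
    push_cast
    rw [← Finset.prod_pow]
    apply Finset.prod_le_prod
    · intro l _; positivity
    · intro l hl
      have h1 : (S l).card ≤ l ^ 4 := (Finset.card_le_card (hS l hl)).trans (card_Gl_le n l)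
      exact_mod_cast h1
  calc 1 / (Gs.card : ℝ) * |∑ c ∈ Ss, ∑ c' ∈ Gs, (((Nc n M v T c).card : ℝ) - (Nc n M v T c').card)|
      ≤ 1 / (Gs.card : ℝ) * (Ss.card * (Gs.card * E)) := by gcongr
    _ = Ss.card * E := by field_simp
    _ ≤ (D : ℝ) ^ 4 * E := by gcongr
    _ = _ := by
      rw [hE]
      push_cast
      ring

end Pool.Agent.W65.FS
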