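import Pool.Agent.W65.FS.Extract

/-!
# The analytic bound
-/

set_option autoImplicit false
open Finset Complex MeasureTheory intervalIntegral

namespace Pool.Agent.W65.FS

/-- squared length of the dual vector -/
def nq (k : Q) : ℤ := k.1.1 ^ 2 + k.1.2 ^ 2 + (k.2.1 ^ 2 + k.2.2 ^ 2)

lemma nq_nonneg (k : Q) : 0 ≤ nq k := by unfold nq; positivity

lemma nq_pos (k : Q) (hk : k ≠ 0) : 1 ≤ nq k := by
  by_contra h
  have h0 : nq k = 0 := by have := nq_nonneg k; omega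
  unfold nq at h0
  apply hk
  have h1 : k.1.1 ^ 2 = 0 := by nlinarith [sq_nonneg k.1.1, sq_nonneg k.1.2, sq_nonneg k.2.1, sq_nonneg k.2.2]
  have h2 : k.1.2 ^ 2 = 0 := by nlinarith [sq_nonneg k.1.1, sq_nonneg k.1.2, sq_nonneg k.2.1, sq_nonneg k.2.2]
  have h3 : k.2.1 ^ 2 = 0 := by nlinarith [sq_nonneg k.1.1, sq_nonneg k.1.2, sq_nonneg k.2.1, sq_nonneg k.2.2]
  have h4 : k.2.2 ^ 2 = 0 := by nlinarith [sq_nonneg k.1.1, sq_nonneg k.1.2, sq_nonneg k.2.1, sq_nonneg k.2.2]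
  ext <;> simp <;> nlinarith

/-- the quantity `A` -/
noncomputable def AA (y : ℝ) (m : ℕ) (β : ℝ) : ℂ := -2 * I * (m : ℂ) ^ 2 * ((β : ℂ) + y * I)

lemma AA_eq (y : ℝ) (m : ℕ) (β : ℝ) : AA y m β = ((2 * m ^ 2 * y : ℝ) : ℂ) + ((-2 * m ^ 2 * β : ℝ) : ℂ) * I := by
  unfold AA
  push_cast
  ring_nf
  rw [I_sq]
  ring

lemma AA_re (y : ℝ) (m : ℕ) (β : ℝ) : (AA y m β).re = 2 * m ^ 2 * y := by
  rw [AA_eq, Complex.add_re, Complex.ofReal_re, Complex.re_ofReal_mul, Complex.I_re]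
  ring

lemma AA_im (y : ℝ) (m : ℕ) (β : ℝ) : (AA y m β).im = -2 * m ^ 2 * β := by
  rw [AA_eq, Complex.add_im, Complex.ofReal_im, Complex.im_ofReal_mul, Complex.I_im]
  ring

lemma AA_normSq (y : ℝ) (m : ℕ) (β : ℝ) : Complex.normSq (AA y m β) = 4 * m ^ 4 * (β ^ 2 + y ^ 2) := by
  rw [Complex.normSq_apply, AA_re, AA_im]
  ring

lemma AA_inv_re (y : ℝ) (hy : 0 < y) (m : ℕ) (hm : 0 < m) (β : ℝ) :
    ((AA y m β)⁻¹).re = y / (2 * m ^ 2 * (β ^ 2 + y ^ 2)) := by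
  have hm' : (0 : ℝ) < m := by exact_mod_cast hm
  have h2 : 0 < β ^ 2 + y ^ 2 := by positivity
  rw [Complex.inv_re, AA_re, AA_normSq]
  field_simp
  norm_num

lemma AA_norm_sq_inv (y : ℝ) (hy : 0 < y) (m : ℕ) (hm : 0 < m) (β : ℝ) :
    ‖((AA y m β) ^ 2)⁻¹‖ = ((AA y m β)⁻¹).re / (2 * m ^ 2 * y) := by
  have hm' : (0 : ℝ) < m := by exact_mod_cast hm
  have h2 : 0 < β ^ 2 + y ^ 2 := by positivity
  rw [norm_inv, norm_pow, ← Complex.normSq_eq_norm_sq, AA_normSq, AA_inv_re y hy m hm]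
  field_simp
  norm_num

lemma AA_ne (y : ℝ) (hy : 0 < y) (m : ℕ) (hm : 0 < m) (β : ℝ) : AA y m β ≠ 0 := by
  intro h
  have := AA_re y m β
  rw [h] at this
  have hm' : (0 : ℝ) < m := by exact_mod_cast hm
  have h2 : 0 < 2 * (m:ℝ) ^ 2 * y := by positivity
  simp at this
  rcases this with h3 | h3
  · omega
  · linarith

lemma AA_continuous (y : ℝ) (m : ℕ) : Continuous (AA y m) := by
  unfold AA
  fun_prop

/-! ### Gauss sums are bounded -/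

lemma norm_std (c : ℕ) [NeZero c] (x : ZMod c) : ‖ZMod.stdAddChar x‖ = 1 := by
  exact AddChar.norm_apply _ _

lemma norm_gs_le (c : ℕ) [NeZero c] (D : ℕ) (a u k : ZMod c) : ‖gs c D a u k‖ ≤ c := by
  unfold gs
  refine (norm_sum_le _ _).trans ?_
  simp

/-- the local factor -/
noncomputable def Tk (c : ℕ) [NeZero c] (D n : ℕ) (a : ZMod c) (u : Fin 4 → ℤ) (k : Q) : ℂ :=
  ZMod.stdAddChar (-(n : ZMod c) * a) *
    (gs c D a (u 0 : ZMod c) (k.1.1 : ZMod c) * gs c D a (u 1 : ZMod c) (k.1.2 : ZMod c) *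
      (gs c D a (u 2 : ZMod c) (k.2.1 : ZMod c) * gs c D a (u 3 : ZMod c) (k.2.2 : ZMod c)))

lemma norm_Tk_le (c : ℕ) [NeZero c] (D n : ℕ) (a : ZMod c) (u : Fin 4 → ℤ) (k : Q) : ‖Tk c D n a u k‖ ≤ (c : ℝ) ^ 4 := by
  unfold Tk
  rw [norm_mul, norm_std, one_mul, norm_mul, norm_mul, norm_mul]
  have h0 := norm_gs_le c D a (u 0 : ZMod c) (k.1.1 : ZMod c)
  have h1 := norm_gs_le c D a (u 1 : ZMod c) (k.1.2 : ZMod c)
  have h2 := norm_gs_le c D a (u 2 : ZMod c) (k.2.1 : ZMod c)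
  have h3 := norm_gs_le c D a (u 3 : ZMod c) (k.2.2 : ZMod c)
  have hc : (0 : ℝ) ≤ c := by positivity
  calc _ ≤ ((c : ℝ) * c) * (c * c) := by gcongr
    _ = _ := by ring

/-- the linear phase -/
noncomputable def ek (m : ℕ) (u : Fin 4 → ℤ) (k : Q) : ℂ :=
  cexp (2 * Real.pi * I * ((k.1.1 * u 0 + k.1.2 * u 1 + (k.2.1 * u 2 + k.2.2 * u 3) : ℤ) : ℂ) / m)

lemma norm_ek (m : ℕ) (u : Fin 4 → ℤ) (k : Q) : ‖ek m u k‖ = 1 := by
  unfold ek
  have : 2 * Real.pi * I * ((k.1.1 * u 0 + k.1.2 * u 1 + (k.2.1 * u 2 + k.2.2 * u 3) : ℤ) : ℂ) / m =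
    ((2 * Real.pi * ((k.1.1 * u 0 + k.1.2 * u 1 + (k.2.1 * u 2 + k.2.2 * u 3) : ℤ) : ℝ) / m : ℝ) : ℂ) * I := by
    push_cast; ring
  rw [this, Complex.norm_exp_ofReal_mul_I]

lemma summable_nq (t : ℝ) (ht : 0 < t) : Summable (fun k : Q => Real.exp (-Real.pi * t * (nq k : ℝ))) := by
  have h := summable_trm (t / 2) (by positivity) 1 (by norm_num) 0
  refine h.congr fun k => ?_
  have h2 : nrm 1 0 k = nq k := by unfold nrm nq; simp
  rw [h2]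
  congr 1
  ring

lemma norm_expq (A : ℂ) (k : Q) : ‖cexp (-Real.pi * (nq k : ℤ) / A)‖ = Real.exp (-Real.pi * (A⁻¹).re * (nq k : ℝ)) := by
  rw [Complex.norm_exp]
  congr 1
  have : (-Real.pi * (nq k : ℤ) / A : ℂ) = ((-Real.pi * (nq k : ℝ) : ℝ) : ℂ) * A⁻¹ := by
    push_cast
    rw [div_eq_mul_inv]
  rw [this, Complex.re_ofReal_mul]
  ring

lemma norm_term (c : ℕ) [NeZero c] (D n : ℕ) (a : ZMod c) (u : Fin 4 → ℤ) (A : ℂ) (k : Q) :
    ‖ek (c * D) u k * Tk c D n a u k * cexp (-Real.pi * (nq k : ℤ) / A)‖ ≤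
      (c : ℝ) ^ 4 * Real.exp (-Real.pi * (A⁻¹).re * (nq k : ℝ)) := by
  rw [norm_mul, norm_mul, norm_ek, one_mul, norm_expq]
  gcongr
  exact norm_Tk_le c D n a u k

lemma summable_term (c : ℕ) [NeZero c] (D n : ℕ) (a : ZMod c) (u : Fin 4 → ℤ) (A : ℂ) (hA : 0 < A.re) :
    Summable (fun k : Q => ‖ek (c * D) u k * Tk c D n a u k * cexp (-Real.pi * (nq k : ℤ) / A)‖) := by
  refine Summable.of_nonneg_of_le (fun _ => norm_nonneg _) (fun k => norm_term c D n a u A k) ?_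
  exact (summable_nq _ (inv_re_pos A hA)).mul_left _

/-- expansion of the integrand near a rational point -/
theorem PP_rational (y : ℝ) (hy : 0 < y) (D : ℕ) (hD : 0 < D) (u : Fin 4 → ℤ) (n : ℕ) (c : ℕ) [NeZero c] (a : ℤ) (β : ℝ) :
    PP y D u n ((a : ℝ) / c + β) =
      ((AA y (c * D) β) ^ 2)⁻¹ * cexp (-(2 * Real.pi * I * n * β)) *
        ∑' k : Q, ek (c * D) u k * Tk c D n (a : ZMod c) u k * cexp (-Real.pi * (nq k : ℤ) / AA y (c * D) β) := by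
  have hc : 0 < c := Nat.pos_of_ne_zero (NeZero.ne c)
  have hc0 : (c : ℂ) ≠ 0 := by exact_mod_cast hc.ne'
  have hD0 : (D : ℂ) ≠ 0 := by exact_mod_cast hD.ne'
  have hm : 0 < c * D := Nat.mul_pos hc hD
  set A : ℂ := AA y (c * D) β with hA
  have hA0 : A ≠ 0 := AA_ne y hy (c * D) hm β
  have hAre : 0 < A.re := by
    rw [hA, AA_re]
    have : (0:ℝ) < ((c * D : ℕ) : ℝ) := by exact_mod_cast hm
    positivity
  -- each theta
  set f : ℤ → ℤ → ℂ := fun w k => cexp (2 * Real.pi * I * (k * w / ((c * D : ℕ) : ℂ))) *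
          gs c D (a : ZMod c) (w : ZMod c) (k : ZMod c) * cexp (-Real.pi * k ^ 2 / A) with hf
  have hth : ∀ w : ℤ, theta y D w ((a : ℝ) / c + β) = 1 / A ^ (1 / 2 : ℂ) * ∑' k : ℤ, f w k := by
    intro w
    exact theta_rational y hy D hD w c a β
  have hfn : ∀ w, Summable (fun k : ℤ => ‖f w k‖) := by
    intro w
    refine Summable.of_nonneg_of_le (fun _ => norm_nonneg _) (fun k => ?_) ((summable_dual A hAre).mul_left (c : ℝ))
    rw [hf]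
    simp only
    rw [norm_mul, norm_mul]
    have e1 : ‖cexp (2 * Real.pi * I * (k * w / ((c * D : ℕ) : ℂ)))‖ = 1 := by
      have : 2 * Real.pi * I * (k * w / ((c * D : ℕ) : ℂ)) =
        ((2 * Real.pi * (k * w / ((c * D : ℕ) : ℝ)) : ℝ) : ℂ) * I := by push_cast; ring
      rw [this, Complex.norm_exp_ofReal_mul_I]
    rw [e1, one_mul]
    gcongr
    exact norm_gs_le c D _ _ _
  have hpow : (A ^ (1 / 2 : ℂ)) ^ 2 = A := by
    have := Complex.cpow_nat_inv_pow A (n := 2) (by norm_num)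
    rw [one_div]
    exact_mod_cast this
  have hAh : A ^ (1 / 2 : ℂ) ≠ 0 := by
    intro h
    rw [h] at hpow
    apply hA0
    rw [← hpow]
    norm_num
  unfold PP FF
  rw [hth, hth, hth, hth]
  have e1 : (1 / A ^ (1 / 2 : ℂ) * ∑' k : ℤ, f (u 0) k) * (1 / A ^ (1 / 2 : ℂ) * ∑' k : ℤ, f (u 1) k) *
      ((1 / A ^ (1 / 2 : ℂ) * ∑' k : ℤ, f (u 2) k) * (1 / A ^ (1 / 2 : ℂ) * ∑' k : ℤ, f (u 3) k)) =
      (A ^ 2)⁻¹ * ((∑' k : ℤ, f (u 0) k) * (∑' k : ℤ, f (u 1) k) *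
        ((∑' k : ℤ, f (u 2) k) * (∑' k : ℤ, f (u 3) k))) := by
    conv_rhs => rw [← hpow]
    field_simp
  rw [e1]
  have h0 := hfn (u 0)
  have h1 := hfn (u 1)
  have h2 := hfn (u 2)
  have h3 := hfn (u 3)
  rw [tsum_mul_tsum_of_summable_norm h0 h1, tsum_mul_tsum_of_summable_norm h2 h3,
    tsum_mul_tsum_of_summable_norm (h0.mul_norm h1) (h2.mul_norm h3)]
  have e2 : cexp (-(2 * Real.pi * I * n * (((a : ℝ) / c + β : ℝ) : ℂ))) =
      cexp (-(2 * Real.pi * I * n * β)) * ZMod.stdAddChar (-(n : ZMod c) * (a : ZMod c)) := by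
    have : (-(n : ZMod c) * (a : ZMod c)) = ((-n * a : ℤ) : ZMod c) := by push_cast; ring
    rw [this, ZMod.stdAddChar_coe, ← Complex.exp_add]
    congr 1
    push_cast
    ring
  rw [e2, mul_assoc, mul_comm (∑' _, _), mul_assoc, ← tsum_mul_left, ← mul_assoc]
  congr 1
  apply tsum_congr
  intro k
  rw [hf]
  simp only
  unfold Tk ek
  have e3 : cexp (2 * Real.pi * I * ((k.1.1 * u 0 + k.1.2 * u 1 + (k.2.1 * u 2 + k.2.2 * u 3) : ℤ) : ℂ) / ((c * D : ℕ) : ℂ)) =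
      cexp (2 * Real.pi * I * (k.1.1 * u 0 / ((c * D : ℕ) : ℂ))) * cexp (2 * Real.pi * I * (k.1.2 * u 1 / ((c * D : ℕ) : ℂ))) *
      (cexp (2 * Real.pi * I * (k.2.1 * u 2 / ((c * D : ℕ) : ℂ))) * cexp (2 * Real.pi * I * (k.2.2 * u 3 / ((c * D : ℕ) : ℂ)))) := by
    rw [← Complex.exp_add, ← Complex.exp_add, ← Complex.exp_add]
    congr 1
    push_cast
    ring
  have e4 : cexp (-Real.pi * (nq k : ℤ) / A) =
      cexp (-Real.pi * k.1.1 ^ 2 / A) * cexp (-Real.pi * k.1.2 ^ 2 / A) *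
      (cexp (-Real.pi * k.2.1 ^ 2 / A) * cexp (-Real.pi * k.2.2 ^ 2 / A)) := by
    rw [← Complex.exp_add, ← Complex.exp_add, ← Complex.exp_add]
    congr 1
    unfold nq
    push_cast
    ring
  rw [e3, e4]
  ring

end Pool.Agent.W65.FS
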