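import Pool.Agent.W65.FS.Row

/-!
# The difference of two residue classes
-/

set_option autoImplicit false
open Finset Complex MeasureTheory intervalIntegral

namespace Pool.Agent.W65.FS

/-- the bound for a row -/
noncomputable def rowB (n D N c : ℕ) (B : ℝ) : ℝ :=
  (n : ℝ) / (2 * ((c : ℝ) * D) ^ 2) * (8 * (D : ℝ) ^ 2) ^ 4 * B * (1 / ((c : ℝ) * (N + 1)))

/-- the row bound hypothesis -/
def RowHyp (n D N c : ℕ) [NeZero c] (u : Fin 4 → ℤ) (B : ℝ) : Prop :=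
  ∀ V : ℕ, V ≤ N → ∀ k : Q,
      ‖∑ v ∈ (Finset.Ioc (N - c) V).filter (Nat.Coprime c ·), Tk c D n (aa c v : ZMod c) u k‖ ≤ B

lemma aa_coprime (c v : ℕ) (h : Nat.Coprime c v) : IsCoprime (aa c v) (c : ℤ) := by
  obtain ⟨b, hb⟩ := aa_spec c v h
  exact ⟨-v, b, by linarith⟩

lemma integral_conj_interval (f : ℝ → ℂ) (b : ℝ) (hb : 0 ≤ b) :
    ∫ β in (0:ℝ)..b, (starRingEnd ℂ) (f β) = (starRingEnd ℂ) (∫ β in (0:ℝ)..b, f β) := by
  rw [intervalIntegral.integral_of_le hb, intervalIntegral.integral_of_le hb]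
  exact integral_conj

lemma row_diff (n D N : ℕ) (hn : 1 ≤ n) (hD : 0 < D) (hN : n < (N + 1) ^ 2) (hN2 : N ^ 2 ≤ n)
    (u u' : Fin 4 → ℤ) (c : ℕ) [NeZero c] (hcN : c ≤ N) (B : ℝ)
    (hT : ∀ a : ℤ, IsCoprime a (c : ℤ) → Tk c D n (a : ZMod c) u 0 = Tk c D n (a : ZMod c) u' 0)
    (hB : RowHyp n D N c u B) (hB' : RowHyp n D N c u' B) :
    ‖(∑ v ∈ (Finset.Ioc (N - c) N).filter (Nat.Coprime c ·),
        ((∫ β in (0:ℝ)..(1 / ((c : ℝ) * (c + v))), PP (1 / (n : ℝ)) D u n ((aa c v : ℝ) / c + β)) +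
          ∫ β in (0:ℝ)..(1 / ((c : ℝ) * (c + v))), PP (1 / (n : ℝ)) D u n (-((aa c v : ℝ) / c + β)))) -
      (∑ v ∈ (Finset.Ioc (N - c) N).filter (Nat.Coprime c ·),
        ((∫ β in (0:ℝ)..(1 / ((c : ℝ) * (c + v))), PP (1 / (n : ℝ)) D u' n ((aa c v : ℝ) / c + β)) +
          ∫ β in (0:ℝ)..(1 / ((c : ℝ) * (c + v))), PP (1 / (n : ℝ)) D u' n (-((aa c v : ℝ) / c + β))))‖ ≤
      4 * rowB n D N c B := by
  have hc : 0 < c := Nat.pos_of_ne_zero (NeZero.ne c)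
  have hn0 : (0 : ℝ) < n := by exact_mod_cast hn
  have hy : 0 < 1 / (n : ℝ) := by positivity
  set S := (Finset.Ioc (N - c) N).filter (Nat.Coprime c ·) with hS
  have h1 := row_bound n D N hn hD hN hN2 u c hcN B hB
  have h2 := row_bound n D N hn hD hN hN2 u' c hcN B hB'
  rw [← hS] at h1 h2
  set Z : ℂ := ∑ v ∈ S, ∫ β in (0:ℝ)..(1 / ((c : ℝ) * (c + v))), HH (1 / (n : ℝ)) D u n c (aa c v) β with hZ
  set Z' : ℂ := ∑ v ∈ S, ∫ β in (0:ℝ)..(1 / ((c : ℝ) * (c + v))), HH (1 / (n : ℝ)) D u' n c (aa c v) β with hZ'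
  have hconj : ∀ (w : Fin 4 → ℤ) (v : ℕ), ∫ β in (0:ℝ)..(1 / ((c : ℝ) * (c + v))), PP (1 / (n : ℝ)) D w n (-((aa c v : ℝ) / c + β)) =
      (starRingEnd ℂ) (∫ β in (0:ℝ)..(1 / ((c : ℝ) * (c + v))), PP (1 / (n : ℝ)) D w n ((aa c v : ℝ) / c + β)) := by
    intro w v
    rw [← integral_conj_interval _ _ (by positivity)]
    apply intervalIntegral.integral_congr
    intro β _
    exact PP_neg _ hy D hD w n _
  have hd : ∀ v ∈ S, (∫ β in (0:ℝ)..(1 / ((c : ℝ) * (c + v))), PP (1 / (n : ℝ)) D u n ((aa c v : ℝ) / c + β)) -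
      (∫ β in (0:ℝ)..(1 / ((c : ℝ) * (c + v))), PP (1 / (n : ℝ)) D u' n ((aa c v : ℝ) / c + β)) =
      (∫ β in (0:ℝ)..(1 / ((c : ℝ) * (c + v))), HH (1 / (n : ℝ)) D u n c (aa c v) β) -
      (∫ β in (0:ℝ)..(1 / ((c : ℝ) * (c + v))), HH (1 / (n : ℝ)) D u' n c (aa c v) β) := by
    intro v hv
    have hcop : Nat.Coprime c v := (Finset.mem_filter.1 hv).2
    have hTv := hT (aa c v) (aa_coprime c v hcop)
    have c1 : Continuous (fun β : ℝ => PP (1 / (n : ℝ)) D u n ((aa c v : ℝ) / c + β)) :=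
      (PP_continuous _ hy D hD u n).comp (show Continuous (fun β : ℝ => (aa c v : ℝ) / c + β) by fun_prop)
    have c2 : Continuous (fun β : ℝ => PP (1 / (n : ℝ)) D u' n ((aa c v : ℝ) / c + β)) :=
      (PP_continuous _ hy D hD u' n).comp (show Continuous (fun β : ℝ => (aa c v : ℝ) / c + β) by fun_prop)
    have c3 := HH_continuous _ hy D hD u n c (aa c v)
    have c4 := HH_continuous _ hy D hD u' n c (aa c v)
    rw [← intervalIntegral.integral_sub (c1.intervalIntegrable _ _) (c2.intervalIntegrable _ _),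
      ← intervalIntegral.integral_sub (c3.intervalIntegrable _ _) (c4.intervalIntegrable _ _)]
    apply intervalIntegral.integral_congr
    intro β _
    beta_reduce
    rw [PP_split _ hy D hD u n c, PP_split _ hy D hD u' n c, hTv]
    ring
  have hsum : (∑ v ∈ S,
        ((∫ β in (0:ℝ)..(1 / ((c : ℝ) * (c + v))), PP (1 / (n : ℝ)) D u n ((aa c v : ℝ) / c + β)) +
          ∫ β in (0:ℝ)..(1 / ((c : ℝ) * (c + v))), PP (1 / (n : ℝ)) D u n (-((aa c v : ℝ) / c + β)))) -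
      (∑ v ∈ S,
        ((∫ β in (0:ℝ)..(1 / ((c : ℝ) * (c + v))), PP (1 / (n : ℝ)) D u' n ((aa c v : ℝ) / c + β)) +
          ∫ β in (0:ℝ)..(1 / ((c : ℝ) * (c + v))), PP (1 / (n : ℝ)) D u' n (-((aa c v : ℝ) / c + β)))) =
      (Z - Z') + (starRingEnd ℂ) (Z - Z') := by
    rw [hZ, hZ', ← Finset.sum_sub_distrib, ← Finset.sum_sub_distrib, map_sum, ← Finset.sum_add_distrib]
    apply Finset.sum_congr rfl
    intro v hv
    rw [hconj, hconj, ← hd v hv, map_sub]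
    ring
  rw [hsum]
  have h3 : ‖(starRingEnd ℂ) (Z - Z')‖ = ‖Z - Z'‖ := Complex.norm_conj _
  have h4 : ‖Z - Z'‖ ≤ ‖Z‖ + ‖Z'‖ := norm_sub_le _ _
  calc ‖(Z - Z') + (starRingEnd ℂ) (Z - Z')‖ ≤ ‖Z - Z'‖ + ‖(starRingEnd ℂ) (Z - Z')‖ := norm_add_le _ _
    _ ≤ 4 * rowB n D N c B := by
      rw [h3]
      unfold rowB
      linarith

/-- two classes with the same local factors have nearly the same number of representations -/
theorem class_diff (n D N : ℕ) (hn : 1 ≤ n) (hD : 0 < D) (hN : n < (N + 1) ^ 2) (hN2 : N ^ 2 ≤ n)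
    (u u' : Fin 4 → ℤ) (B : ℕ → ℝ)
    (hT : ∀ (c : ℕ) [NeZero c], c ≤ N → ∀ a : ℤ, IsCoprime a (c : ℤ) → Tk c D n (a : ZMod c) u 0 = Tk c D n (a : ZMod c) u' 0)
    (hB : ∀ (c : ℕ) [NeZero c], c ≤ N → RowHyp n D N c u (B c))
    (hB' : ∀ (c : ℕ) [NeZero c], c ≤ N → RowHyp n D N c u' (B c)) :
    |((repsc n D u).card : ℝ) - (repsc n D u').card| ≤
      Real.exp (2 * Real.pi) * ∑ c ∈ Finset.Icc 1 N, 4 * rowB n D N c (B c) := by
  have hn0 : (0 : ℝ) < n := by exact_mod_cast hn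
  have hy : 0 < 1 / (n : ℝ) := by positivity
  have hN1 : 1 ≤ N := by
    by_contra h
    have : N = 0 := by omega
    subst this
    omega
  have e1 := coeff (1 / (n : ℝ)) hy D hD u n
  have e2 := coeff (1 / (n : ℝ)) hy D hD u' n
  have hexp : Real.exp (-2 * Real.pi * (1 / (n : ℝ)) * n) = Real.exp (-(2 * Real.pi)) := by
    congr 1
    field_simp
  rw [hexp] at e1 e2
  rw [farey _ (PP_continuous _ hy D hD u n) (PP_periodic _ hy D hD u n) N hN1] at e1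
  rw [farey _ (PP_continuous _ hy D hD u' n) (PP_periodic _ hy D hD u' n) N hN1] at e2
  have e3 : (((repsc n D u).card : ℂ) - (repsc n D u').card) * (Real.exp (-(2 * Real.pi)) : ℂ) =
      (∑ c ∈ Finset.Icc 1 N, (∑ v ∈ (Finset.Ioc (N - c) N).filter (Nat.Coprime c ·),
        ((∫ β in (0:ℝ)..(1 / ((c : ℝ) * (c + v))), PP (1 / (n : ℝ)) D u n ((aa c v : ℝ) / c + β)) +
          ∫ β in (0:ℝ)..(1 / ((c : ℝ) * (c + v))), PP (1 / (n : ℝ)) D u n (-((aa c v : ℝ) / c + β)))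
       ) - ∑ c ∈ Finset.Icc 1 N, (∑ v ∈ (Finset.Ioc (N - c) N).filter (Nat.Coprime c ·),
        ((∫ β in (0:ℝ)..(1 / ((c : ℝ) * (c + v))), PP (1 / (n : ℝ)) D u' n ((aa c v : ℝ) / c + β)) +
          ∫ β in (0:ℝ)..(1 / ((c : ℝ) * (c + v))), PP (1 / (n : ℝ)) D u' n (-((aa c v : ℝ) / c + β))))) := by
    rw [sub_mul, ← e1, ← e2]
  rw [← Finset.sum_sub_distrib] at e3
  have e4 : |((repsc n D u).card : ℝ) - (repsc n D u').card| * Real.exp (-(2 * Real.pi)) ≤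
      ∑ c ∈ Finset.Icc 1 N, 4 * rowB n D N c (B c) := by
    have e5 : |((repsc n D u).card : ℝ) - (repsc n D u').card| * Real.exp (-(2 * Real.pi)) =
        ‖(((repsc n D u).card : ℂ) - (repsc n D u').card) * (Real.exp (-(2 * Real.pi)) : ℂ)‖ := by
      rw [norm_mul]
      congr 1
      · have : (((repsc n D u).card : ℂ) - (repsc n D u').card) =
          ((((repsc n D u).card : ℝ) - (repsc n D u').card : ℝ) : ℂ) := by push_cast; ring
        rw [this, Complex.norm_real, Real.norm_eq_abs]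
      · rw [Complex.norm_real, Real.norm_of_nonneg (Real.exp_pos _).le]
    rw [e5, e3]
    refine (norm_sum_le _ _).trans (Finset.sum_le_sum fun c hc => ?_)
    rw [Finset.mem_Icc] at hc
    have : NeZero c := ⟨by omega⟩
    exact row_diff n D N hn hD hN hN2 u u' c hc.2 (B c) (hT c hc.2) (hB c hc.2) (hB' c hc.2)
  have hE : 0 < Real.exp (2 * Real.pi) := Real.exp_pos _
  have e6 : |((repsc n D u).card : ℝ) - (repsc n D u').card| =
      Real.exp (2 * Real.pi) * (|((repsc n D u).card : ℝ) - (repsc n D u').card| * Real.exp (-(2 * Real.pi))) := by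
    rw [Real.exp_neg]
    field_simp
  rw [e6]
  gcongr

end Pool.Agent.W65.FS
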