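import Mathlib

/-!
# Farey dissection of the unit interval for periodic functions
-/

set_option autoImplicit false
open Finset MeasureTheory intervalIntegral

namespace Pool.Agent.W65.FS

/-- a solution `a` of `a v ≡ -1 (mod c)` -/
noncomputable def aa (c v : ℕ) : ℤ := -(Int.gcdB c v)

lemma aa_spec (c v : ℕ) (h : Nat.Coprime c v) : ∃ b : ℤ, b * c - aa c v * v = 1 := by
  refine ⟨Int.gcdA c v, ?_⟩
  have h1 := Int.gcd_eq_gcd_ab (c : ℤ) (v : ℤ)
  have h2 : (Int.gcd (c:ℤ) (v:ℤ) : ℤ) = 1 := by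
    have : Int.gcd (c:ℤ) (v:ℤ) = 1 := by simpa [Int.gcd_natCast_natCast] using h
    exact_mod_cast this
  rw [h2] at h1
  unfold aa
  linarith [h1, mul_comm (c:ℤ) (Int.gcdA c v), mul_comm (v:ℤ) (Int.gcdB c v)]

/-- integral over the Farey interval from `a/c` of length `1/(cv)` -/
noncomputable def KK (Φ : ℝ → ℂ) (c v : ℕ) : ℂ :=
  ∫ α in ((aa c v : ℝ) / c)..((aa c v : ℝ) / c + 1 / (c * v)), Φ α

lemma shift_int (Φ : ℝ → ℂ) (hper : ∀ x, Φ (x + 1) = Φ x) (t : ℤ) (x : ℝ) : Φ (x + t) = Φ x := by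
  have h : Function.Periodic Φ 1 := hper
  simpa using h.int_mul t x

lemma KK_eq (Φ : ℝ → ℂ) (hper : ∀ x, Φ (x + 1) = Φ x) (c v : ℕ) (hc : 0 < c) (_hv : 0 < v)
    (h : Nat.Coprime c v) (a : ℤ) (ha : (c : ℤ) ∣ a * v + 1) :
    KK Φ c v = ∫ α in ((a : ℝ) / c)..((a : ℝ) / c + 1 / (c * v)), Φ α := by
  obtain ⟨b, hb⟩ := aa_spec c v h
  obtain ⟨b', hb'⟩ := ha
  have h1 : (c : ℤ) ∣ (a - aa c v) * v := ⟨b' - b, by linarith⟩
  have h2 : (c : ℤ) ∣ a - aa c v := by
    have hcop : IsCoprime (c : ℤ) (v : ℤ) := by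
      rw [Int.isCoprime_iff_gcd_eq_one]
      simpa [Int.gcd_natCast_natCast] using h
    exact hcop.dvd_of_dvd_mul_right h1
  obtain ⟨t, ht⟩ := h2
  have hcr : (c : ℝ) ≠ 0 := by exact_mod_cast hc.ne'
  have e : (a : ℝ) / c = (aa c v : ℝ) / c + t := by
    have : (a : ℝ) - aa c v = c * t := by exact_mod_cast ht
    field_simp
    linarith
  unfold KK
  rw [e]
  have := intervalIntegral.integral_comp_add_right (a := (aa c v : ℝ) / c)
    (b := (aa c v : ℝ) / c + 1 / (c * v)) Φ (t : ℝ)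
  rw [show (aa c v : ℝ) / c + t + 1 / (c * v) = (aa c v : ℝ) / c + 1 / (c * v) + t by ring, ← this]
  apply intervalIntegral.integral_congr
  intro x _
  exact (shift_int Φ hper t x).symm

/-- splitting at the mediant -/
lemma KK_split (Φ : ℝ → ℂ) (hΦ : Continuous Φ) (hper : ∀ x, Φ (x + 1) = Φ x) (c v : ℕ)
    (hc : 0 < c) (hv : 0 < v) (h : Nat.Coprime c v) :
    KK Φ c v = KK Φ c (c + v) + KK Φ (c + v) v := by
  obtain ⟨b, hb⟩ := aa_spec c v h
  set a := aa c v with ha
  have hcr : (0 : ℝ) < c := by exact_mod_cast hc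
  have hvr : (0 : ℝ) < v := by exact_mod_cast hv
  have e1 : KK Φ c (c + v) = ∫ α in ((a : ℝ) / c)..((a : ℝ) / c + 1 / (c * ((c + v : ℕ) : ℝ))), Φ α := by
    apply KK_eq Φ hper c (c + v) hc (by omega)
    · simpa [Nat.coprime_add_self_right] using h
    · refine ⟨a + b, ?_⟩
      push_cast
      linarith
  have e2 : KK Φ (c + v) v = ∫ α in (((a + b : ℤ) : ℝ) / ((c + v : ℕ) : ℝ))..(((a + b : ℤ) : ℝ) / ((c + v : ℕ) : ℝ) + 1 / (((c + v : ℕ) : ℝ) * v)), Φ α := by
    apply KK_eq Φ hper (c + v) v (by omega) hv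
    · simpa [Nat.coprime_add_self_left] using h
    · refine ⟨b, ?_⟩
      push_cast
      linarith
  have hbr : (b : ℝ) * c - a * v = 1 := by exact_mod_cast hb
  have m1 : (a : ℝ) / c + 1 / (c * ((c + v : ℕ) : ℝ)) = ((a + b : ℤ) : ℝ) / ((c + v : ℕ) : ℝ) := by
    push_cast
    field_simp
    linarith
  have m2 : ((a + b : ℤ) : ℝ) / ((c + v : ℕ) : ℝ) + 1 / (((c + v : ℕ) : ℝ) * v) = (a : ℝ) / c + 1 / (c * v) := by
    push_cast
    field_simp
    linear_combination (v : ℝ) * hbr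
  rw [e1, e2, m1, m2, intervalIntegral.integral_add_adjacent_intervals
    (hΦ.intervalIntegrable _ _) (hΦ.intervalIntegrable _ _)]
  rfl

/-- the two halves of a Farey interval -/
lemma KK_halves (Φ : ℝ → ℂ) (hΦ : Continuous Φ) (hper : ∀ x, Φ (x + 1) = Φ x) (c v : ℕ)
    (hc : 0 < c) (hv : 0 < v) (h : Nat.Coprime c v) :
    KK Φ c v = (∫ β in (0:ℝ)..(1 / (c * (c + v))), Φ ((aa c v : ℝ) / c + β)) +
      ∫ β in (0:ℝ)..(1 / (v * (v + c))), Φ (-((aa v c : ℝ) / v + β)) := by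
  obtain ⟨b, hb⟩ := aa_spec c v h
  obtain ⟨b', hb'⟩ := aa_spec v c h.symm
  set a := aa c v with ha
  set a' := aa v c with ha'
  have hcr : (0 : ℝ) < c := by exact_mod_cast hc
  have hvr : (0 : ℝ) < v := by exact_mod_cast hv
  have hbr : (b : ℝ) * c - a * v = 1 := by exact_mod_cast hb
  have hcop : IsCoprime (v : ℤ) (c : ℤ) := by
    rw [Int.isCoprime_iff_gcd_eq_one]
    simpa [Int.gcd_natCast_natCast] using h.symm
  have h2 : (v : ℤ) ∣ a' + b := by
    apply hcop.dvd_of_dvd_mul_right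
    refine ⟨b' + a, ?_⟩
    linarith
  obtain ⟨t, ht⟩ := h2
  have htr : (a' : ℝ) + b = v * t := by exact_mod_cast ht
  unfold KK
  have hsplit := intervalIntegral.integral_add_adjacent_intervals
    (hΦ.intervalIntegrable ((a : ℝ) / c) ((a : ℝ) / c + 1 / (c * (c + v))))
    (hΦ.intervalIntegrable ((a : ℝ) / c + 1 / (c * (c + v))) ((a : ℝ) / c + 1 / (c * v)))
    (μ := volume)
  rw [← ha, ← hsplit]
  congr 1
  · have := intervalIntegral.integral_comp_add_left (a := 0) (b := 1 / ((c:ℝ) * (c + v))) Φ ((a : ℝ) / c)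
    rw [add_zero] at this
    exact this.symm
  · have e1 : ∀ β : ℝ, Φ (-((a' : ℝ) / v + β)) = Φ ((b : ℝ) / v - β) := by
      intro β
      have : (b : ℝ) / v - β = -((a' : ℝ) / v + β) + t := by
        field_simp
        linarith
      rw [this, shift_int Φ hper]
    simp_rw [e1]
    have := intervalIntegral.integral_comp_sub_left (a := 0) (b := 1 / ((v:ℝ) * (v + c))) Φ ((b : ℝ) / v)
    rw [this, sub_zero]
    congr 1
    · field_simp
      linear_combination (-((c : ℝ) + v) ^ 2) * hbr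
    · field_simp
      linarith

/-- the Farey sum of order `N` -/
noncomputable def SN (Φ : ℝ → ℂ) (N : ℕ) : ℂ :=
  ∑ c ∈ Icc 1 N, ∑ v ∈ (Ioc (N - c) N).filter (fun v => Nat.Coprime c v), KK Φ c v

lemma SN_one (Φ : ℝ → ℂ) (hper : ∀ x, Φ (x + 1) = Φ x) : SN Φ 1 = ∫ α in (0:ℝ)..1, Φ α := by
  unfold SN
  have h1 : Icc 1 1 = ({1} : Finset ℕ) := by decide
  have h2 : (Ioc (1 - 1) 1).filter (fun v => Nat.Coprime 1 v) = ({1} : Finset ℕ) := by decide
  rw [h1, sum_singleton, h2, sum_singleton]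
  rw [KK_eq Φ hper 1 1 one_pos one_pos (by norm_num) 0 (by norm_num)]
  norm_num

lemma SN_succ (Φ : ℝ → ℂ) (hΦ : Continuous Φ) (hper : ∀ x, Φ (x + 1) = Φ x) (N : ℕ) (hN : 1 ≤ N) :
    SN Φ (N + 1) = SN Φ N := by
  unfold SN
  rw [← Finset.insert_Icc_right_eq_Icc_add_one (by omega),
    Finset.sum_insert (by rw [mem_Icc]; omega)]
  -- the new row
  have hrow : ∑ v ∈ (Ioc (N + 1 - (N + 1)) (N + 1)).filter (fun v => Nat.Coprime (N + 1) v), KK Φ (N + 1) v
      = ∑ c ∈ (Icc 1 N).filter (fun c => Nat.Coprime c (N + 1)), KK Φ (N + 1) (N + 1 - c) := by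
    symm
    refine Finset.sum_bij (fun c _ => N + 1 - c) ?_ ?_ ?_ ?_
    · intro c hc
      rw [mem_filter, mem_Icc] at hc
      rw [mem_filter, mem_Ioc]
      refine ⟨by omega, ?_⟩
      have h3 : Nat.Coprime (N + 1) c := hc.2.symm
      have h4 : N + 1 = (N + 1 - c) + c := by omega
      rw [h4] at h3 ⊢
      rw [Nat.add_sub_cancel]
      rw [Nat.coprime_add_self_left] at h3
      rw [Nat.coprime_self_add_left]
      exact h3.symm
    · intro a ha b hb hab
      rw [mem_filter, mem_Icc] at ha hb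
      omega
    · intro v hv
      rw [mem_filter, mem_Ioc] at hv
      have hvN : v ≠ N + 1 := by
        rintro rfl
        have := hv.2
        rw [Nat.coprime_self] at this
        omega
      refine ⟨N + 1 - v, ?_, by omega⟩
      rw [mem_filter, mem_Icc]
      refine ⟨by omega, ?_⟩
      have h3 : Nat.Coprime (N + 1) v := hv.2
      have h4 : N + 1 = (N + 1 - v) + v := by omega
      rw [h4] at h3 ⊢
      rw [Nat.add_sub_cancel]
      rw [Nat.coprime_add_self_left] at h3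
      rw [Nat.coprime_self_add_right]
      exact h3
    · intro c _
      rfl
  rw [hrow, Finset.sum_filter, ← Finset.sum_add_distrib]
  apply Finset.sum_congr rfl
  intro c hc
  rw [mem_Icc] at hc
  -- rows of S_N and S_{N+1}
  have hA : (Ioc (N + 1 - c) (N + 1)).filter (fun v => Nat.Coprime c v) =
      (Ioc (N + 1 - c) N).filter (fun v => Nat.Coprime c v) ∪
        ({N + 1} : Finset ℕ).filter (fun v => Nat.Coprime c v) := by
    rw [← Finset.filter_union]
    congr 1
    ext v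
    simp only [mem_Ioc, mem_union, mem_singleton]
    omega
  have hB : (Ioc (N - c) N).filter (fun v => Nat.Coprime c v) =
      (Ioc (N + 1 - c) N).filter (fun v => Nat.Coprime c v) ∪
        ({N + 1 - c} : Finset ℕ).filter (fun v => Nat.Coprime c v) := by
    rw [← Finset.filter_union]
    congr 1
    ext v
    simp only [mem_Ioc, mem_union, mem_singleton]
    omega
  have hdA : Disjoint ((Ioc (N + 1 - c) N).filter (fun v => Nat.Coprime c v))
      (({N + 1} : Finset ℕ).filter (fun v => Nat.Coprime c v)) := by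
    rw [Finset.disjoint_left]
    intro v h1 h2
    rw [mem_filter, mem_Ioc] at h1
    rw [mem_filter, mem_singleton] at h2
    omega
  have hdB : Disjoint ((Ioc (N + 1 - c) N).filter (fun v => Nat.Coprime c v))
      (({N + 1 - c} : Finset ℕ).filter (fun v => Nat.Coprime c v)) := by
    rw [Finset.disjoint_left]
    intro v h1 h2
    rw [mem_filter, mem_Ioc] at h1
    rw [mem_filter, mem_singleton] at h2
    omega
  rw [hA, hB, Finset.sum_union hdA, Finset.sum_union hdB, Finset.filter_singleton, Finset.filter_singleton]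
  have hcop : Nat.Coprime c (N + 1 - c) ↔ Nat.Coprime c (N + 1) := by
    have h4 : N + 1 = c + (N + 1 - c) := by omega
    conv_rhs => rw [h4]
    rw [Nat.coprime_self_add_right]
  by_cases h : Nat.Coprime c (N + 1)
  · rw [if_pos h, if_pos h, if_pos (hcop.2 h), Finset.sum_singleton, Finset.sum_singleton]
    have := KK_split Φ hΦ hper c (N + 1 - c) (by omega) (by omega) (hcop.2 h)
    rw [show c + (N + 1 - c) = N + 1 by omega] at this
    rw [this]
    ring
  · rw [if_neg h, if_neg h, if_neg (fun h' => h (hcop.1 h')), Finset.sum_empty]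
    ring

/-- **Farey dissection** -/
theorem farey (Φ : ℝ → ℂ) (hΦ : Continuous Φ) (hper : ∀ x, Φ (x + 1) = Φ x) (N : ℕ) (hN : 1 ≤ N) :
    ∫ α in (0:ℝ)..1, Φ α =
      ∑ c ∈ Icc 1 N, ∑ v ∈ (Ioc (N - c) N).filter (fun v => Nat.Coprime c v),
        ((∫ β in (0:ℝ)..(1 / (c * (c + v))), Φ ((aa c v : ℝ) / c + β)) +
          ∫ β in (0:ℝ)..(1 / (c * (c + v))), Φ (-((aa c v : ℝ) / c + β))) := by
  have h1 : SN Φ N = ∫ α in (0:ℝ)..1, Φ α := by
    induction N, hN using Nat.le_induction with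
    | base => exact SN_one Φ hper
    | succ N hN ih => rw [SN_succ Φ hΦ hper N hN, ih]
  rw [← h1]
  unfold SN
  have h2 : ∀ c ∈ Icc 1 N, ∑ v ∈ (Ioc (N - c) N).filter (fun v => Nat.Coprime c v), KK Φ c v =
      ∑ v ∈ (Ioc (N - c) N).filter (fun v => Nat.Coprime c v),
        ((∫ β in (0:ℝ)..(1 / (c * (c + v))), Φ ((aa c v : ℝ) / c + β)) +
      ∫ β in (0:ℝ)..(1 / (v * (v + c))), Φ (-((aa v c : ℝ) / v + β))) := by
    intro c hc
    rw [mem_Icc] at hc
    apply Finset.sum_congr rfl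
    intro v hv
    rw [mem_filter, mem_Ioc] at hv
    exact KK_halves Φ hΦ hper c v (by omega) (by omega) hv.2
  rw [Finset.sum_congr rfl h2]
  simp_rw [Finset.sum_add_distrib]
  congr 1
  rw [Finset.sum_comm' (s' := fun v => (Ioc (N - v) N).filter (fun c => Nat.Coprime v c)) (t' := Icc 1 N)]
  intro c v
  simp only [mem_Icc, mem_filter, mem_Ioc]
  constructor
  · rintro ⟨h1, h2, h3⟩
    exact ⟨⟨by omega, h3.symm⟩, by omega⟩
  · rintro ⟨⟨h1, h2⟩, h3⟩
    exact ⟨by omega, by omega, h2.symm⟩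

end Pool.Agent.W65.FS
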