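import Pool.Agent.W65.FS.Theta
import Pool.Agent.W65.FS.Farey

/-!
# Coefficient extraction
-/

set_option autoImplicit false
open Finset Complex MeasureTheory intervalIntegral

namespace Pool.Agent.W65.FS

/-- representations of `n` as a sum of four squares -/
noncomputable def reps (n : ℕ) : Finset (Fin 4 → ℤ) :=
  (Fintype.piFinset fun _ => Finset.Icc (-(n : ℤ)) n).filter (fun X => ∑ i, X i ^ 2 = n)

lemma mem_reps (n : ℕ) (X : Fin 4 → ℤ) : X ∈ reps n ↔ ∑ i, X i ^ 2 = n := by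
  unfold reps
  rw [Finset.mem_filter, Fintype.mem_piFinset]
  refine ⟨fun h => h.2, fun h => ⟨fun i => ?_, h⟩⟩
  have h1 : X i ^ 2 ≤ n := by
    rw [← h]
    exact Finset.single_le_sum (f := fun i => X i ^ 2) (fun j _ => sq_nonneg _) (Finset.mem_univ i)
  rw [Finset.mem_Icc]
  constructor
  · by_contra hlt
    push Not at hlt
    nlinarith
  · by_contra hlt
    push Not at hlt
    nlinarith

/-- representations in a residue class -/
noncomputable def repsc (n D : ℕ) (u : Fin 4 → ℤ) : Finset (Fin 4 → ℤ) :=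
  (reps n).filter (fun X => ∀ i, (D : ℤ) ∣ X i - u i)

/-- index type -/
abbrev Q := (ℤ × ℤ) × (ℤ × ℤ)

/-- product of the four theta series -/
noncomputable def FF (y : ℝ) (D : ℕ) (u : Fin 4 → ℤ) (α : ℝ) : ℂ :=
  theta y D (u 0) α * theta y D (u 1) α * (theta y D (u 2) α * theta y D (u 3) α)

/-- the norm of the point with index `t` -/
def nrm (D : ℕ) (u : Fin 4 → ℤ) (t : Q) : ℤ :=
  (u 0 + D * t.1.1) ^ 2 + (u 1 + D * t.1.2) ^ 2 + ((u 2 + D * t.2.1) ^ 2 + (u 3 + D * t.2.2) ^ 2)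

/-- the term of the product -/
noncomputable def trm (y : ℝ) (D : ℕ) (u : Fin 4 → ℤ) (α : ℝ) (t : Q) : ℂ :=
  tht y D (u 0) α t.1.1 * tht y D (u 1) α t.1.2 * (tht y D (u 2) α t.2.1 * tht y D (u 3) α t.2.2)

lemma trm_eq (y : ℝ) (D : ℕ) (u : Fin 4 → ℤ) (α : ℝ) (t : Q) :
    trm y D u α t = cexp (2 * Real.pi * I * (nrm D u t : ℤ) * ((α : ℂ) + y * I)) := by
  unfold trm tht nrm
  rw [← Complex.exp_add, ← Complex.exp_add, ← Complex.exp_add]
  congr 1
  push_cast
  ring

lemma nrm_nonneg (D : ℕ) (u : Fin 4 → ℤ) (t : Q) : 0 ≤ nrm D u t := by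
  unfold nrm; positivity

lemma norm_trm (y : ℝ) (D : ℕ) (u : Fin 4 → ℤ) (α : ℝ) (t : Q) :
    ‖trm y D u α t‖ = Real.exp (-2 * Real.pi * y * (nrm D u t : ℝ)) := by
  unfold trm nrm
  rw [norm_mul, norm_mul, norm_mul, norm_tht, norm_tht, norm_tht, norm_tht, ← Real.exp_add, ← Real.exp_add, ← Real.exp_add]
  congr 1
  push_cast
  ring

lemma summable_trm (y : ℝ) (hy : 0 < y) (D : ℕ) (hD : 0 < D) (u : Fin 4 → ℤ) :
    Summable (fun t : Q => Real.exp (-2 * Real.pi * y * (nrm D u t : ℝ))) := by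
  have h01 := (summable_norm_tht y hy D hD (u 0) 0).mul_norm (summable_norm_tht y hy D hD (u 1) 0)
  have h23 := (summable_norm_tht y hy D hD (u 2) 0).mul_norm (summable_norm_tht y hy D hD (u 3) 0)
  have h := h01.mul_norm h23
  refine h.congr fun t => ?_
  rw [← norm_trm y D u 0 t]
  rfl

lemma FF_eq (y : ℝ) (hy : 0 < y) (D : ℕ) (hD : 0 < D) (u : Fin 4 → ℤ) (α : ℝ) :
    FF y D u α = ∑' t : Q, trm y D u α t := by
  unfold FF theta
  have h0 := summable_norm_tht y hy D hD (u 0) α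
  have h1 := summable_norm_tht y hy D hD (u 1) α
  have h2 := summable_norm_tht y hy D hD (u 2) α
  have h3 := summable_norm_tht y hy D hD (u 3) α
  rw [tsum_mul_tsum_of_summable_norm h0 h1, tsum_mul_tsum_of_summable_norm h2 h3,
    tsum_mul_tsum_of_summable_norm (h0.mul_norm h1) (h2.mul_norm h3)]
  rfl

lemma trm_continuous (y : ℝ) (D : ℕ) (u : Fin 4 → ℤ) (t : Q) : Continuous (fun α => trm y D u α t) := by
  unfold trm tht
  fun_prop

lemma FF_continuous (y : ℝ) (hy : 0 < y) (D : ℕ) (hD : 0 < D) (u : Fin 4 → ℤ) : Continuous (FF y D u) := by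
  have : FF y D u = fun α => ∑' t : Q, trm y D u α t := funext fun α => FF_eq y hy D hD u α
  rw [this]
  exact continuous_tsum (fun t => trm_continuous y D u t) (summable_trm y hy D hD u)
    (fun t α => (norm_trm y D u α t).le)

lemma FF_periodic (y : ℝ) (hy : 0 < y) (D : ℕ) (hD : 0 < D) (u : Fin 4 → ℤ) (α : ℝ) :
    FF y D u (α + 1) = FF y D u α := by
  rw [FF_eq y hy D hD, FF_eq y hy D hD]
  apply tsum_congr
  intro t
  rw [trm_eq, trm_eq]
  have : 2 * Real.pi * I * ((nrm D u t : ℤ) : ℂ) * (((α + 1 : ℝ) : ℂ) + y * I) =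
      2 * Real.pi * I * ((nrm D u t : ℤ) : ℂ) * ((α : ℂ) + y * I) + (nrm D u t : ℤ) * (2 * Real.pi * I) := by
    push_cast
    ring
  rw [this, Complex.exp_add, Complex.exp_int_mul_two_pi_mul_I, mul_one]

lemma FF_neg (y : ℝ) (hy : 0 < y) (D : ℕ) (hD : 0 < D) (u : Fin 4 → ℤ) (α : ℝ) :
    FF y D u (-α) = (starRingEnd ℂ) (FF y D u α) := by
  rw [FF_eq y hy D hD, FF_eq y hy D hD, Complex.conj_tsum]
  apply tsum_congr
  intro t
  rw [trm_eq, trm_eq, ← Complex.exp_conj]
  congr 1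
  simp only [map_mul, map_add, Complex.conj_ofReal, Complex.conj_I]
  have h2 : (starRingEnd ℂ) (2 : ℂ) = 2 := Complex.conj_ofReal 2
  have h3 : (starRingEnd ℂ) ((nrm D u t : ℤ) : ℂ) = ((nrm D u t : ℤ) : ℂ) := by
    have := Complex.conj_ofReal ((nrm D u t : ℤ) : ℝ)
    push_cast at this
    exact this
  rw [h2, h3]
  push_cast
  ring

/-- the integrand of the circle method -/
noncomputable def PP (y : ℝ) (D : ℕ) (u : Fin 4 → ℤ) (n : ℕ) (α : ℝ) : ℂ :=
  FF y D u α * cexp (-(2 * Real.pi * I * n * α))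

lemma PP_continuous (y : ℝ) (hy : 0 < y) (D : ℕ) (hD : 0 < D) (u : Fin 4 → ℤ) (n : ℕ) :
    Continuous (PP y D u n) := by
  have := FF_continuous y hy D hD u
  unfold PP
  fun_prop

lemma PP_periodic (y : ℝ) (hy : 0 < y) (D : ℕ) (hD : 0 < D) (u : Fin 4 → ℤ) (n : ℕ) (α : ℝ) :
    PP y D u n (α + 1) = PP y D u n α := by
  unfold PP
  rw [FF_periodic y hy D hD]
  congr 1
  have : -(2 * Real.pi * I * n * ((α + 1 : ℝ) : ℂ)) =
      -(2 * Real.pi * I * n * (α : ℂ)) + ((-n : ℤ) : ℂ) * (2 * Real.pi * I) := by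
    push_cast
    ring
  rw [this, Complex.exp_add, Complex.exp_int_mul_two_pi_mul_I, mul_one]

lemma PP_neg (y : ℝ) (hy : 0 < y) (D : ℕ) (hD : 0 < D) (u : Fin 4 → ℤ) (n : ℕ) (α : ℝ) :
    PP y D u n (-α) = (starRingEnd ℂ) (PP y D u n α) := by
  unfold PP
  rw [map_mul, ← FF_neg y hy D hD, ← Complex.exp_conj]
  congr 2
  simp only [map_mul, map_neg, Complex.conj_ofReal, Complex.conj_I]
  have h2 : (starRingEnd ℂ) (2 : ℂ) = 2 := Complex.conj_ofReal 2
  have h3 : (starRingEnd ℂ) (n : ℂ) = (n : ℂ) := by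
    have := Complex.conj_ofReal (n : ℝ)
    push_cast at this
    exact this
  rw [h2, h3]
  push_cast
  ring

lemma int_exp (k : ℤ) : ∫ α in (0:ℝ)..1, cexp (2 * Real.pi * I * k * α) = if k = 0 then 1 else 0 := by
  by_cases hk : k = 0
  · simp [hk]
  · rw [if_neg hk]
    have hne : (2 * Real.pi * I * k : ℂ) ≠ 0 := by
      have hk' : (k : ℂ) ≠ 0 := by exact_mod_cast hk
      have hpi : (Real.pi : ℂ) ≠ 0 := by exact_mod_cast Real.pi_ne_zero
      simp [hk', hpi]
    rw [integral_exp_mul_complex hne]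
    have : (2 * Real.pi * I * k * ((1 : ℝ) : ℂ) : ℂ) = (k : ℤ) * (2 * Real.pi * I) := by
      push_cast; ring
    rw [this, Complex.exp_int_mul_two_pi_mul_I]
    simp

theorem coeff (y : ℝ) (hy : 0 < y) (D : ℕ) (hD : 0 < D) (u : Fin 4 → ℤ) (n : ℕ) :
    ∫ α in (0:ℝ)..1, PP y D u n α =
      ((repsc n D u).card : ℂ) * (Real.exp (-2 * Real.pi * y * n) : ℂ) := by
  classical
  have h1 : ∀ α : ℝ, PP y D u n α = ∑' t : Q, (trm y D u α t * cexp (-(2 * Real.pi * I * n * α))) := by
    intro α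
    unfold PP
    rw [FF_eq y hy D hD, tsum_mul_right]
  have hc : ∀ t : Q, Continuous (fun α : ℝ => trm y D u α t * cexp (-(2 * Real.pi * I * n * α))) := by
    intro t
    have := trm_continuous y D u t
    fun_prop
  let f : Q → C(ℝ, ℂ) := fun t => ⟨fun α => trm y D u α t * cexp (-(2 * Real.pi * I * n * α)), hc t⟩
  have hn : ∀ (t : Q) (α : ℝ), ‖trm y D u α t * cexp (-(2 * Real.pi * I * n * α))‖ =
      Real.exp (-2 * Real.pi * y * (nrm D u t : ℝ)) := by
    intro t α
    rw [norm_mul, norm_trm]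
    have : -(2 * Real.pi * I * n * α) = ((-(2 * Real.pi * n * α) : ℝ) : ℂ) * I := by push_cast; ring
    rw [this, Complex.norm_exp_ofReal_mul_I, mul_one]
  have hf : Summable fun t => ‖(f t).restrict (⟨Set.uIcc (0:ℝ) 1, isCompact_uIcc⟩ : TopologicalSpace.Compacts ℝ)‖ := by
    refine Summable.of_nonneg_of_le (fun t => norm_nonneg _) (fun t => ?_) (summable_trm y hy D hD u)
    rw [ContinuousMap.norm_le _ (Real.exp_nonneg _)]
    intro x
    exact (hn t x).le
  have h2 := intervalIntegral.hasSum_intervalIntegral_of_summable_norm (a := 0) (b := 1) hf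
  have h3 : ∫ α in (0:ℝ)..1, PP y D u n α = ∑' t : Q, ∫ α in (0:ℝ)..1, (f t) α := by
    rw [h2.tsum_eq]
    apply intervalIntegral.integral_congr
    intro α _
    exact h1 α
  have h4 : ∀ t : Q, ∫ α in (0:ℝ)..1, (f t) α =
      if nrm D u t = n then (Real.exp (-2 * Real.pi * y * n) : ℂ) else 0 := by
    intro t
    have h5 : ∀ α : ℝ, (f t) α = cexp (-2 * Real.pi * y * (nrm D u t : ℤ)) *
        cexp (2 * Real.pi * I * ((nrm D u t - n : ℤ) : ℂ) * α) := by
      intro α
      show trm y D u α t * cexp (-(2 * Real.pi * I * n * α)) = _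
      rw [trm_eq, ← Complex.exp_add, ← Complex.exp_add]
      congr 1
      push_cast
      ring_nf
      rw [I_sq]
      ring
    simp_rw [h5]
    rw [intervalIntegral.integral_const_mul, int_exp]
    by_cases h6 : nrm D u t = n
    · rw [if_pos h6, if_pos (by omega), h6]
      push_cast
      simp
    · rw [if_neg h6, if_neg (by omega), mul_zero]
  rw [h3]
  simp_rw [h4]
  -- now count
  set S : Finset Q := (repsc n D u).image (fun X => (((X 0 - u 0) / D, (X 1 - u 1) / D), ((X 2 - u 2) / D, (X 3 - u 3) / D))) with hS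
  have hD0 : (D : ℤ) ≠ 0 := by exact_mod_cast hD.ne'
  have hmemS : ∀ t : Q, t ∈ S ↔ nrm D u t = n := by
    intro t
    rw [hS, Finset.mem_image]
    constructor
    · rintro ⟨X, hX, rfl⟩
      unfold repsc at hX
      rw [Finset.mem_filter, mem_reps, Fin.sum_univ_four] at hX
      unfold nrm
      dsimp only
      rw [Int.mul_ediv_cancel' (hX.2 0), Int.mul_ediv_cancel' (hX.2 1), Int.mul_ediv_cancel' (hX.2 2),
        Int.mul_ediv_cancel' (hX.2 3)]
      rw [← hX.1]
      ring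
    · intro h
      refine ⟨![u 0 + D * t.1.1, u 1 + D * t.1.2, u 2 + D * t.2.1, u 3 + D * t.2.2], ?_, ?_⟩
      · unfold repsc
        rw [Finset.mem_filter, mem_reps, Fin.sum_univ_four]
        refine ⟨?_, ?_⟩
        · simp only [Matrix.cons_val_zero, Matrix.cons_val_one, Matrix.cons_val]
          rw [← h]
          unfold nrm
          ring
        · intro i
          fin_cases i <;> simp
      · simp only [Matrix.cons_val_zero, Matrix.cons_val_one, Matrix.cons_val, add_sub_cancel_left,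
          Int.mul_ediv_cancel_left _ hD0]
  have hcard : S.card = (repsc n D u).card := by
    rw [hS]
    apply Finset.card_image_of_injOn
    intro X hX Y hY hXY
    have hX' := (Finset.mem_filter.1 (Finset.mem_coe.1 hX)).2
    have hY' := (Finset.mem_filter.1 (Finset.mem_coe.1 hY)).2
    simp only [Prod.mk.injEq] at hXY
    obtain ⟨⟨e0, e1⟩, ⟨e2, e3⟩⟩ := hXY
    have key : ∀ i, (X i - u i) / D = (Y i - u i) / D → X i = Y i := by
      intro i hi
      have := Int.mul_ediv_cancel' (hX' i)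
      have := Int.mul_ediv_cancel' (hY' i)
      rw [hi] at *
      linarith
    funext i
    fin_cases i
    · exact key 0 e0
    · exact key 1 e1
    · exact key 2 e2
    · exact key 3 e3
  rw [tsum_eq_sum (s := S)]
  · rw [Finset.sum_congr rfl (fun t ht => if_pos ((hmemS t).1 ht))]
    rw [Finset.sum_const, hcard, nsmul_eq_mul]
  · intro t ht
    rw [if_neg]
    rwa [hmemS] at ht

end Pool.Agent.W65.FS
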