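import Pool.Agent.W65.FS.Sieve

/-!
# Almost prime pairs
-/

set_option autoImplicit false
open Finset

namespace Pool.Agent.W65.FS

lemma list_pow_le (y : ℝ) (hy : 0 ≤ y) : ∀ L : List ℕ, (∀ q ∈ L, y ≤ (q : ℝ)) → y ^ L.length ≤ (L.prod : ℝ)
  | [], _ => by simp
  | a :: L, h => by
    have h1 := list_pow_le y hy L (fun q hq => h q (List.mem_cons_of_mem a hq))
    have h2 := h a List.mem_cons_self
    rw [List.length_cons, List.prod_cons, pow_succ]
    push_cast
    calc y ^ L.length * y ≤ (L.prod : ℝ) * a := by gcongr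
      _ = _ := by push_cast; ring

lemma omega_bound (y : ℝ) (hy : 0 ≤ y) (m : ℕ) (hm : m ≠ 0) (h : ∀ q : ℕ, q.Prime → q ∣ m → y ≤ (q : ℝ)) :
    y ^ (ArithmeticFunction.cardFactors m) ≤ (m : ℝ) := by
  rw [ArithmeticFunction.cardFactors_apply]
  have h1 := list_pow_le y hy m.primeFactorsList
    (fun q hq => h q (Nat.prime_of_mem_primeFactorsList hq) (Nat.dvd_of_mem_primeFactorsList hq))
  have h2 : (m.primeFactorsList.prod : ℝ) = (m : ℝ) := by
    rw [Nat.prod_primeFactorsList hm]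
  push_cast at h1 h2
  rw [← h2]
  exact_mod_cast h1

lemma sq_parity (x : ℤ) : (2 : ℤ) ∣ x ^ 2 - x := by
  have : x ^ 2 - x = x * (x - 1) := by ring
  rw [this]
  rcases Int.even_or_odd x with h | h
  · exact (h.two_dvd).mul_right _
  · obtain ⟨k, hk⟩ := h
    exact Dvd.dvd.mul_left ⟨k, by rw [hk]; ring⟩ _

lemma pf_odd (n : ℕ) (hn : Odd n) (X : Fin 4 → ℤ) (hX : ∑ i, X i ^ 2 = n) : ¬ (2 : ℤ) ∣ pf X := by
  intro h
  have h1 : (2 : ℤ) ∣ (n : ℤ) := by
    rw [← hX, Fin.sum_univ_four]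
    unfold pf at h
    have : X 0 ^ 2 + X 1 ^ 2 + X 2 ^ 2 + X 3 ^ 2 =
      (X 0 ^ 2 + 3 * X 1 ^ 2 + 5 * X 2 ^ 2 + 7 * X 3 ^ 2) - 2 * (X 1 ^ 2 + 2 * X 2 ^ 2 + 3 * X 3 ^ 2) := by ring
    rw [this]
    exact dvd_sub h (dvd_mul_right _ _)
  have h2 : 2 ∣ n := by exact_mod_cast h1
  exact (Nat.not_even_iff_odd.2 hn) (even_iff_two_dvd.2 h2)

lemma pf_lower (n : ℕ) (X : Fin 4 → ℤ) (hX : ∑ i, X i ^ 2 = n) : (n : ℤ) ≤ pf X := by
  rw [← hX, Fin.sum_univ_four]
  unfold pf
  nlinarith [sq_nonneg (X 1), sq_nonneg (X 2), sq_nonneg (X 3)]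

lemma pf_upper (n : ℕ) (X : Fin 4 → ℤ) (hX : ∑ i, X i ^ 2 = n) : pf X ≤ 7 * n := by
  rw [← hX, Fin.sum_univ_four]
  unfold pf
  nlinarith [sq_nonneg (X 0), sq_nonneg (X 1), sq_nonneg (X 2), sq_nonneg (X 3)]

/-- at least one primitive representation -/
lemma preps_nonempty (n : ℕ) (hn : Odd n) : (preps n).Nonempty := by
  obtain ⟨c, hc, h⟩ := preps_lower 1 one_pos
  have h1 := h n hn
  have hn0 : (0 : ℝ) < n := by exact_mod_cast hn.pos
  have h2 : 0 < ((preps n).card : ℝ) := lt_of_lt_of_le (by positivity) h1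
  have h3 : 0 < (preps n).card := by exact_mod_cast h2
  exact Finset.card_pos.1 h3

lemma cube_contra (n : ℕ) (hn : (3 : ℝ) ≤ n) (h : (n : ℝ) ^ (3 : ℝ) ≤ 7 * n) : False := by
  have h8 : (n : ℝ) ^ (3 : ℝ) = (n : ℝ) ^ (3 : ℕ) := by
    rw [← Real.rpow_natCast]; norm_num
  rw [h8] at h
  have h9 : 9 * (n : ℝ) ≤ (n : ℝ) ^ 3 := by
    have h10 : (9 : ℝ) ≤ (n : ℝ) ^ 2 := by nlinarith
    calc 9 * (n : ℝ) ≤ (n : ℝ) ^ 2 * n := by gcongr
      _ = _ := by ring
  linarith

/-- uniform version over all odd `n` -/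
theorem uniform (ε : ℝ) (hε : 0 < ε) : ∃ K : ℕ, ∃ δ : ℝ, 0 < δ ∧ ∃ c : ℝ, 0 < c ∧ ∀ n : ℕ, Odd n →
    ∃ S : Finset (Fin 4 → ℤ), c * (n : ℝ) ^ (1 - ε) ≤ S.card ∧ ∀ X ∈ S, ∑ i, X i ^ 2 = n ∧
      (∀ q : ℕ, q.Prime → (q : ℤ) ∣ pf X * (pf X - 2) → (n : ℝ) ^ δ < q) ∧ 0 < pf X ∧ pf X - 2 ≠ 0 ∧
        ArithmeticFunction.cardFactors (pf X).natAbs ≤ K ∧ ArithmeticFunction.cardFactors (pf X - 2).natAbs ≤ K := by
  classical
  set ε' : ℝ := min ε (1 / 50) with hε'
  have hε'0 : 0 < ε' := lt_min hε (by norm_num)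
  obtain ⟨δ0, hδ0, n0, h⟩ := sieve_main ff 8 ff_congr (fun l hl hl2 n => Bl_card l hl hl2 n) local_ff ε' hε'0 (min_le_right _ _)
  set N : ℕ := n0 + 3 with hN
  have hNr : (3 : ℝ) ≤ N := by rw [hN]; push_cast; linarith [show (0:ℝ) ≤ n0 by positivity]
  have hlogN : 0 < Real.log N := Real.log_pos (by linarith)
  have hlog2 : 0 < Real.log 2 := Real.log_pos (by norm_num)
  set δ : ℝ := min δ0 (Real.log 2 / (2 * Real.log N)) with hδ
  have hδpos : 0 < δ := lt_min hδ0 (by positivity)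
  obtain ⟨K, hK⟩ := exists_nat_ge (3 / δ)
  set c : ℝ := 1 / ((N : ℝ) ^ (1 - ε') + 1) with hc
  have hcpos : 0 < c := by positivity
  -- the basic set
  have hbase : ∀ n : ℕ, Odd n → ∃ S : Finset (Fin 4 → ℤ), c * (n : ℝ) ^ (1 - ε) ≤ S.card ∧ ∀ X ∈ S, ∑ i, X i ^ 2 = n ∧
      (∀ q : ℕ, q.Prime → (q : ℤ) ∣ pf X * (pf X - 2) → (n : ℝ) ^ δ < q) := by
    intro n hno
    have hn1 : (1 : ℝ) ≤ n := by exact_mod_cast hno.pos
    have hn0 : (0 : ℝ) < n := by linarith
    have hle : (n : ℝ) ^ (1 - ε) ≤ (n : ℝ) ^ (1 - ε') := by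
      apply Real.rpow_le_rpow_of_exponent_le hn1
      have := min_le_left ε (1 / 50 : ℝ)
      linarith
    have h2dvd : ∀ X : Fin 4 → ℤ, ∑ i, X i ^ 2 = n → ¬ (2 : ℤ) ∣ pf X * (pf X - 2) := by
      intro X hX h2
      have h3 := pf_odd n hno X hX
      rcases (Int.prime_two).dvd_or_dvd h2 with h4 | h4
      · exact h3 h4
      · apply h3
        have := dvd_add h4 (dvd_refl (2 : ℤ))
        simpa using this
    by_cases hbig : N ≤ n
    · obtain ⟨S, hS1, hS2⟩ := h n hno (by omega)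
      refine ⟨S, ?_, ?_⟩
      · have hc1 : c ≤ 1 := by
          rw [hc, div_le_one (by positivity)]
          linarith [show (0:ℝ) ≤ (N : ℝ) ^ (1 - ε') by positivity]
        calc c * (n : ℝ) ^ (1 - ε) ≤ 1 * (n : ℝ) ^ (1 - ε') := by gcongr
          _ ≤ S.card := by rw [one_mul]; exact hS1
      · intro X hX
        obtain ⟨h1, _, h3⟩ := hS2 X hX
        refine ⟨h1, ?_⟩
        intro q hq hqd
        by_contra hle2
        push Not at hle2
        have hq2 : q ≠ 2 := by
          rintro rfl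
          exact h2dvd X h1 (by exact_mod_cast hqd)
        apply h3 q hq hq2 _ hqd
        refine hle2.trans ?_
        apply Real.rpow_le_rpow_of_exponent_le hn1
        exact min_le_left _ _
    · push Not at hbig
      obtain ⟨X, hX⟩ := preps_nonempty n hno
      have hX' : ∑ i, X i ^ 2 = n := by
        unfold preps at hX
        rw [Finset.mem_filter, mem_reps] at hX
        exact hX.1
      refine ⟨{X}, ?_, ?_⟩
      · rw [Finset.card_singleton, Nat.cast_one]
        have hnN : (n : ℝ) ≤ N := by exact_mod_cast hbig.le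
        have h1 : (n : ℝ) ^ (1 - ε') ≤ (N : ℝ) ^ (1 - ε') := by
          apply Real.rpow_le_rpow hn0.le hnN
          have := min_le_right ε (1 / 50 : ℝ)
          linarith
        rw [hc, one_div, inv_mul_le_iff₀ (by positivity), mul_one]
        linarith
      · intro Y hY
        rw [Finset.mem_singleton] at hY
        subst hY
        refine ⟨hX', ?_⟩
        intro q hq _
        have hnN : (n : ℝ) ≤ N := by exact_mod_cast hbig.le
        have h1 : (n : ℝ) ^ δ < 2 := by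
          calc (n : ℝ) ^ δ ≤ (N : ℝ) ^ δ := Real.rpow_le_rpow hn0.le hnN hδpos.le
            _ ≤ (N : ℝ) ^ (Real.log 2 / (2 * Real.log N)) := by
              apply Real.rpow_le_rpow_of_exponent_le (by linarith)
              exact min_le_right _ _
            _ = Real.exp (Real.log 2 / 2) := by
              rw [Real.rpow_def_of_pos (by linarith)]
              congr 1
              field_simp
            _ < Real.exp (Real.log 2) := by
              apply Real.exp_lt_exp.2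
              linarith
            _ = 2 := Real.exp_log (by norm_num)
        have h2 : (2 : ℝ) ≤ q := by exact_mod_cast hq.two_le
        linarith
  refine ⟨K + 3, δ, hδpos, c, hcpos, ?_⟩
  intro n hno
  obtain ⟨S, hS1, hS2⟩ := hbase n hno
  refine ⟨S, hS1, ?_⟩
  intro X hX
  obtain ⟨h1, h2⟩ := hS2 X hX
  have hn1 : (1 : ℝ) ≤ n := by exact_mod_cast hno.pos
  have hn0 : (0 : ℝ) < n := by linarith
  have hlow := pf_lower n X h1
  have hup := pf_upper n X h1
  have hodd := pf_odd n hno X h1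
  have hnz : (1 : ℤ) ≤ n := by exact_mod_cast hno.pos
  have hpos : 0 < pf X := by linarith
  have hne : pf X - 2 ≠ 0 := by
    intro h3
    apply hodd
    have : pf X = 2 := by linarith
    rw [this]
  refine ⟨h1, h2, hpos, hne, ?_⟩
  -- bound for the number of prime factors
  have key : ∀ m : ℕ, m ≠ 0 → m ≤ 7 * n → (∀ q : ℕ, q.Prime → q ∣ m → (n : ℝ) ^ δ < q) →
      ArithmeticFunction.cardFactors m ≤ K + 3 := by
    intro m hm0 hm7 hq
    have hmr : (m : ℝ) ≤ 7 * n := by exact_mod_cast hm7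
    by_cases hn3 : n < 3
    · have hn' : n = 1 := by
        have := hno.pos
        rcases hno with ⟨k, hk⟩
        omega
      have h4 := omega_bound 2 (by norm_num) m hm0 (fun q hq _ => by exact_mod_cast hq.two_le)
      by_contra hlt
      push Not at hlt
      have h5 : (2 : ℝ) ^ 3 ≤ (2 : ℝ) ^ (ArithmeticFunction.cardFactors m) :=
        pow_le_pow_right₀ (by norm_num) (by omega)
      rw [hn'] at hmr
      push_cast at hmr
      norm_num at h5
      linarith
    · have hn3' : (3 : ℝ) ≤ n := by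
        have : 3 ≤ n := by omega
        exact_mod_cast this
      have h4 := omega_bound ((n : ℝ) ^ δ) (by positivity) m hm0 (fun q hq' hqm => (hq q hq' hqm).le)
      by_contra hlt
      push Not at hlt
      have h1le : 1 ≤ (n : ℝ) ^ δ := Real.one_le_rpow hn1 hδpos.le
      have h5 : (n : ℝ) ^ (3 : ℝ) ≤ ((n : ℝ) ^ δ) ^ (ArithmeticFunction.cardFactors m) := by
        rw [← Real.rpow_natCast, ← Real.rpow_mul hn0.le]
        apply Real.rpow_le_rpow_of_exponent_le hn1
        rw [div_le_iff₀ hδpos] at hK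
        have h6 : (K : ℝ) ≤ (ArithmeticFunction.cardFactors m : ℕ) := by
          have : K ≤ ArithmeticFunction.cardFactors m := by omega
          exact_mod_cast this
        calc (3 : ℝ) ≤ K * δ := hK
          _ ≤ (ArithmeticFunction.cardFactors m : ℕ) * δ := by gcongr
          _ = δ * (ArithmeticFunction.cardFactors m : ℕ) := by ring
      have h7 : (n : ℝ) ^ (3 : ℝ) ≤ 7 * n := h5.trans (h4.trans hmr)
      exact cube_contra n hn3' h7
  have cast_dvd : ∀ (a : ℤ) (q : ℕ), q ∣ a.natAbs → (q : ℤ) ∣ a := fun a q h => Int.natCast_dvd.2 h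
  constructor
  · apply key
    · exact Int.natAbs_ne_zero.2 hpos.ne'
    · have : ((pf X).natAbs : ℤ) ≤ 7 * n := by
        rw [Int.natAbs_of_nonneg hpos.le]; exact hup
      exact_mod_cast this
    · intro q hq hqd
      exact h2 q hq ((cast_dvd _ q hqd).mul_right _)
  · apply key
    · exact Int.natAbs_ne_zero.2 hne
    · omega
    · intro q hq hqd
      exact h2 q hq ((cast_dvd _ q hqd).mul_left _)

end Pool.Agent.W65.FS
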