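import Pool.Agent.W65.FS.Diff

/-!
# Independence of the main term of the residue class
-/

set_option autoImplicit false
open Finset

namespace Pool.Agent.W65.FS

/-- admissible residue classes -/
def Good (n D : ℕ) (u : Fin 4 → ℤ) : Prop :=
  (D : ℤ) ∣ (∑ i, u i ^ 2) - n ∧ ∀ l : ℕ, l.Prime → l ∣ D → ∃ i, ¬ (l : ℤ) ∣ u i

/-- Gauss sum vanishes when `l ∣ D`, `l² ∣ c`, `l ∤ u` -/
lemma gs_zero (c : ℕ) [NeZero c] (D : ℕ) (hDo : Odd D) (hDs : Squarefree D) (a u : ℤ) (ha : IsCoprime a (c : ℤ))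
    (l : ℕ) (hl : l.Prime) (hlD : l ∣ D) (hlc : l ^ 2 ∣ c) (hu : ¬ (l : ℤ) ∣ u) :
    gs c D (a : ZMod c) (u : ZMod c) 0 = 0 := by
  obtain ⟨D', rfl⟩ := hlD
  obtain ⟨h, hh⟩ := hlc
  have hc0 : c ≠ 0 := NeZero.ne c
  have hlp : Prime (l : ℤ) := Nat.prime_iff_prime_int.1 hl
  have hl2 : l ≠ 2 := by
    rintro rfl
    obtain ⟨k, hk⟩ := hDo
    omega
  -- shift invariance
  have hcz : (l : ZMod c) ^ 2 * (h : ZMod c) = 0 := by
    have : ((l ^ 2 * h : ℕ) : ZMod c) = 0 := by rw [← hh]; simp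
    push_cast at this
    exact this
  have hshift : gs c (l * D') (a : ZMod c) (u : ZMod c) 0 =
      ZMod.stdAddChar (2 * (a : ZMod c) * ((l * D' : ℕ) : ZMod c) * (h : ZMod c) * (u : ZMod c)) * gs c (l * D') (a : ZMod c) (u : ZMod c) 0 := by
    conv_lhs => unfold gs
    rw [← Equiv.sum_comp (Equiv.addRight (h : ZMod c))]
    unfold gs
    rw [Finset.mul_sum]
    apply Finset.sum_congr rfl
    intro s _
    rw [← AddChar.map_add_eq_mul]
    congr 1
    simp only [Equiv.coe_addRight]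
    push_cast
    linear_combination (2 * (a : ZMod c) * D' ^ 2 * s + a * D' ^ 2 * h) * hcz
  -- the character value is not one
  have hne : ZMod.stdAddChar (2 * (a : ZMod c) * ((l * D' : ℕ) : ZMod c) * (h : ZMod c) * (u : ZMod c)) ≠ 1 := by
    intro h1
    have h2 : (2 * (a : ZMod c) * ((l * D' : ℕ) : ZMod c) * (h : ZMod c) * (u : ZMod c)) = 0 := by
      apply ZMod.injective_stdAddChar
      rw [h1, AddChar.map_zero_eq_one]
    have h3 : (c : ℤ) ∣ 2 * a * (l * D') * h * u := by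
      rw [← ZMod.intCast_zmod_eq_zero_iff_dvd]
      push_cast
      push_cast at h2
      exact h2
    rw [hh] at h3
    have hh0 : (h : ℤ) ≠ 0 := by
      have : h ≠ 0 := by
        rintro rfl
        simp at hh
        exact hc0 hh
      exact_mod_cast this
    have hl0 : (l : ℤ) ≠ 0 := by exact_mod_cast hl.ne_zero
    have h4 : (l : ℤ) ∣ 2 * a * D' * u := by
      obtain ⟨t, ht⟩ := h3
      refine ⟨t, ?_⟩
      have : ((l : ℤ) * h) * (2 * a * D' * u) = (l * h) * (l * t) := by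
        push_cast at ht
        linear_combination ht
      exact mul_left_cancel₀ (mul_ne_zero hl0 hh0) this
    rcases hlp.dvd_or_dvd h4 with h5 | h5
    · rcases hlp.dvd_or_dvd h5 with h6 | h6
      · rcases hlp.dvd_or_dvd h6 with h7 | h7
        · have : l ∣ 2 := by exact_mod_cast h7
          have := (Nat.prime_dvd_prime_iff_eq hl Nat.prime_two).1 this
          exact hl2 this
        · -- l ∣ a and l ∣ c
          have h8 : (l : ℤ) ∣ (c : ℤ) := by
            rw [hh]; push_cast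
            exact ⟨l * h, by ring⟩
          exact hlp.not_isUnit (ha.isUnit_of_dvd' h7 h8)
      · have h7 : l ∣ D' := by exact_mod_cast h6
        have := hDs l (Nat.mul_dvd_mul_left l h7)
        exact hl.ne_one (Nat.isUnit_iff.1 this)
    · exact hu h5
  have h5 : (1 - ZMod.stdAddChar (2 * (a : ZMod c) * ((l * D' : ℕ) : ZMod c) * (h : ZMod c) * (u : ZMod c))) *
      gs c (l * D') (a : ZMod c) (u : ZMod c) 0 = 0 := by
    rw [sub_mul, one_mul]
    exact sub_eq_zero.2 hshift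
  rcases mul_eq_zero.1 h5 with h6 | h6
  · exact absurd (sub_eq_zero.1 h6).symm hne
  · exact h6

lemma Tk0_eq (c : ℕ) [NeZero c] (D n : ℕ) (a : ZMod c) (u : Fin 4 → ℤ) :
    Tk c D n a u 0 = ∑ p : Fin 4 → ZMod c,
      ZMod.stdAddChar (a * ((∑ i, ((u i : ZMod c) + (D : ZMod c) * p i) ^ 2) - (n : ZMod c))) := by
  have h1 : Tk c D n a u 0 = ZMod.stdAddChar (-(n : ZMod c) * a) * ∏ i : Fin 4, gs c D a (u i : ZMod c) 0 := by
    unfold Tk
    rw [Fin.prod_univ_four]
    simp only [Prod.fst_zero, Prod.snd_zero, Int.cast_zero]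
    ring
  rw [h1]
  unfold gs
  rw [Finset.prod_univ_sum, Finset.mul_sum, Fintype.piFinset_univ]
  apply Finset.sum_congr rfl
  intro p _
  rw [Fin.prod_univ_four, ← AddChar.map_add_eq_mul, ← AddChar.map_add_eq_mul, ← AddChar.map_add_eq_mul,
    ← AddChar.map_add_eq_mul]
  congr 1
  rw [Fin.sum_univ_four]
  ring

lemma good_mod (n D : ℕ) (u : Fin 4 → ℤ) (g : ℤ) (hg : g ∣ D) (h : (D : ℤ) ∣ (∑ i, u i ^ 2) - n) (x : Fin 4 → ℤ) :
    g ∣ (∑ i, (u i + D * x i) ^ 2) - n := by
  have h1 : (∑ i, (u i + D * x i) ^ 2) - n = ((∑ i, u i ^ 2) - n) + D * (∑ i, (2 * u i * x i + D * x i ^ 2)) := by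
    simp only [Fin.sum_univ_four]
    ring
  rw [h1]
  exact dvd_add (hg.trans h) (hg.mul_right _)

theorem Tk_indep (n D : ℕ) (hDo : Odd D) (hDs : Squarefree D) (u u' : Fin 4 → ℤ) (hu : Good n D u) (hu' : Good n D u')
    (c : ℕ) [NeZero c] (a : ℤ) (ha : IsCoprime a (c : ℤ)) :
    Tk c D n (a : ZMod c) u 0 = Tk c D n (a : ZMod c) u' 0 := by
  by_cases hcase : ∃ l : ℕ, l.Prime ∧ l ∣ D ∧ l ^ 2 ∣ c
  · obtain ⟨l, hl, hlD, hlc⟩ := hcase
    have key : ∀ w : Fin 4 → ℤ, Good n D w → Tk c D n (a : ZMod c) w 0 = 0 := by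
      intro w hw
      obtain ⟨i, hi⟩ := hw.2 l hl hlD
      have hz := gs_zero c D hDo hDs a (w i) ha l hl hlD hlc hi
      unfold Tk
      simp only [Prod.fst_zero, Prod.snd_zero, Int.cast_zero]
      fin_cases i
      · simp only [Fin.zero_eta, Fin.isValue] at hz
        rw [hz]; ring
      · simp only [Fin.mk_one, Fin.isValue] at hz
        rw [hz]; ring
      · have hz' : gs c D (a : ZMod c) (w 2 : ZMod c) 0 = 0 := hz
        rw [hz']; ring
      · have hz' : gs c D (a : ZMod c) (w 3 : ZMod c) 0 = 0 := hz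
        rw [hz']; ring
    rw [key u hu, key u' hu']
  · push Not at hcase
    have hc0 : 0 < c := Nat.pos_of_ne_zero (NeZero.ne c)
    set g : ℕ := Nat.gcd c D with hg
    have hg0 : 0 < g := Nat.gcd_pos_of_pos_left _ hc0
    obtain ⟨c0, hc0'⟩ : g ∣ c := Nat.gcd_dvd_left _ _
    have hcop : Nat.Coprime c0 D := by
      apply Nat.coprime_of_dvd
      intro l hl hlc hlD
      apply hcase l hl hlD
      have h1 : l ∣ g := Nat.dvd_gcd (hc0' ▸ Dvd.dvd.mul_left hlc g) hlD
      rw [hc0', pow_two]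
      exact Nat.mul_dvd_mul h1 hlc
    have hcopg : Nat.Coprime c0 g := Nat.Coprime.coprime_dvd_right (Nat.gcd_dvd_right _ _) hcop
    have hcopZ : IsCoprime (c0 : ℤ) (D : ℤ) := Nat.isCoprime_iff_coprime.2 hcop
    obtain ⟨r, m, hrm⟩ := hcopZ
    -- shift
    set h : Fin 4 → ℤ := fun i => m * (u i - u' i) with hh
    have hmod : ∀ i, (c0 : ℤ) ∣ u i - (u' i + D * h i) := by
      intro i
      refine ⟨r * (u i - u' i), ?_⟩
      rw [hh]
      simp only
      linear_combination (-(u i - u' i)) * hrm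
    rw [Tk0_eq, Tk0_eq]
    rw [← Equiv.sum_comp (Equiv.addRight (fun i => (h i : ZMod c))) (fun p : Fin 4 → ZMod c =>
      ZMod.stdAddChar ((a : ZMod c) * ((∑ i, ((u' i : ZMod c) + (D : ZMod c) * p i) ^ 2) - (n : ZMod c))))]
    apply Finset.sum_congr rfl
    intro p _
    congr 1
    simp only [Equiv.coe_addRight, Pi.add_apply]
    -- integer representatives
    set s : Fin 4 → ℤ := fun i => ((p i).val : ℤ) with hs
    have hsp : ∀ i, p i = ((s i : ℤ) : ZMod c) := by
      intro i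
      rw [hs]
      simp
    have hdiv : (c : ℤ) ∣ ((∑ i, (u i + D * s i) ^ 2) - n) - ((∑ i, (u' i + D * (s i + h i)) ^ 2) - n) := by
      rw [hc0']
      push_cast
      rw [mul_comm]
      apply IsCoprime.mul_dvd (Nat.isCoprime_iff_coprime.2 hcopg)
      · have : ((∑ i, (u i + D * s i) ^ 2) - (n : ℤ)) - ((∑ i, (u' i + D * (s i + h i)) ^ 2) - n) =
          ∑ i, (u i - (u' i + D * h i)) * (u i + D * s i + (u' i + D * (s i + h i))) := by
          simp only [Fin.sum_univ_four]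
          ring
        rw [this]
        exact Finset.dvd_sum fun i _ => (hmod i).mul_right _
      · have hgD : (g : ℤ) ∣ (D : ℤ) := by exact_mod_cast Nat.gcd_dvd_right c D
        exact dvd_sub (good_mod n D u g hgD hu.1 s) (good_mod n D u' g hgD hu'.1 (fun i => s i + h i))
    have hz := (ZMod.intCast_zmod_eq_zero_iff_dvd _ c).2 hdiv
    have hz2 : ((((∑ i, (u i + D * s i) ^ 2) - n) : ℤ) : ZMod c) = ((((∑ i, (u' i + D * (s i + h i)) ^ 2) - n) : ℤ) : ZMod c) := by
      rw [← sub_eq_zero, ← Int.cast_sub]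
      exact hz
    have e1 : (∑ i, ((u i : ZMod c) + (D : ZMod c) * p i) ^ 2) - (n : ZMod c) = ((((∑ i, (u i + D * s i) ^ 2) - n) : ℤ) : ZMod c) := by
      simp only [hsp]
      push_cast
      rfl
    have e2 : (∑ i, ((u' i : ZMod c) + (D : ZMod c) * (p i + (h i : ZMod c))) ^ 2) - (n : ZMod c) =
        ((((∑ i, (u' i + D * (s i + h i)) ^ 2) - n) : ℤ) : ZMod c) := by
      simp only [hsp]
      push_cast
      rfl
    rw [e1, e2, hz2]

end Pool.Agent.W65.FS
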