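import Pool.Agent.W65.FS.Indep
import Pool.Agent.W65.FS.NegOne
import Pool.Agent.H442R2.KF.Inc
import Pool.Agent.H442R2.KF.Qp

/-!
# Kloosterman bounds for the local factors
-/

set_option autoImplicit false
open Finset Pool.Agent.H442R2.KF

namespace Pool.Agent.W65.FS

/-- scaling of the dual vector -/
def sc (α : ℤ) (k : Q) : Q := ((α * k.1.1, α * k.1.2), (α * k.2.1, α * k.2.2))

lemma gs_crt (q1 q2 : ℕ) [NeZero q1] [NeZero q2] [NeZero (q1 * q2)] (h : Nat.Coprime q1 q2)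
    (α β : ℤ) (hαβ : α * q2 + β * q1 = 1) (D : ℕ) (a u k : ℤ) :
    gs (q1 * q2) D (a : ZMod (q1 * q2)) (u : ZMod (q1 * q2)) (k : ZMod (q1 * q2)) =
      gs q1 D ((α * a : ℤ) : ZMod q1) (u : ZMod q1) ((α * k : ℤ) : ZMod q1) *
        gs q2 D ((β * a : ℤ) : ZMod q2) (u : ZMod q2) ((β * k : ℤ) : ZMod q2) := by
  unfold gs
  rw [Finset.sum_mul_sum, ← Fintype.sum_prod_type' (fun (s : ZMod q1) (t : ZMod q2) =>
    (ZMod.stdAddChar (((α * a : ℤ) : ZMod q1) * ((u : ZMod q1) + (D : ZMod q1) * s) ^ 2 + ((α * k : ℤ) : ZMod q1) * s) : ℂ) *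
    ZMod.stdAddChar (((β * a : ℤ) : ZMod q2) * ((u : ZMod q2) + (D : ZMod q2) * t) ^ 2 + ((β * k : ℤ) : ZMod q2) * t))]
  rw [← Equiv.sum_comp (ZMod.chineseRemainder h).toEquiv]
  apply Finset.sum_congr rfl
  intro s _
  rw [TaskB.char_crt q1 q2 h α β hαβ]
  have e1 : ZMod.chineseRemainder h ((a : ZMod (q1 * q2)) * ((u : ZMod (q1 * q2)) + (D : ZMod (q1 * q2)) * s) ^ 2 +
      (k : ZMod (q1 * q2)) * s) =
      ((a : ZMod q1), (a : ZMod q2)) * (((u : ZMod q1), (u : ZMod q2)) + ((D : ZMod q1), (D : ZMod q2)) *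
        ZMod.chineseRemainder h s) ^ 2 + ((k : ZMod q1), (k : ZMod q2)) * ZMod.chineseRemainder h s := by
    rw [map_add, map_mul, map_mul, map_pow, map_add, map_mul, map_intCast, map_intCast, map_intCast, map_natCast]
    rfl
  rw [e1]
  congr 1
  · congr 1
    simp only [Prod.fst_add, Prod.fst_mul, Prod.pow_fst, RingEquiv.toEquiv_eq_coe, EquivLike.coe_coe]
    push_cast
    ring
  · congr 1
    simp only [Prod.snd_add, Prod.snd_mul, Prod.pow_snd, RingEquiv.toEquiv_eq_coe, EquivLike.coe_coe]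
    push_cast
    ring

lemma Tk_crt (q1 q2 : ℕ) [NeZero q1] [NeZero q2] [NeZero (q1 * q2)] (h : Nat.Coprime q1 q2)
    (α β : ℤ) (hαβ : α * q2 + β * q1 = 1) (D n : ℕ) (a : ℤ) (u : Fin 4 → ℤ) (k : Q) :
    Tk (q1 * q2) D n (a : ZMod (q1 * q2)) u k =
      Tk q1 D n ((α * a : ℤ) : ZMod q1) u (sc α k) * Tk q2 D n ((β * a : ℤ) : ZMod q2) u (sc β k) := by
  unfold Tk
  rw [gs_crt q1 q2 h α β hαβ, gs_crt q1 q2 h α β hαβ, gs_crt q1 q2 h α β hαβ, gs_crt q1 q2 h α β hαβ]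
  have e1 : -(n : ZMod (q1 * q2)) * (a : ZMod (q1 * q2)) = ((-n * a : ℤ) : ZMod (q1 * q2)) := by push_cast; ring
  rw [e1, TaskB.stdAddChar_crt q1 q2 α β hαβ]
  have e2 : (α : ZMod q1) * ((-n * a : ℤ) : ZMod q1) = -(n : ZMod q1) * ((α * a : ℤ) : ZMod q1) := by push_cast; ring
  have e3 : (β : ZMod q2) * ((-n * a : ℤ) : ZMod q2) = -(n : ZMod q2) * ((β * a : ℤ) : ZMod q2) := by push_cast; ring
  rw [e2, e3]
  unfold sc
  ring

lemma card_ker_le (w m : ℕ) [NeZero w] (hm : 0 < m) :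
    (univ.filter (fun h : ZMod w => (m : ZMod w) * h = 0)).card ≤ m := by
  classical
  have := IsAddCyclic.card_nsmul_eq_zero_le (α := ZMod w) hm
  refine le_trans (le_of_eq ?_) this
  congr 1
  ext h
  simp [nsmul_eq_mul]

/-- square root cancellation for the general Gauss sum -/
lemma norm_gs_sq (w : ℕ) [NeZero w] (D : ℕ) (hD : 0 < D) (a u k : ZMod w) (ha : IsUnit a) :
    ‖gs w D a u k‖ ^ 2 ≤ 2 * (D : ℝ) ^ 2 * w := by
  classical
  set f : ZMod w → ℂ := fun s => ZMod.stdAddChar (a * (u + (D : ZMod w) * s) ^ 2 + k * s) with hf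
  have h1 : ((‖gs w D a u k‖ ^ 2 : ℝ) : ℂ) = ∑ h : ZMod w, ∑ s : ZMod w, f (s + h) * (starRingEnd ℂ) (f s) := by
    have e1 : ((‖gs w D a u k‖ ^ 2 : ℝ) : ℂ) = gs w D a u k * (starRingEnd ℂ) (gs w D a u k) := by
      rw [Complex.mul_conj, Complex.normSq_eq_norm_sq]
    rw [e1]
    have e2 : gs w D a u k = ∑ s, f s := rfl
    rw [e2, map_sum, Finset.mul_sum, Finset.sum_comm]
    apply Finset.sum_congr rfl
    intro s _
    rw [Finset.sum_mul, ← Equiv.sum_comp (Equiv.addLeft s)]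
    rfl
  have h2 : ∀ h : ZMod w, ∑ s : ZMod w, f (s + h) * (starRingEnd ℂ) (f s) =
      ZMod.stdAddChar (2 * a * (D : ZMod w) * u * h + a * (D : ZMod w) ^ 2 * h ^ 2 + k * h) *
        (if (2 * a * (D : ZMod w) ^ 2 * h : ZMod w) = 0 then (w : ℂ) else 0) := by
    intro h
    have e1 : ∀ s : ZMod w, f (s + h) * (starRingEnd ℂ) (f s) =
        ZMod.stdAddChar (2 * a * (D : ZMod w) * u * h + a * (D : ZMod w) ^ 2 * h ^ 2 + k * h) *
          ZMod.stdAddChar (s * (2 * a * (D : ZMod w) ^ 2 * h)) := by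
      intro s
      rw [hf]
      simp only
      rw [← AddChar.map_neg_eq_conj, ← AddChar.map_add_eq_mul, ← AddChar.map_add_eq_mul]
      congr 1
      ring
    simp_rw [e1]
    rw [← Finset.mul_sum, AddChar.sum_mulShift _ (ZMod.isPrimitive_stdAddChar w), ZMod.card]
    split_ifs <;> simp
  have h3 : ‖gs w D a u k‖ ^ 2 = ‖((‖gs w D a u k‖ ^ 2 : ℝ) : ℂ)‖ := by
    rw [Complex.norm_real, Real.norm_of_nonneg (by positivity)]
  rw [h3, h1]
  have h4 : ‖∑ h : ZMod w, ∑ s : ZMod w, f (s + h) * (starRingEnd ℂ) (f s)‖ ≤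
      ∑ h : ZMod w, (if (2 * a * (D : ZMod w) ^ 2 * h : ZMod w) = 0 then (w : ℝ) else 0) := by
    refine (norm_sum_le _ _).trans (Finset.sum_le_sum fun h _ => ?_)
    rw [h2, norm_mul, norm_std, one_mul]
    split_ifs <;> simp
  refine h4.trans ?_
  rw [← Finset.sum_filter, Finset.sum_const, nsmul_eq_mul]
  have h5 : (univ.filter (fun h : ZMod w => (2 * a * (D : ZMod w) ^ 2 * h : ZMod w) = 0)).card ≤ 2 * D ^ 2 := by
    refine le_trans (Finset.card_le_card ?_) (card_ker_le w (2 * D ^ 2) (by positivity))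
    intro h hh
    rw [Finset.mem_filter] at hh ⊢
    refine ⟨hh.1, ?_⟩
    have : a * (((2 * D ^ 2 : ℕ) : ZMod w) * h) = 0 := by
      push_cast
      linear_combination hh.2
    exact (ha.mul_right_eq_zero).1 this
  have h6 : ((univ.filter (fun h : ZMod w => (2 * a * (D : ZMod w) ^ 2 * h : ZMod w) = 0)).card : ℝ) ≤ 2 * (D : ℝ) ^ 2 := by
    exact_mod_cast h5
  gcongr

lemma norm_Tk_unit (w : ℕ) [NeZero w] (D n : ℕ) (hD : 0 < D) (a : ZMod w) (ha : IsUnit a) (u : Fin 4 → ℤ) (k : Q) :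
    ‖Tk w D n a u k‖ ≤ 4 * (D : ℝ) ^ 4 * w ^ 2 := by
  unfold Tk
  rw [norm_mul, norm_std, one_mul, norm_mul, norm_mul, norm_mul]
  have h0 := norm_gs_sq w D hD a (u 0 : ZMod w) (k.1.1 : ZMod w) ha
  have h1 := norm_gs_sq w D hD a (u 1 : ZMod w) (k.1.2 : ZMod w) ha
  have h2 := norm_gs_sq w D hD a (u 2 : ZMod w) (k.2.1 : ZMod w) ha
  have h3 := norm_gs_sq w D hD a (u 3 : ZMod w) (k.2.2 : ZMod w) ha
  set x0 := ‖gs w D a (u 0 : ZMod w) (k.1.1 : ZMod w)‖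
  set x1 := ‖gs w D a (u 1 : ZMod w) (k.1.2 : ZMod w)‖
  set x2 := ‖gs w D a (u 2 : ZMod w) (k.2.1 : ZMod w)‖
  set x3 := ‖gs w D a (u 3 : ZMod w) (k.2.2 : ZMod w)‖
  have hx0 : 0 ≤ x0 := norm_nonneg _
  have hx1 : 0 ≤ x1 := norm_nonneg _
  have hx2 : 0 ≤ x2 := norm_nonneg _
  have hx3 : 0 ≤ x3 := norm_nonneg _
  have e1 : x0 * x1 ≤ 2 * (D : ℝ) ^ 2 * w := by nlinarith [sq_nonneg (x0 - x1)]
  have e2 : x2 * x3 ≤ 2 * (D : ℝ) ^ 2 * w := by nlinarith [sq_nonneg (x2 - x3)]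
  calc x0 * x1 * (x2 * x3) ≤ (2 * (D : ℝ) ^ 2 * w) * (2 * (D : ℝ) ^ 2 * w) := by gcongr
    _ = _ := by ring

/-- completing the square -/
lemma gs_good (q : ℕ) [NeZero q] (hq : Odd q) (D : ℕ) (hD : Nat.Coprime D q) (a : ZMod q) (ha : IsUnit a)
    (u k : ZMod q) :
    gs q D a u k = ZMod.stdAddChar (-((D : ZMod q)⁻¹ * (k * u)) - (D : ZMod q)⁻¹ ^ 2 * k ^ 2 * (4 * a)⁻¹) *
      ∑ r : ZMod q, ZMod.stdAddChar (a * r ^ 2) := by
  have hDu : IsUnit (D : ZMod q) := (ZMod.isUnit_iff_coprime D q).2 hD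
  have h2 : IsUnit (2 : ZMod q) := by
    have := (ZMod.isUnit_iff_coprime 2 q).2 ((Nat.coprime_two_left).2 hq)
    exact_mod_cast this
  have hDi : (D : ZMod q) * (D : ZMod q)⁻¹ = 1 := ZMod.mul_inv_of_unit _ hDu
  have h4a : IsUnit (4 * a) := by
    have : (4 : ZMod q) = 2 * 2 := by norm_num
    rw [this]
    exact (h2.mul h2).mul ha
  have h4i : (4 * a) * (4 * a)⁻¹ = 1 := ZMod.mul_inv_of_unit _ h4a
  set d := (D : ZMod q)⁻¹ with hd
  set t := (4 * a)⁻¹ with ht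
  unfold gs
  -- substitute s = d (r - u) where r = r' - 2 t k d
  have hbij : Function.Bijective (fun r : ZMod q => d * (r - 2 * t * k * d - u)) := by
    apply Finite.injective_iff_bijective.1
    intro x y hxy
    simp only at hxy
    have h1 : (D : ZMod q) * (d * (x - 2 * t * k * d - u)) = (D : ZMod q) * (d * (y - 2 * t * k * d - u)) := by rw [hxy]
    rw [← mul_assoc, ← mul_assoc, hDi, one_mul, one_mul] at h1
    linear_combination h1
  rw [← Function.Bijective.sum_comp hbij, Finset.mul_sum]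
  apply Finset.sum_congr rfl
  intro r _
  rw [← AddChar.map_add_eq_mul]
  congr 1
  have e1 : u + (D : ZMod q) * (d * (r - 2 * t * k * d - u)) = r - 2 * t * k * d := by
    rw [← mul_assoc, hDi]; ring
  rw [e1]
  linear_combination (-r * k * d + t * k ^ 2 * d ^ 2) * h4i

/-- evaluation of the local factor at good moduli -/
lemma Tk_good (q : ℕ) [NeZero q] (hq : Odd q) (D n : ℕ) (hD : Nat.Coprime D q) (a : ZMod q) (ha : IsUnit a)
    (u : Fin 4 → ℤ) (k : Q) :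
    Tk q D n a u k = (q : ℂ) ^ 2 * ZMod.stdAddChar (-(n : ZMod q) * a -
      (D : ZMod q)⁻¹ * ((k.1.1 * u 0 + k.1.2 * u 1 + (k.2.1 * u 2 + k.2.2 * u 3) : ℤ) : ZMod q) -
        (D : ZMod q)⁻¹ ^ 2 * ((nq k : ℤ) : ZMod q) * (4 * a)⁻¹) := by
  unfold Tk
  rw [gs_good q hq D hD a ha, gs_good q hq D hD a ha, gs_good q hq D hD a ha, gs_good q hq D hD a ha]
  set g : ℂ := ∑ r : ZMod q, ZMod.stdAddChar (a * r ^ 2) with hg
  have h4 : g ^ 4 = (q : ℂ) ^ 2 := gauss_four q hq a ha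
  rw [← h4]
  have e1 : ∀ A B C E F : ZMod q, (ZMod.stdAddChar A : ℂ) * (ZMod.stdAddChar B * g * (ZMod.stdAddChar C * g) *
      (ZMod.stdAddChar E * g * (ZMod.stdAddChar F * g))) = g ^ 4 * ZMod.stdAddChar (A + (B + C + (E + F))) := by
    intro A B C E F
    rw [AddChar.map_add_eq_mul, AddChar.map_add_eq_mul, AddChar.map_add_eq_mul, AddChar.map_add_eq_mul]
    ring
  rw [e1]
  congr 2
  unfold nq
  push_cast
  ring

/-- complete sums -/
lemma complete_bound (q : ℕ) [NeZero q] (hq : Odd q) (hsq : Squarefree q) (D n : ℕ) (hD : Nat.Coprime D q)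
    (hn : Nat.Coprime n q) (α : ZMod q) (hα : IsUnit α) (u : Fin 4 → ℤ) (k : Q) (φ : ZMod q → ℂ)
    (hφ : ∀ x : ZMod q, IsUnit x → φ x = Tk q D n (-(α * x⁻¹)) u k) (hφ0 : ∀ x : ZMod q, ¬ IsUnit x → φ x = 0)
    (w : ZMod q) :
    ‖∑ x : ZMod q, ZMod.stdAddChar (-(x * w)) * φ x‖ ≤ (q : ℝ) ^ 2 * (2 ^ q.primeFactors.card * Real.sqrt q) := by
  classical
  have h2 : IsUnit (2 : ZMod q) := by
    have := (ZMod.isUnit_iff_coprime 2 q).2 ((Nat.coprime_two_left).2 hq)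
    exact_mod_cast this
  have hnu : IsUnit (n : ZMod q) := (ZMod.isUnit_iff_coprime n q).2 hn
  have h4 : IsUnit (4 : ZMod q) := by
    have : (4 : ZMod q) = 2 * 2 := by norm_num
    rw [this]; exact h2.mul h2
  set C1 : ZMod q := (D : ZMod q)⁻¹ * ((k.1.1 * u 0 + k.1.2 * u 1 + (k.2.1 * u 2 + k.2.2 * u 3) : ℤ) : ZMod q) with hC1
  set C2 : ZMod q := (D : ZMod q)⁻¹ ^ 2 * ((nq k : ℤ) : ZMod q) * (4 * α)⁻¹ with hC2
  have hval : ∀ x : (ZMod q)ˣ, φ (x : ZMod q) = (q : ℂ) ^ 2 * (ZMod.stdAddChar (-C1) *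
      ZMod.stdAddChar (C2 * (x : ZMod q) + (n : ZMod q) * α * ((x⁻¹ : (ZMod q)ˣ) : ZMod q))) := by
    intro x
    have hx : ((x : ZMod q))⁻¹ = ((x⁻¹ : (ZMod q)ˣ) : ZMod q) := ZMod.inv_coe_unit x
    have hau : IsUnit (-(α * ((x⁻¹ : (ZMod q)ˣ) : ZMod q))) := (hα.mul x⁻¹.isUnit).neg
    rw [hφ _ x.isUnit, hx, Tk_good q hq D n hD _ hau, ← AddChar.map_add_eq_mul]
    congr 2
    have h4a : IsUnit (4 * α) := h4.mul hα
    have hinv : (4 * -(α * ((x⁻¹ : (ZMod q)ˣ) : ZMod q)))⁻¹ = -((4 * α)⁻¹ * (x : ZMod q)) := by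
      have e1 : (4 * -(α * ((x⁻¹ : (ZMod q)ˣ) : ZMod q))) * (-((4 * α)⁻¹ * (x : ZMod q))) = 1 := by
        have e2 : ((x⁻¹ : (ZMod q)ˣ) : ZMod q) * (x : ZMod q) = 1 := Units.inv_mul x
        have e3 := ZMod.mul_inv_of_unit _ h4a
        linear_combination (4 * α) * (4 * α)⁻¹ * e2 + e3
      have h5 : IsUnit (4 * -(α * ((x⁻¹ : (ZMod q)ˣ) : ZMod q))) := h4.mul hau
      have e4 := ZMod.mul_inv_of_unit _ h5
      calc (4 * -(α * ((x⁻¹ : (ZMod q)ˣ) : ZMod q)))⁻¹ =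
          (4 * -(α * ((x⁻¹ : (ZMod q)ˣ) : ZMod q)))⁻¹ * ((4 * -(α * ((x⁻¹ : (ZMod q)ˣ) : ZMod q))) * (-((4 * α)⁻¹ * (x : ZMod q)))) := by
            rw [e1, mul_one]
        _ = ((4 * -(α * ((x⁻¹ : (ZMod q)ˣ) : ZMod q))) * (4 * -(α * ((x⁻¹ : (ZMod q)ˣ) : ZMod q)))⁻¹) * (-((4 * α)⁻¹ * (x : ZMod q))) := by ring
        _ = _ := by rw [e4, one_mul]
    rw [hinv, ← hC1]
    rw [hC2]
    ring
  have h1 : ∑ x : ZMod q, ZMod.stdAddChar (-(x * w)) * φ x =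
      ∑ x : (ZMod q)ˣ, (q : ℂ) ^ 2 * ZMod.stdAddChar (-C1) *
        ZMod.stdAddChar ((C2 - w) * (x : ZMod q) + (n : ZMod q) * α * ((x⁻¹ : (ZMod q)ˣ) : ZMod q)) := by
    have h3 : ∑ x : ZMod q, ZMod.stdAddChar (-(x * w)) * φ x =
        ∑ x ∈ univ.filter (fun x : ZMod q => IsUnit x), ZMod.stdAddChar (-(x * w)) * φ x := by
      rw [sum_filter]
      apply sum_congr rfl
      intro x _
      split_ifs with h
      · rfl
      · rw [hφ0 x h, mul_zero]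
    rw [h3]
    symm
    refine sum_bij (fun (x : (ZMod q)ˣ) _ => (x : ZMod q)) ?_ ?_ ?_ ?_
    · intro x _
      rw [mem_filter]
      exact ⟨mem_univ _, x.isUnit⟩
    · intro a _ b _ hab
      exact Units.ext hab
    · intro b hb
      rw [mem_filter] at hb
      exact ⟨hb.2.unit, mem_univ _, rfl⟩
    · intro x _
      rw [hval]
      have : (C2 - w) * (x : ZMod q) + (n : ZMod q) * α * ((x⁻¹ : (ZMod q)ˣ) : ZMod q) =
        -((x : ZMod q) * w) + (C2 * (x : ZMod q) + (n : ZMod q) * α * ((x⁻¹ : (ZMod q)ˣ) : ZMod q)) := by ring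
      rw [this, AddChar.map_add_eq_mul]
      ring
  rw [h1, ← Finset.mul_sum, norm_mul, norm_mul, norm_std, mul_one]
  have h5 := weil_sf q hsq (C2 - w) ((n : ZMod q) * α) (hnu.mul hα)
  have h6 : ‖((q : ℂ) ^ 2)‖ = (q : ℝ) ^ 2 := by simp
  rw [h6]
  gcongr

end Pool.Agent.W65.FS
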