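import Pool.Agent.W65.FS.Sum

/-!
# Primitive representations
-/

set_option autoImplicit false
open Finset

namespace Pool.Agent.W65.FS

/-- gcd of the coordinates -/
def gc (X : Fin 4 → ℤ) : ℕ := Finset.univ.gcd (fun i => (X i).natAbs)

lemma dvd_gc (f : ℕ) (X : Fin 4 → ℤ) : f ∣ gc X ↔ ∀ i, (f : ℤ) ∣ X i := by
  unfold gc
  rw [Finset.dvd_gcd_iff]
  constructor
  · intro h i
    exact Int.natCast_dvd.2 (h i (Finset.mem_univ i))
  · intro h i _
    exact Int.natCast_dvd.1 (h i)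

/-- primitive representations in a class -/
noncomputable def prc (n D : ℕ) (u : Fin 4 → ℤ) : Finset (Fin 4 → ℤ) := (repsc n D u).filter (fun X => gc X = 1)

lemma mem_repsc (n D : ℕ) (u X : Fin 4 → ℤ) : X ∈ repsc n D u ↔ ∑ i, X i ^ 2 = n ∧ ∀ i, (D : ℤ) ∣ X i - u i := by
  unfold repsc
  rw [Finset.mem_filter, mem_reps]

lemma gc_ne_zero (n : ℕ) (hn : 1 ≤ n) (X : Fin 4 → ℤ) (h : ∑ i, X i ^ 2 = n) : gc X ≠ 0 := by
  intro h0
  have h1 : ∀ i, ((0 : ℕ) : ℤ) ∣ X i := (dvd_gc 0 X).1 (by rw [h0])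
  have h2 : ∀ i, X i = 0 := fun i => by simpa using h1 i
  have h3 : ∑ i, X i ^ 2 = 0 := by simp [h2]
  rw [h3] at h
  omega

lemma sq_dvd (n f : ℕ) (X : Fin 4 → ℤ) (h : ∑ i, X i ^ 2 = n) (hf : ∀ i, (f : ℤ) ∣ X i) : f ^ 2 ∣ n := by
  have h1 : ((f : ℤ) ^ 2) ∣ n := by
    rw [← h]
    exact Finset.dvd_sum fun i _ => pow_dvd_pow_of_dvd (hf i) 2
  exact_mod_cast h1

lemma sum_moebius (m : ℕ) (hm : m ≠ 0) :
    ∑ d ∈ m.divisors, (ArithmeticFunction.moebius d : ℤ) = if m = 1 then 1 else 0 := by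
  have h1 := congrFun (congrArg DFunLike.coe ArithmeticFunction.moebius_mul_coe_zeta) m
  rw [ArithmeticFunction.coe_mul_zeta_apply] at h1
  rw [h1, ArithmeticFunction.one_apply]

/-- number of representations divisible by `f` -/
noncomputable def Af (n D : ℕ) (u : Fin 4 → ℤ) (f : ℕ) : ℕ := ((repsc n D u).filter (fun X => ∀ i, (f : ℤ) ∣ X i)).card

lemma prc_card (n D : ℕ) (hn : 1 ≤ n) (u : Fin 4 → ℤ) :
    ((prc n D u).card : ℤ) = ∑ f ∈ (Icc 1 n).filter (fun f => f ^ 2 ∣ n),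
      (ArithmeticFunction.moebius f : ℤ) * Af n D u f := by
  classical
  have h1 : ((prc n D u).card : ℤ) = ∑ X ∈ repsc n D u, ∑ d ∈ (gc X).divisors, (ArithmeticFunction.moebius d : ℤ) := by
    unfold prc
    rw [Finset.card_filter]
    push_cast
    apply Finset.sum_congr rfl
    intro X hX
    rw [sum_moebius _ (gc_ne_zero n hn X ((mem_repsc n D u X).1 hX).1)]
  rw [h1]
  have h2 : ∀ X ∈ repsc n D u, ∑ d ∈ (gc X).divisors, (ArithmeticFunction.moebius d : ℤ) =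
      ∑ f ∈ (Icc 1 n).filter (fun f => f ^ 2 ∣ n), if (∀ i, (f : ℤ) ∣ X i) then (ArithmeticFunction.moebius f : ℤ) else 0 := by
    intro X hX
    rw [← Finset.sum_filter]
    apply Finset.sum_congr _ (fun _ _ => rfl)
    ext f
    have hX' := ((mem_repsc n D u X).1 hX).1
    have h0 := gc_ne_zero n hn X hX'
    rw [Nat.mem_divisors, Finset.mem_filter, Finset.mem_filter, Finset.mem_Icc, dvd_gc]
    constructor
    · rintro ⟨h3, _⟩
      have h4 := sq_dvd n f X hX' h3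
      have h5 : f ≠ 0 := by
        rintro rfl
        exact h0 (by have := (dvd_gc 0 X).2 h3; simpa using this)
      have h6 : f ≤ n := le_trans (by nlinarith [Nat.pos_of_ne_zero h5]) (Nat.le_of_dvd (by omega) h4)
      exact ⟨⟨⟨by omega, h6⟩, h4⟩, h3⟩
    · rintro ⟨_, h3⟩
      exact ⟨h3, h0⟩
  rw [Finset.sum_congr rfl h2, Finset.sum_comm]
  apply Finset.sum_congr rfl
  intro f _
  unfold Af
  rw [← Finset.sum_filter, Finset.sum_const, nsmul_eq_mul, mul_comm]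

lemma Af_zero (n D : ℕ) (u : Fin 4 → ℤ) (hu : Good n D u) (f : ℕ) (hf : ¬ Nat.Coprime f D) : Af n D u f = 0 := by
  unfold Af
  rw [Finset.card_eq_zero, Finset.filter_eq_empty_iff]
  intro X hX hfX
  rw [mem_repsc] at hX
  obtain ⟨l, hl, hlf, hlD⟩ := Nat.Prime.not_coprime_iff_dvd.1 hf
  obtain ⟨i, hi⟩ := hu.2 l hl hlD
  apply hi
  have h1 : (l : ℤ) ∣ X i := (Int.natCast_dvd_natCast.2 hlf).trans (hfX i)
  have h2 : (l : ℤ) ∣ X i - u i := (Int.natCast_dvd_natCast.2 hlD).trans (hX.2 i)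
  have h3 := dvd_sub h1 h2
  simpa using h3

lemma Af_eq (n D : ℕ) (u : Fin 4 → ℤ) (f : ℕ) (hf : f ^ 2 ∣ n) (hf0 : 0 < f) (m r : ℤ) (hm : m * f + r * D = 1) :
    Af n D u f = (repsc (n / f ^ 2) D (fun i => m * u i)).card := by
  unfold Af
  obtain ⟨t, rfl⟩ := hf
  have hf2 : 0 < f ^ 2 := by positivity
  rw [Nat.mul_div_cancel_left _ hf2]
  have hfz : (f : ℤ) ≠ 0 := by exact_mod_cast hf0.ne'
  refine Finset.card_nbij' (fun X i => X i / f) (fun Y i => f * Y i) ?_ ?_ ?_ ?_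
  · intro X hX
    rw [Finset.mem_coe, Finset.mem_filter, mem_repsc] at hX
    obtain ⟨⟨h1, h2⟩, h3⟩ := hX
    rw [Finset.mem_coe, mem_repsc]
    have h4 : ∀ i, X i = f * (X i / f) := fun i => (Int.mul_ediv_cancel' (h3 i)).symm
    constructor
    · have h5 : (f : ℤ) ^ 2 * ∑ i, (X i / f) ^ 2 = (f : ℤ) ^ 2 * t := by
        rw [Finset.mul_sum]
        have h6 : ∑ i, (f : ℤ) ^ 2 * (X i / f) ^ 2 = ∑ i, X i ^ 2 := by
          apply Finset.sum_congr rfl
          intro i _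
          conv_rhs => rw [h4 i]
          ring
        rw [h6, h1]
        push_cast
        ring
      exact mul_left_cancel₀ (pow_ne_zero 2 hfz) h5
    · intro i
      obtain ⟨s, hs⟩ := h2 i
      refine ⟨m * s + r * (X i / f), ?_⟩
      have h5 := h4 i
      have h7 : X i / f - m * u i = (m * f + r * D) * (X i / f) - m * u i := by rw [hm, one_mul]
      rw [h7]
      linear_combination m * hs - m * h5
  · intro Y hY
    rw [Finset.mem_coe, mem_repsc] at hY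
    rw [Finset.mem_coe, Finset.mem_filter, mem_repsc]
    obtain ⟨h1, h2⟩ := hY
    refine ⟨⟨?_, ?_⟩, fun i => dvd_mul_right _ _⟩
    · have : ∑ i, ((f : ℤ) * Y i) ^ 2 = (f : ℤ) ^ 2 * ∑ i, Y i ^ 2 := by
        rw [Finset.mul_sum]
        apply Finset.sum_congr rfl
        intro i _
        ring
      rw [this, h1]
      push_cast
      ring
    · intro i
      obtain ⟨s, hs⟩ := h2 i
      refine ⟨f * s - r * u i, ?_⟩
      linear_combination f * hs + u i * hm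
  · intro X hX
    rw [Finset.mem_coe, Finset.mem_filter] at hX
    funext i
    exact Int.mul_ediv_cancel' (hX.2 i)
  · intro Y _
    funext i
    exact Int.mul_ediv_cancel_left _ hfz

lemma good_scale (n D : ℕ) (u : Fin 4 → ℤ) (hu : Good n D u) (f : ℕ) (hf : f ^ 2 ∣ n) (m r : ℤ) (hm : m * f + r * D = 1) :
    Good (n / f ^ 2) D (fun i => m * u i) := by
  by_cases hf0 : f = 0
  · subst hf0
    have hn : n = 0 := by simpa using hf
    subst hn
    have hD : (D : ℤ) ∣ 1 := ⟨r, by linear_combination (norm := (push_cast; ring_nf)) -hm⟩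
    refine ⟨(hD.trans (one_dvd _)), ?_⟩
    intro l hl hlD
    exfalso
    have : (l : ℤ) ∣ 1 := (Int.natCast_dvd_natCast.2 hlD).trans hD
    have h2 : l ∣ 1 := by exact_mod_cast this
    exact hl.one_lt.ne' (Nat.dvd_one.1 h2)
  obtain ⟨t, ht⟩ := hf
  have hf2 : 0 < f ^ 2 := by positivity
  have hnt : n / f ^ 2 = t := by rw [ht, Nat.mul_div_cancel_left _ hf2]
  rw [hnt]
  obtain ⟨h1, h2⟩ := hu
  constructor
  · obtain ⟨s, hs⟩ := h1
    have e1 : ∑ i, (m * u i) ^ 2 = m ^ 2 * ∑ i, u i ^ 2 := by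
      rw [Finset.mul_sum]
      apply Finset.sum_congr rfl
      intro i _
      ring
    have e2 : (n : ℤ) = (f : ℤ) ^ 2 * t := by rw [ht]; push_cast; ring
    rw [e2] at hs
    have e3 : ∑ i, u i ^ 2 = (f : ℤ) ^ 2 * t + D * s := by linarith
    -- m² (f² t + D s) - t = ((mf)² - 1) t + D m² s, (mf)² - 1 = (mf-1)(mf+1) = -rD (mf+1)
    refine ⟨m ^ 2 * s - r * (m * f + 1) * t, ?_⟩
    rw [e1, e3]
    linear_combination (m * f + 1) * t * hm
  · intro l hl hlD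
    obtain ⟨i, hi⟩ := h2 l hl hlD
    refine ⟨i, fun h3 => hi ?_⟩
    have hlp : Prime (l : ℤ) := Nat.prime_iff_prime_int.1 hl
    rcases hlp.dvd_or_dvd h3 with h4 | h4
    · exfalso
      have h5 : (l : ℤ) ∣ 1 := by
        rw [← hm]
        exact dvd_add (h4.mul_right _) ((Int.natCast_dvd_natCast.2 hlD).mul_left _)
      exact hlp.not_isUnit (isUnit_of_dvd_one h5)
    · exact h4

lemma sum_f_bound (n : ℕ) : ∑ f ∈ (Icc 1 n).filter (fun f => f ^ 2 ∣ n), (((n / f ^ 2 : ℕ) : ℝ)) ^ (19 / 20 : ℝ) ≤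
    (∑' f : ℕ, 1 / ((f : ℝ) ^ (19 / 10 : ℝ))) * (n : ℝ) ^ (19 / 20 : ℝ) := by
  have hs : Summable (fun f : ℕ => 1 / ((f : ℝ) ^ (19 / 10 : ℝ))) := Real.summable_one_div_nat_rpow.2 (by norm_num)
  have h1 : ∀ f ∈ (Icc 1 n).filter (fun f => f ^ 2 ∣ n), (((n / f ^ 2 : ℕ) : ℝ)) ^ (19 / 20 : ℝ) =
      1 / ((f : ℝ) ^ (19 / 10 : ℝ)) * (n : ℝ) ^ (19 / 20 : ℝ) := by
    intro f hf
    rw [Finset.mem_filter, Finset.mem_Icc] at hf
    have hf0 : (0 : ℝ) < f := by exact_mod_cast hf.1.1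
    have hf2 : ((f ^ 2 : ℕ) : ℝ) ≠ 0 := by
      push_cast
      exact pow_ne_zero 2 hf0.ne'
    rw [Nat.cast_div hf.2 hf2, Real.div_rpow (by positivity) (by positivity)]
    push_cast
    have : ((f : ℝ) ^ 2) ^ (19 / 20 : ℝ) = (f : ℝ) ^ (19 / 10 : ℝ) := by
      rw [← Real.rpow_natCast, ← Real.rpow_mul hf0.le]
      norm_num
    rw [this]
    ring
  rw [Finset.sum_congr rfl h1, ← Finset.sum_mul]
  apply mul_le_mul_of_nonneg_right _ (by positivity)
  exact hs.sum_le_tsum _ (fun f _ => by positivity)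

/-- **primitive representations are equidistributed over the good classes** -/
theorem prim_bound : ∃ C : ℝ, 0 < C ∧ ∀ (n D : ℕ), 1 ≤ n → 0 < D → Odd D → Squarefree D →
    ∀ u u' : Fin 4 → ℤ, Good n D u → Good n D u' →
      |((prc n D u).card : ℝ) - (prc n D u').card| ≤ C * (D : ℝ) ^ 11 * (n : ℝ) ^ (19 / 20 : ℝ) := by
  obtain ⟨C, hC, h⟩ := class_bound
  have hs : Summable (fun f : ℕ => 1 / ((f : ℝ) ^ (19 / 10 : ℝ))) := Real.summable_one_div_nat_rpow.2 (by norm_num)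
  have hs0 : 0 < ∑' f : ℕ, 1 / ((f : ℝ) ^ (19 / 10 : ℝ)) := by
    apply hs.tsum_pos (fun f => by positivity) 1
    norm_num
  refine ⟨C * ∑' f : ℕ, 1 / ((f : ℝ) ^ (19 / 10 : ℝ)), by positivity, ?_⟩
  intro n D hn hD hDo hDs u u' hu hu'
  have e1 : ((prc n D u).card : ℝ) = ∑ f ∈ (Icc 1 n).filter (fun f => f ^ 2 ∣ n),
      ((ArithmeticFunction.moebius f : ℤ) : ℝ) * (Af n D u f : ℝ) := by
    have := prc_card n D hn u
    have h2 : (((prc n D u).card : ℤ) : ℝ) = ((∑ f ∈ (Icc 1 n).filter (fun f => f ^ 2 ∣ n),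
      (ArithmeticFunction.moebius f : ℤ) * (Af n D u f : ℤ) : ℤ) : ℝ) := by rw [this]
    push_cast at h2
    exact h2
  have e2 : ((prc n D u').card : ℝ) = ∑ f ∈ (Icc 1 n).filter (fun f => f ^ 2 ∣ n),
      ((ArithmeticFunction.moebius f : ℤ) : ℝ) * (Af n D u' f : ℝ) := by
    have := prc_card n D hn u'
    have h2 : (((prc n D u').card : ℤ) : ℝ) = ((∑ f ∈ (Icc 1 n).filter (fun f => f ^ 2 ∣ n),
      (ArithmeticFunction.moebius f : ℤ) * (Af n D u' f : ℤ) : ℤ) : ℝ) := by rw [this]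
    push_cast at h2
    exact h2
  rw [e1, e2, ← Finset.sum_sub_distrib]
  refine (Finset.abs_sum_le_sum_abs _ _).trans ?_
  have hpt : ∀ f ∈ (Icc 1 n).filter (fun f => f ^ 2 ∣ n),
      |((ArithmeticFunction.moebius f : ℤ) : ℝ) * (Af n D u f : ℝ) - ((ArithmeticFunction.moebius f : ℤ) : ℝ) * (Af n D u' f : ℝ)| ≤
      C * (D : ℝ) ^ 11 * (((n / f ^ 2 : ℕ) : ℝ)) ^ (19 / 20 : ℝ) := by
    intro f hf
    rw [Finset.mem_filter, Finset.mem_Icc] at hf
    obtain ⟨⟨hf1, hf2⟩, hf3⟩ := hf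
    rw [← mul_sub, abs_mul]
    have hμ : |((ArithmeticFunction.moebius f : ℤ) : ℝ)| ≤ 1 := by
      have := ArithmeticFunction.abs_moebius_le_one (n := f)
      exact_mod_cast this
    have hR : |(Af n D u f : ℝ) - (Af n D u' f : ℝ)| ≤ C * (D : ℝ) ^ 11 * (((n / f ^ 2 : ℕ) : ℝ)) ^ (19 / 20 : ℝ) := by
      by_cases hcop : Nat.Coprime f D
      · obtain ⟨m, r, hm⟩ := Nat.isCoprime_iff_coprime.2 hcop
        rw [Af_eq n D u f hf3 (by omega) m r hm, Af_eq n D u' f hf3 (by omega) m r hm]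
        apply h (n / f ^ 2) D _ hD hDo hDs _ _ (good_scale n D u hu f hf3 m r hm) (good_scale n D u' hu' f hf3 m r hm)
        exact Nat.div_pos (Nat.le_of_dvd (by omega) hf3) (by positivity)
      · rw [Af_zero n D u hu f hcop, Af_zero n D u' hu' f hcop]
        simp
        positivity
    calc _ ≤ 1 * |(Af n D u f : ℝ) - (Af n D u' f : ℝ)| := by gcongr
      _ ≤ _ := by rw [one_mul]; exact hR
  refine (Finset.sum_le_sum hpt).trans ?_
  rw [← Finset.mul_sum]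
  calc _ ≤ C * (D : ℝ) ^ 11 * ((∑' f : ℕ, 1 / ((f : ℝ) ^ (19 / 10 : ℝ))) * (n : ℝ) ^ (19 / 20 : ℝ)) := by
        have := sum_f_bound n
        gcongr
    _ = _ := by ring

end Pool.Agent.W65.FS
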