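import Pool.Agent.W65.FS.Mink
import Pool.Agent.W65.FS.Prim
import Pool.Agent.H510R2.Div

/-!
# Lower bound for the number of primitive representations
-/

set_option autoImplicit false
open Finset

namespace Pool.Agent.W65.FS

lemma lam_prim (n : ℕ) (hn : 0 < n) (a b : ℤ) (hab : (n : ℤ) ∣ a ^ 2 + b ^ 2 + 1) (x y z w : ℤ)
    (hX : x ^ 2 + y ^ 2 + z ^ 2 + w ^ 2 = n) (hz : (n : ℤ) ∣ z - (a * x + b * y)) (hw : (n : ℤ) ∣ w - (b * x - a * y))
    (l : ℕ) (hl : l.Prime) : ¬ ((l : ℤ) ∣ x ∧ (l : ℤ) ∣ y ∧ (l : ℤ) ∣ z ∧ (l : ℤ) ∣ w) := by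
  rintro ⟨⟨x', rfl⟩, ⟨y', rfl⟩, ⟨z', rfl⟩, ⟨w', rfl⟩⟩
  have hl0 : (l : ℤ) ≠ 0 := by exact_mod_cast hl.ne_zero
  set t : ℤ := x' ^ 2 + y' ^ 2 + z' ^ 2 + w' ^ 2 with ht
  have hnt : (n : ℤ) = l ^ 2 * t := by rw [← hX, ht]; ring
  have hnz : (n : ℤ) ≠ 0 := by exact_mod_cast hn.ne'
  have ht0 : t ≠ 0 := by
    intro h0
    rw [h0, mul_zero] at hnt
    exact hnz hnt
  have hz' : (l : ℤ) * t ∣ z' - (a * x' + b * y') := by
    obtain ⟨s, hs⟩ := hz
    refine ⟨s, ?_⟩
    apply mul_left_cancel₀ hl0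
    rw [hnt] at hs
    linear_combination hs
  have hw' : (l : ℤ) * t ∣ w' - (b * x' - a * y') := by
    obtain ⟨s, hs⟩ := hw
    refine ⟨s, ?_⟩
    apply mul_left_cancel₀ hl0
    rw [hnt] at hs
    linear_combination hs
  have hab' : (l : ℤ) * t ∣ a ^ 2 + b ^ 2 + 1 := by
    refine Dvd.dvd.trans ?_ hab
    rw [hnt]
    exact ⟨l, by ring⟩
  have h1 : (l : ℤ) * t ∣ t := by
    obtain ⟨s1, hs1⟩ := hz'
    obtain ⟨s2, hs2⟩ := hw'
    obtain ⟨s3, hs3⟩ := hab'
    have e1 : z' = a * x' + b * y' + l * t * s1 := by linarith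
    have e2 : w' = b * x' - a * y' + l * t * s2 := by linarith
    refine ⟨s3 * (x' ^ 2 + y' ^ 2) + 2 * (a * x' + b * y') * s1 + l * t * s1 ^ 2 +
      2 * (b * x' - a * y') * s2 + l * t * s2 ^ 2, ?_⟩
    have e3 : t = x' ^ 2 + y' ^ 2 + z' ^ 2 + w' ^ 2 := ht
    rw [e1, e2] at e3
    linear_combination e3 + (x' ^ 2 + y' ^ 2) * hs3
  obtain ⟨s, hs⟩ := h1
  have h2 : (l : ℤ) * s = 1 := by
    apply mul_left_cancel₀ ht0
    linear_combination -hs
  have h3 : (l : ℤ) ∣ 1 := ⟨s, h2.symm⟩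
  exact (Nat.prime_iff_prime_int.1 hl).not_isUnit (isUnit_of_dvd_one h3)

lemma half_dvd (n : ℕ) (hno : Odd n) (x : ℤ) (h : (n : ℤ) ∣ 2 * x) : (n : ℤ) ∣ x := by
  have : IsCoprime (n : ℤ) 2 := by
    have := Nat.isCoprime_iff_coprime.2 (Nat.coprime_two_right.2 hno)
    exact_mod_cast this
  exact this.dvd_of_dvd_mul_left h

lemma lam_unique (n : ℕ) (hn : 0 < n) (hno : Odd n) (a b a' b' : ℤ) (hab : (n : ℤ) ∣ a ^ 2 + b ^ 2 + 1)
    (hab' : (n : ℤ) ∣ a' ^ 2 + b' ^ 2 + 1) (x y z w : ℤ)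
    (hX : x ^ 2 + y ^ 2 + z ^ 2 + w ^ 2 = n) (hz : (n : ℤ) ∣ z - (a * x + b * y)) (hw : (n : ℤ) ∣ w - (b * x - a * y))
    (hz' : (n : ℤ) ∣ z - (a' * x + b' * y)) (hw' : (n : ℤ) ∣ w - (b' * x - a' * y)) :
    (n : ℤ) ∣ a - a' ∧ (n : ℤ) ∣ b - b' := by
  -- work in ZMod n
  have cast : ∀ k : ℤ, (n : ℤ) ∣ k → (k : ZMod n) = 0 := fun k hk => (ZMod.intCast_zmod_eq_zero_iff_dvd k n).2 hk
  have e0 := cast _ hab
  have e0' := cast _ hab'
  have e1 := cast _ hz
  have e2 := cast _ hw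
  have e3 := cast _ hz'
  have e4 := cast _ hw'
  push_cast at e0 e0' e1 e2 e3 e4
  have h2 : ∀ r : ZMod n, 2 * r = 0 → r = 0 := by
    intro r hr
    have hu : IsUnit (2 : ZMod n) := by
      have := (ZMod.isUnit_iff_coprime 2 n).2 ((Nat.coprime_two_left).2 hno)
      exact_mod_cast this
    exact (hu.mul_right_eq_zero).1 hr
  set A : ZMod n := ((a : ℤ) : ZMod n)
  set B : ZMod n := ((b : ℤ) : ZMod n)
  set A' : ZMod n := ((a' : ℤ) : ZMod n)
  set B' : ZMod n := ((b' : ℤ) : ZMod n)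
  set X : ZMod n := ((x : ℤ) : ZMod n)
  set Y : ZMod n := ((y : ℤ) : ZMod n)
  set Z : ZMod n := ((z : ℤ) : ZMod n)
  set W : ZMod n := ((w : ℤ) : ZMod n)
  have key : ∀ α β : ZMod n, α * X + β * Y = 0 → β * X - α * Y = 0 → α * Z + β * W = 0 → β * Z - α * W = 0 →
      α * X ^ 2 = 0 ∧ α * Y ^ 2 = 0 := by
    intro α β f1 f2 f3 f4
    have g1 : α * (X ^ 2 + Y ^ 2) = 0 := by linear_combination X * f1 - Y * f2
    have g2 : 2 * (α * (X * Z + Y * W)) = 0 := by
      linear_combination X * f3 + Z * f1 - W * f2 - Y * f4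
    have g2' := h2 _ g2
    have g3 : 2 * (α * (X * W - Y * Z)) = 0 := by
      linear_combination W * f1 - X * f4 + Z * f2 - Y * f3
    have g3' := h2 _ g3
    -- substitute Z = A X + B Y, W = B X - A Y
    have g4 : α * (X ^ 2 - Y ^ 2) = 0 := by
      have q1 : Z = A * X + B * Y := by linear_combination e1
      have q2 : W = B * X - A * Y := by linear_combination e2
      rw [q1, q2] at g2' g3'
      linear_combination (-A) * g2' - B * g3' + α * (X ^ 2 - Y ^ 2) * e0
    constructor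
    · apply h2
      linear_combination g1 + g4
    · apply h2
      linear_combination g1 - g4
  have f1 : (A - A') * X + (B - B') * Y = 0 := by linear_combination e3 - e1
  have f2 : (B - B') * X - (A - A') * Y = 0 := by linear_combination e4 - e2
  have f3 : (A - A') * Z + (B - B') * W = 0 := by
    linear_combination A * e1 + B * e2 - A' * e3 - B' * e4 + X * e0 - X * e0'
  have f4 : (B - B') * Z - (A - A') * W = 0 := by
    linear_combination B * e1 - A * e2 - B' * e3 + A' * e4 + Y * e0 - Y * e0'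
  obtain ⟨k1, k2⟩ := key (A - A') (B - B') f1 f2 f3 f4
  have hm := key (B - B') (-(A - A')) (by linear_combination f2) (by linear_combination -f1) (by linear_combination f4)
    (by linear_combination -f3)
  obtain ⟨k3, k4⟩ := hm
  -- coprimality
  have hcop : IsCoprime (n : ℤ) (Int.gcd (x ^ 2) (y ^ 2) : ℤ) := by
    rw [Nat.isCoprime_iff_coprime]
    apply Nat.coprime_of_dvd
    intro l hl hln hld
    have hlp : Prime (l : ℤ) := Nat.prime_iff_prime_int.1 hl
    have hx : (l : ℤ) ∣ x := hlp.dvd_of_dvd_pow ((Int.natCast_dvd_natCast.2 hld).trans (Int.gcd_dvd_left ..))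
    have hy : (l : ℤ) ∣ y := hlp.dvd_of_dvd_pow ((Int.natCast_dvd_natCast.2 hld).trans (Int.gcd_dvd_right ..))
    have hln' : (l : ℤ) ∣ (n : ℤ) := Int.natCast_dvd_natCast.2 hln
    have hz1 : (l : ℤ) ∣ z := by
      have := dvd_add (hln'.trans hz) (dvd_add (hx.mul_left a) (hy.mul_left b))
      have h3 : z - (a * x + b * y) + (a * x + b * y) = z := by ring
      rwa [h3] at this
    have hw1 : (l : ℤ) ∣ w := by
      have := dvd_add (hln'.trans hw) (dvd_sub (hx.mul_left b) (hy.mul_left a))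
      have h3 : w - (b * x - a * y) + (b * x - a * y) = w := by ring
      rwa [h3] at this
    exact lam_prim n hn a b hab x y z w hX hz hw l hl ⟨hx, hy, hz1, hw1⟩
  have fin : ∀ α : ℤ, (n : ℤ) ∣ α * x ^ 2 → (n : ℤ) ∣ α * y ^ 2 → (n : ℤ) ∣ α := by
    intro α h1 h3
    apply hcop.dvd_of_dvd_mul_right
    rw [Int.gcd_eq_gcd_ab]
    have := dvd_add (h1.mul_right (Int.gcdA (x ^ 2) (y ^ 2))) (h3.mul_right (Int.gcdB (x ^ 2) (y ^ 2)))
    have e5 : α * x ^ 2 * Int.gcdA (x ^ 2) (y ^ 2) + α * y ^ 2 * Int.gcdB (x ^ 2) (y ^ 2) =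
      α * (x ^ 2 * Int.gcdA (x ^ 2) (y ^ 2) + y ^ 2 * Int.gcdB (x ^ 2) (y ^ 2)) := by ring
    rwa [e5] at this
  have back : ∀ k : ℤ, (k : ZMod n) = 0 → (n : ℤ) ∣ k := fun k hk => (ZMod.intCast_zmod_eq_zero_iff_dvd k n).1 hk
  constructor
  · apply fin
    · apply back; push_cast; exact k1
    · apply back; push_cast; exact k2
  · apply fin
    · apply back; push_cast; exact k3
    · apply back; push_cast; exact k4

/-- primitive representations -/
noncomputable def preps (n : ℕ) : Finset (Fin 4 → ℤ) := (reps n).filter (fun X => gc X = 1)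

/-- solutions of `a² + b² = -1` -/
def Sol (n : ℕ) [NeZero n] : Finset (ZMod n × ZMod n) := univ.filter (fun p => p.1 ^ 2 + p.2 ^ 2 = -1)

lemma sol_le (n : ℕ) [NeZero n] (hno : Odd n) : (Sol n).card ≤ (preps n).card := by
  classical
  have hn : 0 < n := Nat.pos_of_ne_zero (NeZero.ne n)
  have hdiv : ∀ p ∈ Sol n, (n : ℤ) ∣ (p.1.val : ℤ) ^ 2 + (p.2.val : ℤ) ^ 2 + 1 := by
    intro p hp
    rw [Sol, Finset.mem_filter] at hp
    rw [← ZMod.intCast_zmod_eq_zero_iff_dvd]
    push_cast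
    rw [ZMod.natCast_zmod_val, ZMod.natCast_zmod_val, hp.2]
    ring
  have hex : ∀ p : ZMod n × ZMod n, ∃ X : Fin 4 → ℤ, p ∈ Sol n →
      (X 0 ^ 2 + X 1 ^ 2 + X 2 ^ 2 + X 3 ^ 2 = n ∧
      (n : ℤ) ∣ X 2 - ((p.1.val : ℤ) * X 0 + (p.2.val : ℤ) * X 1) ∧
      (n : ℤ) ∣ X 3 - ((p.2.val : ℤ) * X 0 - (p.1.val : ℤ) * X 1)) := by
    intro p
    by_cases hp : p ∈ Sol n
    · obtain ⟨x, y, z, w, h1, h2, h3⟩ := exists_vector n hn _ _ (hdiv p hp)
      exact ⟨![x, y, z, w], fun _ => ⟨by simpa using h1, by simpa using h2, by simpa using h3⟩⟩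
    · exact ⟨0, fun h => absurd h hp⟩
  choose X hXp using hex
  apply Finset.card_le_card_of_injOn X
  · intro p hp
    have hp' : p ∈ Sol n := hp
    obtain ⟨h1, h2, h3⟩ := hXp p hp'
    rw [Finset.mem_coe, preps, Finset.mem_filter, mem_reps, Fin.sum_univ_four]
    refine ⟨h1, ?_⟩
    by_contra hne
    obtain ⟨l, hl, hld⟩ := Nat.exists_prime_and_dvd hne
    have h4 := (dvd_gc l (X p)).1 hld
    exact lam_prim n hn _ _ (hdiv p hp') _ _ _ _ h1 h2 h3 l hl ⟨h4 0, h4 1, h4 2, h4 3⟩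
  · intro p hp q hq hpq
    have hp' : p ∈ Sol n := hp
    have hq' : q ∈ Sol n := hq
    obtain ⟨h1, h2, h3⟩ := hXp p hp'
    obtain ⟨_, h5, h6⟩ := hXp q hq'
    have hpq' : X p = X q := hpq
    rw [← hpq'] at h5 h6
    obtain ⟨h7, h8⟩ := lam_unique n hn hno _ _ _ _ (hdiv p hp') (hdiv q hq') _ _ _ _ h1 h2 h3 h5 h6
    have c1 := (ZMod.intCast_zmod_eq_zero_iff_dvd _ n).2 h7
    have c2 := (ZMod.intCast_zmod_eq_zero_iff_dvd _ n).2 h8
    push_cast at c1 c2
    rw [ZMod.natCast_zmod_val, ZMod.natCast_zmod_val] at c1 c2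
    exact Prod.ext (sub_eq_zero.1 c1) (sub_eq_zero.1 c2)

/-- the parametrising set -/
noncomputable def Fset (n : ℕ) [NeZero n] : Finset (ZMod n) := by
  classical
  exact univ.filter (fun t => IsUnit (1 + t ^ 2))

lemma mem_Fset (n : ℕ) [NeZero n] (t : ZMod n) : t ∈ Fset n ↔ IsUnit (1 + t ^ 2) := by
  unfold Fset
  simp

lemma Fset_le (n : ℕ) [NeZero n] (hno : Odd n) : (Fset n).card ≤ (Sol n).card := by
  classical
  obtain ⟨a0, b0, hab⟩ := exists_neg_one_zmod n hno
  have hu2 : IsUnit (2 : ZMod n) := by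
    have := (ZMod.isUnit_iff_coprime 2 n).2 ((Nat.coprime_two_left).2 hno)
    exact_mod_cast this
  set s : ZMod n → ZMod n := fun t => (1 - t ^ 2) * (1 + t ^ 2)⁻¹ with hs
  set u : ZMod n → ZMod n := fun t => 2 * t * (1 + t ^ 2)⁻¹ with hu
  apply Finset.card_le_card_of_injOn (fun t => (a0 * s t - b0 * u t, a0 * u t + b0 * s t))
  · intro t ht
    have ht' := (mem_Fset n t).1 ht
    have hi := ZMod.mul_inv_of_unit _ ht'
    rw [Finset.mem_coe, Sol, Finset.mem_filter]
    refine ⟨mem_univ _, ?_⟩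
    have h1 : s t ^ 2 + u t ^ 2 = 1 := by
      rw [hs, hu]
      simp only
      have : ((1 - t ^ 2) * (1 + t ^ 2)⁻¹) ^ 2 + (2 * t * (1 + t ^ 2)⁻¹) ^ 2 = ((1 + t ^ 2) * (1 + t ^ 2)⁻¹) ^ 2 := by ring
      rw [this, hi, one_pow]
    show (a0 * s t - b0 * u t) ^ 2 + (a0 * u t + b0 * s t) ^ 2 = -1
    linear_combination (s t ^ 2 + u t ^ 2) * hab - h1
  · intro t ht t' ht' heq
    have h1 := (mem_Fset n t).1 ht
    have h2 := (mem_Fset n t').1 ht'
    have i1 := ZMod.mul_inv_of_unit _ h1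
    have i2 := ZMod.mul_inv_of_unit _ h2
    simp only [Prod.mk.injEq] at heq
    obtain ⟨q1, q2⟩ := heq
    have r1 : s t = s t' := by
      linear_combination (-a0) * q1 - b0 * q2 + (s t - s t') * hab
    have r2 : u t = u t' := by
      linear_combination b0 * q1 - a0 * q2 + (u t - u t') * hab
    -- t = u / (1 + s)
    have p1 : (1 + s t) * t = u t := by
      rw [hs, hu]
      simp only
      linear_combination (-t) * i1
    have p2 : (1 + s t') * t' = u t' := by
      rw [hs, hu]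
      simp only
      linear_combination (-t') * i2
    have p3 : (1 + s t) * (1 + t ^ 2) = 2 := by
      rw [hs]
      simp only
      linear_combination (1 - t ^ 2) * i1
    have hus : IsUnit (1 + s t) := by
      apply isUnit_of_mul_isUnit_left (y := 1 + t ^ 2)
      rw [p3]
      exact hu2
    have : (1 + s t) * (t - t') = 0 := by
      rw [← r1, ← r2] at p2
      linear_combination p1 - p2
    exact sub_eq_zero.1 ((hus.mul_right_eq_zero).1 this)

lemma Fset_mul (m n : ℕ) [NeZero m] [NeZero n] [NeZero (m * n)] (h : Nat.Coprime m n) :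
    (Fset (m * n)).card = (Fset m).card * (Fset n).card := by
  classical
  rw [← Finset.card_product]
  apply Finset.card_equiv (ZMod.chineseRemainder h).toEquiv
  intro t
  rw [Finset.mem_product, mem_Fset, mem_Fset, mem_Fset]
  have h1 : IsUnit (1 + t ^ 2) ↔ IsUnit (ZMod.chineseRemainder h (1 + t ^ 2)) :=
    (MulEquiv.isUnit_map (ZMod.chineseRemainder h).toMulEquiv).symm
  rw [h1, map_add, map_one, map_pow, Prod.isUnit_iff]
  rfl

lemma Fset_prime_pow (p k : ℕ) (hp : p.Prime) (hp2 : p ≠ 2) (hk : 1 ≤ k) [NeZero (p ^ k)] :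
    p ^ k ≤ 3 * (Fset (p ^ k)).card := by
  classical
  have : NeZero p := ⟨hp.ne_zero⟩
  have : Fact p.Prime := ⟨hp⟩
  have hp3 : 3 ≤ p := by
    have := hp.two_le
    omega
  set R : Finset (ZMod p) := univ.filter (fun x => x ^ 2 = -1) with hR
  have hRc : R.card ≤ 2 := by
    by_cases hne : R.Nonempty
    · obtain ⟨x, hx⟩ := hne
      have hx' : x ^ 2 = -1 := (Finset.mem_filter.1 hx).2
      have : R ⊆ {x, -x} := by
        intro y hy
        have hy' : y ^ 2 = -1 := (Finset.mem_filter.1 hy).2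
        have : (y - x) * (y + x) = 0 := by linear_combination hy' - hx'
        rcases mul_eq_zero.1 this with h | h
        · rw [Finset.mem_insert]; left; exact sub_eq_zero.1 h
        · rw [Finset.mem_insert, Finset.mem_singleton]; right; exact eq_neg_of_add_eq_zero_left h
      exact (Finset.card_le_card this).trans Finset.card_le_two
    · rw [Finset.not_nonempty_iff_eq_empty.1 hne]; simp
  have hbad : (univ.filter (fun t : ZMod (p ^ k) => t ∉ Fset (p ^ k))).card ≤ p ^ (k - 1) * R.card := by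
    rw [← Finset.card_range (p ^ (k - 1)), ← Finset.card_product]
    apply Finset.card_le_card_of_injOn (fun t : ZMod (p ^ k) => (t.val / p, ((t.val : ℕ) : ZMod p)))
    · intro t ht
      rw [Finset.mem_coe, Finset.mem_filter] at ht
      have ht2 : ¬ IsUnit (1 + t ^ 2) := fun h => ht.2 ((mem_Fset _ t).2 h)
      rw [Finset.mem_coe, Finset.mem_product, Finset.mem_range]
      constructor
      · have h1 := ZMod.val_lt t
        have h2 : p ^ k = p * p ^ (k - 1) := by
          rw [← pow_succ']; congr 1; omega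
        exact Nat.div_lt_of_lt_mul (lt_of_lt_of_eq h1 h2)
      · rw [hR, Finset.mem_filter]
        refine ⟨mem_univ _, ?_⟩
        have h3 : (1 + t ^ 2 : ZMod (p ^ k)) = ((1 + t.val ^ 2 : ℕ) : ZMod (p ^ k)) := by
          push_cast
          rw [ZMod.natCast_zmod_val]
        rw [h3, ZMod.isUnit_iff_coprime, Nat.coprime_pow_right_iff (by omega), Nat.coprime_comm,
          hp.coprime_iff_not_dvd, not_not] at ht2
        have h4 := (ZMod.natCast_eq_zero_iff _ _).2 ht2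
        push_cast at h4
        show ((t.val : ℕ) : ZMod p) ^ 2 = -1
        linear_combination h4
    · intro t _ t' _ heq
      simp only [Prod.mk.injEq] at heq
      obtain ⟨h1, h2⟩ := heq
      rw [ZMod.natCast_eq_natCast_iff] at h2
      have h3 : t.val % p = t'.val % p := h2
      have h4 : t.val = t'.val := by
        rw [← Nat.div_add_mod t.val p, ← Nat.div_add_mod t'.val p, h1, h3]
      exact ZMod.val_injective _ h4
  have htot : (Fset (p ^ k)).card + (univ.filter (fun t : ZMod (p ^ k) => t ∉ Fset (p ^ k))).card = p ^ k := by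
    have h1 : (univ.filter (fun t : ZMod (p ^ k) => t ∈ Fset (p ^ k))) = Fset (p ^ k) := by ext; simp
    have h2 := Finset.card_filter_add_card_filter_not (s := (univ : Finset (ZMod (p ^ k)))) (fun t => t ∈ Fset (p ^ k))
    rw [h1, Finset.card_univ, ZMod.card] at h2
    exact h2
  have h5 : p ^ k = p * p ^ (k - 1) := by
    rw [← pow_succ']; congr 1; omega
  have h6 : p ^ (k - 1) * R.card ≤ p ^ (k - 1) * 2 := Nat.mul_le_mul_left _ hRc
  have h7 : 3 * p ^ (k - 1) ≤ p * p ^ (k - 1) := Nat.mul_le_mul_right _ hp3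
  omega

lemma Fset_lower (n : ℕ) : ∀ [NeZero n], Odd n → n ≤ (Fset n).card * n.divisors.card ^ 2 := by
  induction n using Nat.recOnPosPrimePosCoprime with
  | prime_pow p k hp hk =>
    intro _ ho
    have hp2 : p ≠ 2 := by
      rintro rfl
      have : Even (2 ^ k) := (Nat.even_pow.2 ⟨even_two, by omega⟩)
      exact (Nat.not_even_iff_odd.2 ho) this
    have h1 := Fset_prime_pow p k hp hp2 hk
    rw [Nat.divisors_prime_pow hp, Finset.card_map, Finset.card_range]
    have h2 : 3 ≤ (k + 1) ^ 2 := by nlinarith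
    calc p ^ k ≤ 3 * (Fset (p ^ k)).card := h1
      _ ≤ (k + 1) ^ 2 * (Fset (p ^ k)).card := Nat.mul_le_mul_right _ h2
      _ = _ := by ring
  | zero => intro h; exact absurd rfl h.out
  | one =>
    intro _ _
    have : (Fset 1).card = 1 := by
      rw [Finset.card_eq_one]
      refine ⟨0, ?_⟩
      ext t
      rw [mem_Fset, Finset.mem_singleton]
      have h1 : t = 0 := Subsingleton.elim _ _
      simp only [h1, iff_true]
      exact isUnit_of_subsingleton _
    rw [this]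
    simp
  | coprime a b ha hb hcop iha ihb =>
    intro _ ho
    have i1 : NeZero a := ⟨by omega⟩
    have i2 : NeZero b := ⟨by omega⟩
    have hoa : Odd a := (Nat.odd_mul.1 ho).1
    have hob : Odd b := (Nat.odd_mul.1 ho).2
    rw [Fset_mul a b hcop, hcop.card_divisors_mul]
    calc a * b ≤ ((Fset a).card * a.divisors.card ^ 2) * ((Fset b).card * b.divisors.card ^ 2) :=
          Nat.mul_le_mul (iha hoa) (ihb hob)
      _ = _ := by ring

/-- **lower bound for the number of primitive representations** -/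
theorem preps_lower (ε : ℝ) (hε : 0 < ε) : ∃ c : ℝ, 0 < c ∧ ∀ n : ℕ, Odd n → c * (n : ℝ) ^ (1 - ε) ≤ (preps n).card := by
  obtain ⟨C, hC, h⟩ := Pool.Agent.H510R2.divisor_bound (ε / 2) (by positivity)
  refine ⟨1 / C ^ 2, by positivity, ?_⟩
  intro n hno
  have hn : 0 < n := hno.pos
  have : NeZero n := ⟨hn.ne'⟩
  have hn0 : (0 : ℝ) < n := by exact_mod_cast hn
  have h1 : n ≤ (preps n).card * n.divisors.card ^ 2 :=
    (Fset_lower n hno).trans (Nat.mul_le_mul_right _ ((Fset_le n hno).trans (sol_le n hno)))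
  have h2 : (n : ℝ) ≤ (preps n).card * (n.divisors.card : ℝ) ^ 2 := by exact_mod_cast h1
  have h3 : (n.divisors.card : ℝ) ^ 2 ≤ C ^ 2 * (n : ℝ) ^ ε := by
    have := h n hn
    calc (n.divisors.card : ℝ) ^ 2 ≤ (C * (n : ℝ) ^ (ε / 2)) ^ 2 := by gcongr
      _ = C ^ 2 * ((n : ℝ) ^ (ε / 2) * (n : ℝ) ^ (ε / 2)) := by ring
      _ = _ := by rw [← Real.rpow_add hn0]; congr 2; ring
  have h4 : (n : ℝ) ≤ (preps n).card * (C ^ 2 * (n : ℝ) ^ ε) :=
    h2.trans (by gcongr)
  have h5 : (n : ℝ) = (n : ℝ) ^ (1 - ε) * (n : ℝ) ^ ε := by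
    rw [← Real.rpow_add hn0]; simp
  have h6 : 0 < (n : ℝ) ^ ε := Real.rpow_pos_of_pos hn0 _
  have h7 : (n : ℝ) ^ (1 - ε) ≤ (preps n).card * C ^ 2 := by
    apply le_of_mul_le_mul_right _ h6
    rw [← h5]
    linarith
  rw [one_div, inv_mul_le_iff₀ (by positivity)]
  linarith

end Pool.Agent.W65.FS
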