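import Mathlib

/-!
# A vector of norm exactly `n` in a sublattice of `ℤ⁴`
-/

set_option autoImplicit false
open Finset MeasureTheory

namespace Pool.Agent.W65.FS

lemma ball_volume (r : ℝ) (hr : 0 < r) :
    volume {x : Fin 4 → ℝ | ∑ i, x i ^ 2 < r ^ 2} = ENNReal.ofReal (r ^ 4 * (Real.pi ^ 2 / 2)) := by
  have h := MeasureTheory.volume_sum_rpow_lt (Fin 4) (p := 2) (by norm_num) r
  have hset : {x : Fin 4 → ℝ | (∑ i, |x i| ^ (2 : ℝ)) ^ (1 / (2 : ℝ)) < r} = {x : Fin 4 → ℝ | ∑ i, x i ^ 2 < r ^ 2} := by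
    ext x
    simp only [Set.mem_ofPred_eq]
    have h1 : ∑ i, |x i| ^ (2 : ℝ) = ∑ i, x i ^ 2 := by
      apply Finset.sum_congr rfl
      intro i _
      rw [Real.rpow_two, sq_abs]
    rw [h1, ← Real.sqrt_eq_rpow, Real.sqrt_lt' hr]
  rw [hset] at h
  rw [h]
  have hG : Real.Gamma (1 / 2 + 1) = Real.sqrt Real.pi / 2 := by
    rw [Real.Gamma_add_one (by norm_num), Real.Gamma_one_half_eq]
    ring
  have hG2 : Real.Gamma ((Fintype.card (Fin 4) : ℝ) / 2 + 1) = 2 := by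
    have : ((Fintype.card (Fin 4) : ℝ) / 2 + 1) = ((2 : ℕ) : ℝ) + 1 := by
      simp only [Fintype.card_fin]
      norm_num
    rw [this, Real.Gamma_nat_eq_factorial]
    norm_num [Nat.factorial]
  rw [hG, hG2, Fintype.card_fin, ← ENNReal.ofReal_pow hr.le, ← ENNReal.ofReal_mul (by positivity)]
  congr 1
  have : (2 * (Real.sqrt Real.pi / 2)) ^ 4 = Real.pi ^ 2 := by
    have h2 : Real.sqrt Real.pi ^ 2 = Real.pi := Real.sq_sqrt Real.pi_pos.le
    calc (2 * (Real.sqrt Real.pi / 2)) ^ 4 = (Real.sqrt Real.pi ^ 2) ^ 2 := by ring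
      _ = _ := by rw [h2]
  rw [this]

/-- a vector of norm `n` in the lattice attached to a solution of `a² + b² ≡ -1` -/
theorem exists_vector (n : ℕ) (hn : 0 < n) (a b : ℤ) (hab : (n : ℤ) ∣ a ^ 2 + b ^ 2 + 1) :
    ∃ x y z w : ℤ, x ^ 2 + y ^ 2 + z ^ 2 + w ^ 2 = n ∧ (n : ℤ) ∣ z - (a * x + b * y) ∧ (n : ℤ) ∣ w - (b * x - a * y) := by
  have hnr : (0 : ℝ) < n := by exact_mod_cast hn
  set M : Matrix (Fin 4) (Fin 4) ℝ := !![1, 0, (a : ℝ), b; 0, 1, b, -(a : ℝ); 0, 0, n, 0; 0, 0, 0, n] with hM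
  have hdet : M.det = (n : ℝ) ^ 2 := by
    rw [hM]
    simp [Matrix.det_succ_row_zero, Fin.sum_univ_succ]
    ring
  have hli : LinearIndependent ℝ M.row := Matrix.linearIndependent_rows_of_det_ne_zero (A := M) (by rw [hdet]; positivity)
  set B : Module.Basis (Fin 4) ℝ (Fin 4 → ℝ) := basisOfLinearIndependentOfCardEqFinrank hli (by simp) with hB
  have hBc : ⇑B = M.row := coe_basisOfLinearIndependentOfCardEqFinrank hli (by simp)
  have hBM : Matrix.of ⇑B = M := by rw [hBc]; rfl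
  have hvol := ZSpan.volume_fundamentalDomain B
  rw [hBM, hdet] at hvol
  have fund := ZSpan.isAddFundamentalDomain' B volume
  set r : ℝ := Real.sqrt (2 * n) with hr
  have hr0 : 0 < r := Real.sqrt_pos.2 (by positivity)
  have hr2 : r ^ 2 = 2 * n := Real.sq_sqrt (by positivity)
  set s : Set (Fin 4 → ℝ) := {x | ∑ i, x i ^ 2 < r ^ 2} with hs
  have hconv : Convex ℝ s := by
    intro x hx y hy p q hp hq hpq
    simp only [hs, Set.mem_ofPred_eq] at hx hy ⊢
    have h1 : ∀ i, (p • x + q • y) i ^ 2 ≤ p * x i ^ 2 + q * y i ^ 2 := by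
      intro i
      simp only [Pi.add_apply, Pi.smul_apply, smul_eq_mul]
      have hq' : q = 1 - p := by linarith
      subst hq'
      nlinarith [mul_nonneg (mul_nonneg hp hq) (sq_nonneg (x i - y i))]
    calc ∑ i, (p • x + q • y) i ^ 2 ≤ ∑ i, (p * x i ^ 2 + q * y i ^ 2) := Finset.sum_le_sum fun i _ => h1 i
      _ = p * ∑ i, x i ^ 2 + q * ∑ i, y i ^ 2 := by
        rw [Finset.sum_add_distrib, ← Finset.mul_sum, ← Finset.mul_sum]
      _ < r ^ 2 := by
        rcases hp.eq_or_lt with h0 | h0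
        · have : q = 1 := by linarith
          rw [← h0, this]; linarith
        · have : p * ∑ i, x i ^ 2 < p * r ^ 2 := by gcongr
          have h3 : q * ∑ i, y i ^ 2 ≤ q * r ^ 2 := by gcongr
          have : p * r ^ 2 + q * r ^ 2 = r ^ 2 := by rw [← add_mul, hpq, one_mul]
          linarith
  have hsymm : ∀ x ∈ s, -x ∈ s := by
    intro x hx
    simp only [hs, Set.mem_ofPred_eq, Pi.neg_apply, neg_sq] at hx ⊢
    exact hx
  have hmeas : volume (ZSpan.fundamentalDomain B) * 2 ^ Module.finrank ℝ (Fin 4 → ℝ) < volume s := by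
    rw [hvol, hs, ball_volume r hr0, Module.finrank_fin_fun]
    have e1 : (2 : ENNReal) ^ 4 = ENNReal.ofReal (2 ^ 4) := by
      rw [ENNReal.ofReal_pow (by norm_num)]
      simp
    rw [e1, ← ENNReal.ofReal_mul (abs_nonneg _)]
    have h4 : r ^ 4 = 4 * (n : ℝ) ^ 2 := by
      calc r ^ 4 = (r ^ 2) ^ 2 := by ring
        _ = _ := by rw [hr2]; ring
    rw [h4, ENNReal.ofReal_lt_ofReal_iff (by positivity), abs_of_pos (by positivity)]
    have hpi : 9 < Real.pi ^ 2 := by nlinarith [Real.pi_gt_three]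
    nlinarith [mul_pos (pow_pos hnr 2) (sub_pos.2 hpi), pow_pos hnr 2]
  have : Countable (Submodule.span ℤ (Set.range ⇑B)).toAddSubgroup := by
    change Countable (Submodule.span ℤ (Set.range ⇑B))
    infer_instance
  obtain ⟨X, hX0, hXs⟩ := exists_ne_zero_mem_lattice_of_measure_mul_two_pow_lt_measure fund hsymm hconv hmeas
  have hXL := X.2
  rw [Submodule.mem_toAddSubgroup, Submodule.mem_span_range_iff_exists_fun] at hXL
  obtain ⟨c, hc⟩ := hXL
  have hBi : ∀ i, B i = M.row i := fun i => congrFun hBc i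
  simp only [hBi] at hc
  set v : Fin 4 → ℝ := (X : Fin 4 → ℝ) with hv
  have v0 : v 0 = c 0 := by
    rw [← hc]
    simp [Fin.sum_univ_four, hM, Matrix.row]
  have v1 : v 1 = c 1 := by
    rw [← hc]
    simp [Fin.sum_univ_four, hM, Matrix.row]
  have v2 : v 2 = ((a * c 0 + b * c 1 + n * c 2 : ℤ) : ℝ) := by
    rw [← hc]
    simp [Fin.sum_univ_four, hM, Matrix.row]
    ring
  have v3 : v 3 = ((b * c 0 - a * c 1 + n * c 3 : ℤ) : ℝ) := by
    rw [← hc]
    simp [Fin.sum_univ_four, hM, Matrix.row]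
    ring
  simp only [hs, Set.mem_ofPred_eq, Fin.sum_univ_four] at hXs
  rw [v0, v1, v2, v3, hr2] at hXs
  have hlt : (c 0) ^ 2 + (c 1) ^ 2 + (a * c 0 + b * c 1 + n * c 2) ^ 2 + (b * c 0 - a * c 1 + n * c 3) ^ 2 < 2 * (n : ℤ) := by
    exact_mod_cast hXs
  have hdvd : (n : ℤ) ∣ (c 0) ^ 2 + (c 1) ^ 2 + (a * c 0 + b * c 1 + n * c 2) ^ 2 + (b * c 0 - a * c 1 + n * c 3) ^ 2 := by
    obtain ⟨t, ht⟩ := hab
    refine ⟨t * (c 0 ^ 2 + c 1 ^ 2) + 2 * (a * c 0 + b * c 1) * c 2 + n * c 2 ^ 2 + 2 * (b * c 0 - a * c 1) * c 3 + n * c 3 ^ 2, ?_⟩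
    linear_combination (c 0 ^ 2 + c 1 ^ 2) * ht
  have hpos : 0 < (c 0) ^ 2 + (c 1) ^ 2 + (a * c 0 + b * c 1 + n * c 2) ^ 2 + (b * c 0 - a * c 1 + n * c 3) ^ 2 := by
    by_contra hle
    push Not at hle
    have z0 : c 0 ^ 2 = 0 := by nlinarith [sq_nonneg (c 0), sq_nonneg (c 1), sq_nonneg (a * c 0 + b * c 1 + n * c 2), sq_nonneg (b * c 0 - a * c 1 + n * c 3)]
    have z1 : c 1 ^ 2 = 0 := by nlinarith [sq_nonneg (c 0), sq_nonneg (c 1), sq_nonneg (a * c 0 + b * c 1 + n * c 2), sq_nonneg (b * c 0 - a * c 1 + n * c 3)]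
    have z2 : (a * c 0 + b * c 1 + n * c 2) ^ 2 = 0 := by nlinarith [sq_nonneg (c 0), sq_nonneg (c 1), sq_nonneg (a * c 0 + b * c 1 + n * c 2), sq_nonneg (b * c 0 - a * c 1 + n * c 3)]
    have z3 : (b * c 0 - a * c 1 + n * c 3) ^ 2 = 0 := by nlinarith [sq_nonneg (c 0), sq_nonneg (c 1), sq_nonneg (a * c 0 + b * c 1 + n * c 2), sq_nonneg (b * c 0 - a * c 1 + n * c 3)]
    apply hX0
    have hvz : v = 0 := by
      funext i
      fin_cases i
      · show v 0 = 0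
        rw [v0]; have := pow_eq_zero_iff (two_ne_zero) |>.1 z0; rw [this]; simp
      · show v 1 = 0
        rw [v1]; have := pow_eq_zero_iff (two_ne_zero) |>.1 z1; rw [this]; simp
      · show v 2 = 0
        rw [v2]; have := pow_eq_zero_iff (two_ne_zero) |>.1 z2; rw [this]; simp
      · show v 3 = 0
        rw [v3]; have := pow_eq_zero_iff (two_ne_zero) |>.1 z3; rw [this]; simp
    exact Subtype.ext hvz
  obtain ⟨k, hk⟩ := hdvd
  have hnz : (0 : ℤ) < n := by exact_mod_cast hn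
  have hk1 : k = 1 := by
    have h1 : 0 < k := by
      by_contra hle
      push Not at hle
      nlinarith
    have h2 : k < 2 := by
      by_contra hle
      push Not at hle
      nlinarith
    omega
  refine ⟨c 0, c 1, a * c 0 + b * c 1 + n * c 2, b * c 0 - a * c 1 + n * c 3, ?_, ?_, ?_⟩
  · rw [hk, hk1]; ring
  · exact ⟨c 2, by ring⟩
  · exact ⟨c 3, by ring⟩

end Pool.Agent.W65.FS
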