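import Pool.Agent.W65.FS.Analytic

/-!
# The bound for one row of the Farey dissection
-/

set_option autoImplicit false
open Finset Complex MeasureTheory intervalIntegral

namespace Pool.Agent.W65.FS

/-- the part with nonzero dual vector -/
noncomputable def HH (y : ℝ) (D : ℕ) (u : Fin 4 → ℤ) (n : ℕ) (c : ℕ) [NeZero c] (a : ℤ) (β : ℝ) : ℂ :=
  ((AA y (c * D) β) ^ 2)⁻¹ * cexp (-(2 * Real.pi * I * n * β)) *
    ∑' k : Q, if k = 0 then 0 else
      ek (c * D) u k * Tk c D n (a : ZMod c) u k * cexp (-Real.pi * (nq k : ℤ) / AA y (c * D) β)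

lemma AA_re_pos (y : ℝ) (hy : 0 < y) (m : ℕ) (hm : 0 < m) (β : ℝ) : 0 < (AA y m β).re := by
  rw [AA_re]
  have : (0:ℝ) < m := by exact_mod_cast hm
  positivity

lemma PP_split (y : ℝ) (hy : 0 < y) (D : ℕ) (hD : 0 < D) (u : Fin 4 → ℤ) (n : ℕ) (c : ℕ) [NeZero c] (a : ℤ) (β : ℝ) :
    PP y D u n ((a : ℝ) / c + β) =
      ((AA y (c * D) β) ^ 2)⁻¹ * cexp (-(2 * Real.pi * I * n * β)) * Tk c D n (a : ZMod c) u 0 +
        HH y D u n c a β := by
  have hc : 0 < c := Nat.pos_of_ne_zero (NeZero.ne c)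
  have hm : 0 < c * D := Nat.mul_pos hc hD
  rw [PP_rational y hy D hD]
  unfold HH
  rw [← mul_add]
  congr 1
  rw [(summable_term c D n (a : ZMod c) u (AA y (c * D) β) (AA_re_pos y hy _ hm β)).of_norm.tsum_eq_add_tsum_ite 0]
  congr 1
  unfold ek nq
  simp

lemma main_continuous (y : ℝ) (hy : 0 < y) (m : ℕ) (hm : 0 < m) (n : ℕ) (T : ℂ) :
    Continuous (fun β : ℝ => ((AA y m β) ^ 2)⁻¹ * cexp (-(2 * Real.pi * I * n * β)) * T) := by
  have h1 := AA_continuous y m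
  have h2 : Continuous (fun β : ℝ => ((AA y m β) ^ 2)⁻¹) :=
    (h1.pow 2).inv₀ (fun β => pow_ne_zero 2 (AA_ne y hy m hm β))
  have h3 : Continuous (fun β : ℝ => cexp (-(2 * Real.pi * I * n * β))) := by fun_prop
  exact (h2.mul h3).mul continuous_const

lemma HH_continuous (y : ℝ) (hy : 0 < y) (D : ℕ) (hD : 0 < D) (u : Fin 4 → ℤ) (n : ℕ) (c : ℕ) [NeZero c] (a : ℤ) :
    Continuous (HH y D u n c a) := by
  have hc : 0 < c := Nat.pos_of_ne_zero (NeZero.ne c)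
  have hm : 0 < c * D := Nat.mul_pos hc hD
  have h1 : HH y D u n c a = fun β => PP y D u n ((a : ℝ) / c + β) -
      ((AA y (c * D) β) ^ 2)⁻¹ * cexp (-(2 * Real.pi * I * n * β)) * Tk c D n (a : ZMod c) u 0 := by
    funext β
    rw [PP_split y hy D hD]
    ring
  rw [h1]
  have h2 := PP_continuous y hy D hD u n
  have h3 := main_continuous y hy (c * D) hm n (Tk c D n (a : ZMod c) u 0)
  exact (h2.comp (by fun_prop)).sub h3

/-! ### the Gaussian sum -/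

lemma sum_geo (r : ℝ) (h0 : 0 ≤ r) (h1 : r < 1) :
    HasSum (fun k : ℤ => r ^ k.natAbs) ((1 - r)⁻¹ + r * (1 - r)⁻¹) := by
  have h := hasSum_geometric_of_lt_one h0 h1
  apply HasSum.of_nat_of_neg_add_one
  · simpa using h
  · have h2 := h.mul_left r
    have h3 : (fun n : ℕ => r ^ (-((n : ℤ) + 1)).natAbs) = fun n : ℕ => r * r ^ n := by
      funext n
      have : (-((n : ℤ) + 1)).natAbs = n + 1 := by omega
      rw [this, pow_succ]
      ring
    rw [h3]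
    exact h2

lemma gauss_one (D : ℕ) (hD : 0 < D) :
    ∑' k : ℤ, Real.exp (-Real.pi * (1 / (8 * (D : ℝ) ^ 2)) * (k : ℝ) ^ 2) ≤ 8 * (D : ℝ) ^ 2 := by
  have hD1 : (1 : ℝ) ≤ D := by exact_mod_cast hD
  have hD2 : (1 : ℝ) ≤ (D : ℝ) ^ 2 := by nlinarith
  set x : ℝ := Real.pi * (1 / (8 * (D : ℝ) ^ 2)) with hx
  have hx0 : 0 < x := by positivity
  set r : ℝ := Real.exp (-x) with hr
  have hr0 : 0 < r := Real.exp_pos _
  have hr1 : r < 1 := by
    have := Real.exp_lt_exp.2 (show -x < 0 by linarith)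
    rwa [Real.exp_zero] at this
  have hg := sum_geo r hr0.le hr1
  have hle : ∀ k : ℤ, Real.exp (-Real.pi * (1 / (8 * (D : ℝ) ^ 2)) * (k : ℝ) ^ 2) ≤ r ^ k.natAbs := by
    intro k
    rw [hr, ← Real.exp_nat_mul]
    apply Real.exp_le_exp.2
    have h1 : ((k.natAbs : ℕ) : ℝ) ≤ (k : ℝ) ^ 2 := by
      have : (k.natAbs : ℤ) ≤ k ^ 2 := by
        rcases Int.natAbs_eq k with h | h
        · nlinarith [Int.natCast_nonneg k.natAbs, sq_nonneg ((k.natAbs : ℤ) - 1), Int.natAbs_sq k]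
        · have h3 := Int.natAbs_sq k
          have h4 : (0 : ℤ) ≤ k.natAbs := Int.natCast_nonneg _
          rcases Nat.eq_zero_or_pos k.natAbs with h5 | h5
          · rw [h5]; positivity
          · have h6 : (1 : ℤ) ≤ k.natAbs := by exact_mod_cast h5
            nlinarith
      have h' : (((k.natAbs : ℕ) : ℤ) : ℝ) ≤ ((k ^ 2 : ℤ) : ℝ) := Int.cast_le.2 this
      simpa only [Int.cast_natCast, Int.cast_pow] using h'
    have h2 : -Real.pi * (1 / (8 * (D : ℝ) ^ 2)) * (k : ℝ) ^ 2 = -(x * (k : ℝ) ^ 2) := by rw [hx]; ring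
    rw [h2]
    have : x * ((k.natAbs : ℕ) : ℝ) ≤ x * (k : ℝ) ^ 2 := by gcongr
    linarith
  have hs : Summable (fun k : ℤ => Real.exp (-Real.pi * (1 / (8 * (D : ℝ) ^ 2)) * (k : ℝ) ^ 2)) :=
    Summable.of_nonneg_of_le (fun _ => (Real.exp_pos _).le) hle hg.summable
  have h1 := hs.tsum_le_tsum hle hg.summable
  rw [hg.tsum_eq] at h1
  refine h1.trans ?_
  -- (1 + r)/(1-r) ≤ 8 D^2
  have hr2 : r ≤ 1 / (1 + x) := by
    rw [hr, Real.exp_neg, ← one_div]
    apply one_div_le_one_div_of_le (by linarith)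
    linarith [Real.add_one_le_exp x]
  have h1r : x / (1 + x) ≤ 1 - r := by
    have : x / (1 + x) = 1 - 1 / (1 + x) := by field_simp; ring
    rw [this]; linarith
  have hpos : 0 < x / (1 + x) := by positivity
  have h2 : (1 - r)⁻¹ ≤ (1 + x) / x := by
    rw [← inv_div]
    exact inv_anti₀ hpos h1r
  have h3 : (1 - r)⁻¹ + r * (1 - r)⁻¹ ≤ 2 * ((1 + x) / x) := by
    have h4 : r * (1 - r)⁻¹ ≤ 1 * (1 - r)⁻¹ := by
      gcongr
    linarith
  refine h3.trans ?_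
  have h5 : (1 + x) / x = 1 + 8 * (D : ℝ) ^ 2 / Real.pi := by
    rw [hx]; field_simp; ring
  rw [h5]
  have h6 : 8 * (D : ℝ) ^ 2 / Real.pi ≤ 8 * (D : ℝ) ^ 2 / 3 := by
    gcongr
    exact Real.pi_gt_three.le
  nlinarith

lemma gauss_Q (D : ℕ) (hD : 0 < D) :
    ∑' k : Q, Real.exp (-Real.pi * (1 / (8 * (D : ℝ) ^ 2)) * (nq k : ℝ)) ≤ (8 * (D : ℝ) ^ 2) ^ 4 := by
  have hD1 : (0 : ℝ) < D := by exact_mod_cast hD
  set f : ℤ → ℝ := fun k => Real.exp (-Real.pi * (1 / (8 * (D : ℝ) ^ 2)) * (k : ℝ) ^ 2) with hf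
  have hfs : Summable f := by
    have h := summable_gauss (1 / (16 * (D : ℝ) ^ 2)) (by positivity)
    refine h.congr fun k => ?_
    rw [hf]
    simp only
    congr 1
    field_simp
    ring
  have hfn : Summable (fun k => ‖f k‖) := by
    refine hfs.congr fun k => ?_
    rw [Real.norm_of_nonneg (Real.exp_pos _).le]
  have h4 : (∑' k, f k) * (∑' k, f k) * ((∑' k, f k) * (∑' k, f k)) =
      ∑' k : Q, f k.1.1 * f k.1.2 * (f k.2.1 * f k.2.2) := by
    rw [tsum_mul_tsum_of_summable_norm hfn hfn,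
    tsum_mul_tsum_of_summable_norm (hfn.mul_norm hfn) (hfn.mul_norm hfn)]
  have h5 : ∑' k : Q, Real.exp (-Real.pi * (1 / (8 * (D : ℝ) ^ 2)) * (nq k : ℝ)) =
      ∑' k : Q, f k.1.1 * f k.1.2 * (f k.2.1 * f k.2.2) := by
    apply tsum_congr
    intro k
    rw [hf]
    simp only
    rw [← Real.exp_add, ← Real.exp_add, ← Real.exp_add]
    congr 1
    unfold nq
    push_cast
    ring
  rw [h5, ← h4]
  have h6 : ∑' k, f k ≤ 8 * (D : ℝ) ^ 2 := gauss_one D hD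
  have h7 : 0 ≤ ∑' k, f k := tsum_nonneg fun k => (Real.exp_pos _).le
  calc (∑' k, f k) * (∑' k, f k) * ((∑' k, f k) * (∑' k, f k)) = (∑' k, f k) ^ 4 := by ring
    _ ≤ _ := by gcongr

/-- the weighted dual sum -/
lemma dual_sum (D : ℕ) (hD : 0 < D) (t : ℝ) (ht : 1 / (4 * (D : ℝ) ^ 2) ≤ t) :
    t * ∑' k : Q, (if k = 0 then 0 else Real.exp (-Real.pi * t * (nq k : ℝ))) ≤ (8 * (D : ℝ) ^ 2) ^ 4 := by
  have hD1 : (0 : ℝ) < D := by exact_mod_cast hD
  have ht0 : 0 < t := lt_of_lt_of_le (by positivity) ht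
  rw [← tsum_mul_left]
  refine le_trans ?_ (gauss_Q D hD)
  have hs := summable_nq (1 / (8 * (D : ℝ) ^ 2)) (by positivity)
  have hle : ∀ k : Q, t * (if k = 0 then 0 else Real.exp (-Real.pi * t * (nq k : ℝ))) ≤
      Real.exp (-Real.pi * (1 / (8 * (D : ℝ) ^ 2)) * (nq k : ℝ)) := by
    intro k
    by_cases hk : k = 0
    · rw [if_pos hk, mul_zero]; exact (Real.exp_pos _).le
    · rw [if_neg hk]
      have h1 : (1 : ℝ) ≤ nq k := by exact_mod_cast nq_pos k hk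
      have h2 : t ≤ Real.exp t := by linarith [Real.add_one_le_exp t]
      calc t * Real.exp (-Real.pi * t * (nq k : ℝ)) ≤ Real.exp t * Real.exp (-Real.pi * t * (nq k : ℝ)) := by gcongr
        _ = Real.exp (t + -Real.pi * t * (nq k : ℝ)) := by rw [Real.exp_add]
        _ ≤ _ := by
          apply Real.exp_le_exp.2
          have h3 : 1 / (8 * (D : ℝ) ^ 2) ≤ t / 2 := by
            have : 1 / (8 * (D : ℝ) ^ 2) = (1 / (4 * (D : ℝ) ^ 2)) / 2 := by field_simp; norm_num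
            rw [this]; linarith
          have h4 : 1 / (8 * (D : ℝ) ^ 2) * (nq k : ℝ) ≤ t / 2 * (nq k : ℝ) := by gcongr
          have h5 : t ≤ t * (nq k : ℝ) := by nlinarith
          nlinarith [Real.pi_gt_three, mul_pos ht0 (lt_of_lt_of_le one_pos h1)]
  apply Summable.tsum_le_tsum hle _ hs
  exact Summable.of_nonneg_of_le (fun k => by positivity) hle hs

lemma t_lower (n N c D : ℕ) (hn : 1 ≤ n) (hN : n < (N + 1) ^ 2) (hN2 : N ^ 2 ≤ n) (hc : 1 ≤ c) (hcN : c ≤ N) (hD : 0 < D)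
    (β : ℝ) (h0 : 0 ≤ β) (hβ : β ≤ 1 / ((c : ℝ) * (N + 1))) :
    1 / (4 * (D : ℝ) ^ 2) ≤ ((AA (1 / (n : ℝ)) (c * D) β)⁻¹).re := by
  have hn0 : (0 : ℝ) < n := by exact_mod_cast hn
  have hc0 : (0 : ℝ) < c := by exact_mod_cast hc
  have hD1 : (0 : ℝ) < D := by exact_mod_cast hD
  have hm : 0 < c * D := Nat.mul_pos (by omega) hD
  rw [AA_inv_re _ (by positivity) _ hm]
  have hc2 : (c : ℝ) ^ 2 ≤ n := by
    have : c ^ 2 ≤ n := le_trans (Nat.pow_le_pow_left hcN 2) hN2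
    exact_mod_cast this
  have hN' : (n : ℝ) < ((N : ℝ) + 1) ^ 2 := by exact_mod_cast hN
  have hb2 : β ^ 2 ≤ 1 / ((c : ℝ) ^ 2 * n) := by
    have h1 : β ^ 2 ≤ (1 / ((c : ℝ) * (N + 1))) ^ 2 := by gcongr
    refine h1.trans ?_
    rw [div_pow, one_pow, mul_pow]
    apply one_div_le_one_div_of_le (by positivity)
    gcongr
  have hy2 : (1 / (n : ℝ)) ^ 2 ≤ 1 / ((c : ℝ) ^ 2 * n) := by
    rw [div_pow, one_pow]
    apply one_div_le_one_div_of_le (by positivity)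
    nlinarith
  have hs : β ^ 2 + (1 / (n : ℝ)) ^ 2 ≤ 2 / ((c : ℝ) ^ 2 * n) := by
    have : 2 / ((c : ℝ) ^ 2 * n) = 1 / ((c : ℝ) ^ 2 * n) + 1 / ((c : ℝ) ^ 2 * n) := by ring
    rw [this]; linarith
  have hpos : 0 < β ^ 2 + (1 / (n : ℝ)) ^ 2 := by positivity
  calc 1 / (4 * (D : ℝ) ^ 2) = (1 / (n : ℝ)) / (2 * ((c * D : ℕ) : ℝ) ^ 2 * (2 / ((c : ℝ) ^ 2 * n))) := by
        push_cast
        field_simp
        norm_num
    _ ≤ _ := by gcongr

/-- bound for a sum over `v` of the nonmain part at fixed `β` -/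
lemma HH_sum_bound (n D : ℕ) (hn : 1 ≤ n) (hD : 0 < D) (u : Fin 4 → ℤ) (c : ℕ) [NeZero c] (β : ℝ)
    (ht : 1 / (4 * (D : ℝ) ^ 2) ≤ ((AA (1 / (n : ℝ)) (c * D) β)⁻¹).re) (S : Finset ℕ) (B : ℝ)
    (hB : ∀ k : Q, ‖∑ v ∈ S, Tk c D n (aa c v : ZMod c) u k‖ ≤ B) :
    ‖∑ v ∈ S, HH (1 / (n : ℝ)) D u n c (aa c v) β‖ ≤
      (n : ℝ) / (2 * ((c : ℝ) * D) ^ 2) * (8 * (D : ℝ) ^ 2) ^ 4 * B := by
  have hc : 0 < c := Nat.pos_of_ne_zero (NeZero.ne c)
  have hc0 : (0 : ℝ) < c := by exact_mod_cast hc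
  have hD1 : (0 : ℝ) < D := by exact_mod_cast hD
  have hn0 : (0 : ℝ) < n := by exact_mod_cast hn
  have hm : 0 < c * D := Nat.mul_pos hc hD
  have hy : 0 < 1 / (n : ℝ) := by positivity
  set A : ℂ := AA (1 / (n : ℝ)) (c * D) β with hA
  have hAre : 0 < A.re := AA_re_pos _ hy _ hm β
  set t : ℝ := (A⁻¹).re with htdef
  have ht0 : 0 < t := inv_re_pos A hAre
  have hB0 : 0 ≤ B := (norm_nonneg _).trans (hB 0)
  have h1 : ∑ v ∈ S, HH (1 / (n : ℝ)) D u n c (aa c v) β =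
      (A ^ 2)⁻¹ * cexp (-(2 * Real.pi * I * n * β)) *
        ∑' k : Q, if k = 0 then 0 else
          ek (c * D) u k * (∑ v ∈ S, Tk c D n (aa c v : ZMod c) u k) * cexp (-Real.pi * (nq k : ℤ) / A) := by
    unfold HH
    rw [← Finset.mul_sum, ← hA]
    congr 1
    rw [← Summable.tsum_finsetSum]
    · apply tsum_congr
      intro k
      by_cases hk : k = 0
      · simp [hk]
      · simp only [if_neg hk]
        rw [Finset.mul_sum, Finset.sum_mul]
    · intro v _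
      refine Summable.of_norm_bounded (summable_term c D n (aa c v : ZMod c) u A hAre) (fun k => ?_)
      by_cases hk : k = 0
      · rw [if_pos hk, norm_zero]; exact norm_nonneg _
      · rw [if_neg hk]
  rw [h1, norm_mul, norm_mul]
  have e1 : ‖cexp (-(2 * Real.pi * I * n * β))‖ = 1 := by
    have : -(2 * Real.pi * I * n * β) = ((-(2 * Real.pi * n * β) : ℝ) : ℂ) * I := by push_cast; ring
    rw [this, Complex.norm_exp_ofReal_mul_I]
  rw [e1, mul_one, AA_norm_sq_inv _ hy _ hm]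
  rw [← hA, ← htdef]
  have hsum := summable_nq t ht0
  have h2 : ‖∑' k : Q, (if k = 0 then 0 else
          ek (c * D) u k * (∑ v ∈ S, Tk c D n (aa c v : ZMod c) u k) * cexp (-Real.pi * (nq k : ℤ) / A))‖ ≤
      ∑' k : Q, B * (if k = 0 then 0 else Real.exp (-Real.pi * t * (nq k : ℝ))) := by
    apply tsum_of_norm_bounded (Summable.hasSum _)
    · intro k
      by_cases hk : k = 0
      · simp [hk]
      · rw [if_neg hk, if_neg hk, norm_mul, norm_mul, norm_ek, one_mul, norm_expq]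
        gcongr
        exact hB k
    · apply Summable.mul_left
      refine Summable.of_nonneg_of_le (fun k => by positivity) (fun k => ?_) hsum
      by_cases hk : k = 0
      · rw [if_pos hk]; positivity
      · rw [if_neg hk]
  rw [tsum_mul_left] at h2
  have h3 := dual_sum D hD t ht
  calc t / (2 * ((c * D : ℕ) : ℝ) ^ 2 * (1 / (n : ℝ))) * ‖∑' k : Q, (if k = 0 then 0 else
          ek (c * D) u k * (∑ v ∈ S, Tk c D n (aa c v : ZMod c) u k) * cexp (-Real.pi * (nq k : ℤ) / A))‖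
      ≤ t / (2 * ((c * D : ℕ) : ℝ) ^ 2 * (1 / (n : ℝ))) *
        (B * ∑' k : Q, (if k = 0 then 0 else Real.exp (-Real.pi * t * (nq k : ℝ)))) := by gcongr
    _ = (n : ℝ) / (2 * ((c : ℝ) * D) ^ 2) *
        (t * ∑' k : Q, (if k = 0 then 0 else Real.exp (-Real.pi * t * (nq k : ℝ)))) * B := by
        push_cast
        field_simp
    _ ≤ _ := by gcongr

/-- the bound for a row -/
theorem row_bound (n D N : ℕ) (hn : 1 ≤ n) (hD : 0 < D) (hN : n < (N + 1) ^ 2) (hN2 : N ^ 2 ≤ n)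
    (u : Fin 4 → ℤ) (c : ℕ) [NeZero c] (hcN : c ≤ N) (B : ℝ)
    (hB : ∀ V : ℕ, V ≤ N → ∀ k : Q,
      ‖∑ v ∈ (Finset.Ioc (N - c) V).filter (Nat.Coprime c ·), Tk c D n (aa c v : ZMod c) u k‖ ≤ B) :
    ‖∑ v ∈ (Finset.Ioc (N - c) N).filter (Nat.Coprime c ·),
      ∫ β in (0:ℝ)..(1 / ((c : ℝ) * (c + v))), HH (1 / (n : ℝ)) D u n c (aa c v) β‖ ≤
      (n : ℝ) / (2 * ((c : ℝ) * D) ^ 2) * (8 * (D : ℝ) ^ 2) ^ 4 * B * (1 / ((c : ℝ) * (N + 1))) := by
  have hc : 0 < c := Nat.pos_of_ne_zero (NeZero.ne c)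
  have hc0 : (0 : ℝ) < c := by exact_mod_cast hc
  have hn0 : (0 : ℝ) < n := by exact_mod_cast hn
  have hN0 : (0 : ℝ) < (N : ℝ) + 1 := by positivity
  set M : ℝ := 1 / ((c : ℝ) * (N + 1)) with hM
  have hM0 : 0 < M := by positivity
  have hy : 0 < 1 / (n : ℝ) := by positivity
  set S := (Finset.Ioc (N - c) N).filter (Nat.Coprime c ·) with hS
  have hmemS : ∀ v ∈ S, N - c < v ∧ v ≤ N ∧ Nat.Coprime c v := by
    intro v hv
    rw [hS, Finset.mem_filter, Finset.mem_Ioc] at hv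
    exact ⟨hv.1.1, hv.1.2, hv.2⟩
  have hbv : ∀ v ∈ S, 1 / ((c : ℝ) * (c + v)) ∈ Set.Icc (0:ℝ) M := by
    intro v hv
    obtain ⟨h1, h2, h3⟩ := hmemS v hv
    have h4 : (N : ℝ) + 1 ≤ c + v := by
      have : N + 1 ≤ c + v := by omega
      exact_mod_cast this
    refine ⟨by positivity, ?_⟩
    rw [hM]
    apply one_div_le_one_div_of_le (by positivity)
    gcongr
  have hcont : ∀ v, Continuous (HH (1 / (n : ℝ)) D u n c (aa c v)) := fun v => HH_continuous _ hy D hD u n c _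
  set g : ℕ → ℝ → ℂ := fun v => Set.indicator {x | x ≤ 1 / ((c : ℝ) * (c + v))} (HH (1 / (n : ℝ)) D u n c (aa c v)) with hg
  have h1 : ∑ v ∈ S, ∫ β in (0:ℝ)..(1 / ((c : ℝ) * (c + v))), HH (1 / (n : ℝ)) D u n c (aa c v) β =
      ∫ β in (0:ℝ)..M, ∑ v ∈ S, g v β := by
    rw [intervalIntegral.integral_finsetSum]
    · apply Finset.sum_congr rfl
      intro v hv
      rw [hg]
      exact (intervalIntegral.integral_indicator (hbv v hv)).symm
    · intro v _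
      rw [intervalIntegrable_iff]
      apply IntegrableOn.indicator
      · exact (intervalIntegrable_iff.1 ((hcont v).intervalIntegrable 0 M))
      · exact measurableSet_Iic
  rw [h1]
  have h2 : ∀ β ∈ Set.uIoc (0:ℝ) M, ‖∑ v ∈ S, g v β‖ ≤ (n : ℝ) / (2 * ((c : ℝ) * D) ^ 2) * (8 * (D : ℝ) ^ 2) ^ 4 * B := by
    intro β hβ
    rw [Set.uIoc_of_le hM0.le, Set.mem_Ioc] at hβ
    have ht := t_lower n N c D hn hN hN2 hc hcN hD β hβ.1.le hβ.2
    set V : ℕ := min N (⌊1 / ((c : ℝ) * β)⌋₊ - c) with hV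
    have h3 : ∑ v ∈ S, g v β = ∑ v ∈ (Finset.Ioc (N - c) V).filter (Nat.Coprime c ·), HH (1 / (n : ℝ)) D u n c (aa c v) β := by
      have h4 : (Finset.Ioc (N - c) V).filter (Nat.Coprime c ·) = S.filter (fun v : ℕ => β ≤ 1 / ((c : ℝ) * (c + v))) := by
        ext v
        rw [hS, Finset.mem_filter, Finset.mem_filter, Finset.mem_filter, Finset.mem_Ioc, Finset.mem_Ioc, hV, le_min_iff]
        have key : ∀ v : ℕ, 0 < v → ((v ≤ ⌊1 / ((c : ℝ) * β)⌋₊ - c) ↔ β ≤ 1 / ((c : ℝ) * (c + v))) := by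
          intro v hv
          have e1 : (v ≤ ⌊1 / ((c : ℝ) * β)⌋₊ - c) ↔ (c + v ≤ ⌊1 / ((c : ℝ) * β)⌋₊) := by omega
          rw [e1, Nat.le_floor_iff (by have := hβ.1; positivity)]
          have hcv : (0:ℝ) < c + v := by positivity
          rw [le_div_iff₀ (by have := hβ.1; positivity), le_div_iff₀ (by positivity)]
          push_cast
          constructor <;> intro h <;> linarith
        constructor
        · rintro ⟨⟨h5, h6, h7⟩, h8⟩
          exact ⟨⟨⟨h5, h6⟩, h8⟩, (key v (by omega)).1 h7⟩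
        · rintro ⟨⟨⟨h5, h6⟩, h8⟩, h7⟩
          exact ⟨⟨h5, h6, (key v (by omega)).2 h7⟩, h8⟩
      rw [h4]
      symm
      rw [Finset.sum_filter (fun v : ℕ => β ≤ 1 / ((c : ℝ) * (c + v)))]
      apply Finset.sum_congr rfl
      intro v _
      rw [hg]
      simp only [Set.indicator, Set.mem_ofPred_eq]
    rw [h3]
    exact HH_sum_bound n D hn hD u c β ht _ B (hB V (min_le_left _ _))
  have h3 := intervalIntegral.norm_integral_le_of_norm_le_const h2
  rwa [sub_zero, abs_of_pos hM0] at h3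

end Pool.Agent.W65.FS
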