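import Pool.Agent.W65.FS.Kl

/-!
# The row bound
-/

set_option autoImplicit false
open Finset Pool.Agent.H442R2.KF

namespace Pool.Agent.W65.FS

lemma aa_mod (c v m : ℕ) [NeZero m] (hm : m ∣ c) (h : Nat.Coprime c v) : (aa c v : ZMod m) = -(v : ZMod m)⁻¹ := by
  obtain ⟨b, hb⟩ := aa_spec c v h
  have h1 : ((b * c - aa c v * v : ℤ) : ZMod m) = 1 := by rw [hb]; simp
  have h2 : ((c : ℕ) : ZMod m) = 0 := (ZMod.natCast_eq_zero_iff c m).2 hm
  push_cast at h1
  rw [h2, mul_zero, zero_sub] at h1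
  have hu : IsUnit (v : ZMod m) := (ZMod.isUnit_iff_coprime v m).2 ((Nat.Coprime.coprime_dvd_left hm h).symm)
  have hv := ZMod.mul_inv_of_unit _ hu
  linear_combination (-(v : ZMod m)⁻¹) * h1 - (aa c v : ZMod m) * hv

lemma inner_bound (q w : ℕ) [NeZero q] [NeZero w] (hcop : Nat.Coprime q w) (φ : ZMod q → ℂ) (W : ℝ)
    (hW0 : 0 ≤ W) (hW : ∀ z : ZMod q, ‖∑ x : ZMod q, ZMod.stdAddChar (-(x * z)) * φ x‖ ≤ W)
    (A V : ℕ) (hAV : V ≤ A + q * w) (r : ZMod w) :
    ‖∑ v ∈ (Finset.Ioc A V).filter (fun v : ℕ => (v : ZMod w) = r), φ (v : ZMod q)‖ ≤ W * (3 + Real.log q) := by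
  have hq0 : 0 < q := Nat.pos_of_ne_zero (NeZero.ne q)
  have hw0 : 0 < w := Nat.pos_of_ne_zero (NeZero.ne w)
  have hqr : (1 : ℝ) ≤ q := by exact_mod_cast hq0
  have hwr : (0 : ℝ) < w := by exact_mod_cast hw0
  have hlog : 0 ≤ Real.log q := Real.log_nonneg hqr
  by_cases hlt : V ≤ A
  · have : Finset.Ioc A V = ∅ := Finset.Ioc_eq_empty (by omega)
    rw [this, Finset.filter_empty, Finset.sum_empty, norm_zero]
    positivity
  · push Not at hlt
    obtain ⟨m₀, H, hH, hS⟩ := Inc.prog w hw0 (r.val : ℤ) ((A : ℤ) + 1) (V : ℤ) (by omega)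
    have e1 : ∑ v ∈ (Finset.Ioc A V).filter (fun v : ℕ => (v : ZMod w) = r), φ (v : ZMod q) =
        ∑ m ∈ (Finset.Icc ((A : ℤ) + 1) (V : ℤ)).filter (fun m : ℤ => m ≡ (r.val : ℤ) [ZMOD w]), φ (m : ZMod q) := by
      refine Finset.sum_nbij' (fun v : ℕ => (v : ℤ)) (fun m : ℤ => m.toNat) ?_ ?_ ?_ ?_ ?_
      · intro v hv
        rw [Finset.mem_filter, Finset.mem_Ioc] at hv
        rw [Finset.mem_filter, Finset.mem_Icc]
        refine ⟨⟨by omega, by omega⟩, ?_⟩
        rw [← ZMod.intCast_eq_intCast_iff]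
        push_cast
        rw [hv.2, ZMod.natCast_zmod_val]
      · intro m hm
        rw [Finset.mem_filter, Finset.mem_Icc] at hm
        rw [Finset.mem_filter, Finset.mem_Ioc]
        refine ⟨⟨by omega, by omega⟩, ?_⟩
        have h1 := (ZMod.intCast_eq_intCast_iff _ _ _).2 hm.2
        have h2 : ((m.toNat : ℕ) : ℤ) = m := Int.toNat_of_nonneg (by omega)
        have h3 : ((m.toNat : ℕ) : ZMod w) = ((m : ℤ) : ZMod w) := by
          rw [← h2]; simp
        rw [h3, h1]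
        simp
      · intro v _
        simp
      · intro m hm
        rw [Finset.mem_filter, Finset.mem_Icc] at hm
        exact Int.toNat_of_nonneg (by omega)
      · intro v _
        simp
    rw [e1, hS, Finset.sum_image]
    · have h1 := Inc.completion q w hcop φ W hW0 hW m₀ H
      refine h1.trans ?_
      apply mul_le_mul_of_nonneg_left _ hW0
      have h2 : (H : ℝ) / q ≤ 2 := by
        rw [div_le_iff₀ (by linarith)]
        have h3 : ((V : ℤ) : ℝ) - (((A : ℤ) + 1 : ℤ) : ℝ) ≤ q * w := by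
          have : (V : ℤ) - ((A : ℤ) + 1) ≤ q * w := by
            have : (V : ℤ) ≤ A + q * w := by exact_mod_cast hAV
            linarith
          exact_mod_cast this
        have h4 : (((V : ℤ) : ℝ) - (((A : ℤ) + 1 : ℤ) : ℝ)) / w ≤ q := by
          rw [div_le_iff₀ hwr]
          exact h3
        linarith
      linarith
    · intro a _ b _ hab
      simp only at hab
      have h2 : (w : ℤ) * a = w * b := by linarith
      have h3 : (w : ℤ) ≠ 0 := by exact_mod_cast hw0.ne'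
      exact_mod_cast mul_left_cancel₀ h3 h2

theorem row_qw (q w : ℕ) [NeZero q] [NeZero w] [NeZero (q * w)] (hqo : Odd q) (hsq : Squarefree q)
    (hcop : Nat.Coprime q w) (D n : ℕ) (hD0 : 0 < D) (hD : Nat.Coprime D q) (hn : Nat.Coprime n q)
    (N V : ℕ) (hV : V ≤ N) (u : Fin 4 → ℤ) (k : Q) :
    ‖∑ v ∈ (Finset.Ioc (N - q * w) V).filter (Nat.Coprime (q * w) ·),
      Tk (q * w) D n (aa (q * w) v : ZMod (q * w)) u k‖ ≤
      4 * (D : ℝ) ^ 4 * w ^ 3 * ((q : ℝ) ^ 2 * (2 ^ q.primeFactors.card * Real.sqrt q)) * (3 + Real.log q) := by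
  classical
  have hq0 : 0 < q := Nat.pos_of_ne_zero (NeZero.ne q)
  have hw0 : 0 < w := Nat.pos_of_ne_zero (NeZero.ne w)
  have hqr : (1 : ℝ) ≤ q := by exact_mod_cast hq0
  have hlog : 0 ≤ Real.log q := Real.log_nonneg hqr
  obtain ⟨α, β, hαβ⟩ : ∃ α β : ℤ, α * w + β * q = 1 := by
    have := Nat.isCoprime_iff_coprime.2 hcop
    obtain ⟨s, t, hst⟩ := this
    exact ⟨t, s, by linarith⟩
  have hαu : IsUnit (α : ZMod q) := by
    rw [ZMod.coe_int_isUnit_iff_isCoprime]
    exact ⟨β, w, by linarith⟩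
  have hβu : IsUnit (β : ZMod w) := by
    rw [ZMod.coe_int_isUnit_iff_isCoprime]
    exact ⟨α, q, by linarith⟩
  set φ : ZMod q → ℂ := fun x => if IsUnit x then Tk q D n (-((α : ZMod q) * x⁻¹)) u (sc α k) else 0 with hφ
  set G2 : ZMod w → ℂ := fun r => if IsUnit r then Tk w D n (-((β : ZMod w) * r⁻¹)) u (sc β k) else 0 with hG2
  have hG2b : ∀ r, ‖G2 r‖ ≤ 4 * (D : ℝ) ^ 4 * w ^ 2 := by
    intro r
    rw [hG2]
    simp only
    split_ifs with h
    · apply norm_Tk_unit w D n hD0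
      have hr : IsUnit (r⁻¹) := by
        have h1 := ZMod.mul_inv_of_unit _ h
        exact IsUnit.of_mul_eq_one r (by rw [mul_comm]; exact h1)
      exact (hβu.mul hr).neg
    · rw [norm_zero]; positivity
  have hW := complete_bound q hqo hsq D n hD hn (α : ZMod q) hαu u (sc α k) φ
    (fun x hx => by rw [hφ]; simp only; rw [if_pos hx]) (fun x hx => by rw [hφ]; simp only; rw [if_neg hx])
  have e1 : ∑ v ∈ (Finset.Ioc (N - q * w) V).filter (Nat.Coprime (q * w) ·),
      Tk (q * w) D n (aa (q * w) v : ZMod (q * w)) u k =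
      ∑ v ∈ Finset.Ioc (N - q * w) V, G2 (v : ZMod w) * φ (v : ZMod q) := by
    rw [Finset.sum_filter]
    apply Finset.sum_congr rfl
    intro v _
    split_ifs with h
    · have h1 : Nat.Coprime q v := Nat.Coprime.coprime_dvd_left (dvd_mul_right q w) h
      have h2 : Nat.Coprime w v := Nat.Coprime.coprime_dvd_left (dvd_mul_left w q) h
      have u1 : IsUnit (v : ZMod q) := (ZMod.isUnit_iff_coprime v q).2 h1.symm
      have u2 : IsUnit (v : ZMod w) := (ZMod.isUnit_iff_coprime v w).2 h2.symm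
      rw [Tk_crt q w hcop α β hαβ]
      have f1 : ((α * aa (q * w) v : ℤ) : ZMod q) = -((α : ZMod q) * (v : ZMod q)⁻¹) := by
        push_cast
        rw [aa_mod (q * w) v q (dvd_mul_right q w) h]
        ring
      have f2 : ((β * aa (q * w) v : ℤ) : ZMod w) = -((β : ZMod w) * (v : ZMod w)⁻¹) := by
        push_cast
        rw [aa_mod (q * w) v w (dvd_mul_left w q) h]
        ring
      rw [f1, f2, hφ, hG2]
      simp only
      rw [if_pos u1, if_pos u2]
      ring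
    · have h1 : ¬ (IsUnit (v : ZMod q) ∧ IsUnit (v : ZMod w)) := by
        rintro ⟨u1, u2⟩
        apply h
        exact Nat.Coprime.mul_left ((ZMod.isUnit_iff_coprime v q).1 u1).symm ((ZMod.isUnit_iff_coprime v w).1 u2).symm
      rw [hφ, hG2]
      simp only
      by_cases u1 : IsUnit (v : ZMod q)
      · have u2 : ¬ IsUnit (v : ZMod w) := fun u2 => h1 ⟨u1, u2⟩
        rw [if_neg u2, zero_mul]
      · rw [if_neg u1, mul_zero]
  have e2 : ∑ v ∈ Finset.Ioc (N - q * w) V, G2 (v : ZMod w) * φ (v : ZMod q) =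
      ∑ r : ZMod w, G2 r * ∑ v ∈ (Finset.Ioc (N - q * w) V).filter (fun v : ℕ => (v : ZMod w) = r), φ (v : ZMod q) := by
    rw [← Finset.sum_fiberwise (Finset.Ioc (N - q * w) V) (fun v : ℕ => (v : ZMod w))]
    apply Finset.sum_congr rfl
    intro r _
    rw [Finset.mul_sum]
    apply Finset.sum_congr rfl
    intro v hv
    rw [Finset.mem_filter] at hv
    rw [hv.2]
  rw [e1, e2]
  have hWn : (0:ℝ) ≤ (q : ℝ) ^ 2 * (2 ^ q.primeFactors.card * Real.sqrt q) := by positivity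
  have hb : ∀ r : ZMod w, ‖G2 r * ∑ v ∈ (Finset.Ioc (N - q * w) V).filter (fun v : ℕ => (v : ZMod w) = r), φ (v : ZMod q)‖ ≤
      4 * (D : ℝ) ^ 4 * w ^ 2 * (((q : ℝ) ^ 2 * (2 ^ q.primeFactors.card * Real.sqrt q)) * (3 + Real.log q)) := by
    intro r
    rw [norm_mul]
    have := inner_bound q w hcop φ _ hWn hW (N - q * w) V (by omega) r
    have h2 := hG2b r
    gcongr
  refine (norm_sum_le _ _).trans ((Finset.sum_le_sum fun r _ => hb r).trans ?_)
  rw [Finset.sum_const, Finset.card_univ, ZMod.card, nsmul_eq_mul]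
  apply le_of_eq
  ring

/-- the bound `B(c)` -/
noncomputable def Bc (n D c : ℕ) : ℝ :=
  4 * (D : ℝ) ^ 4 * (vp (2 * D * n) c : ℝ) ^ 3 *
    (((qp (2 * D * n) c : ℕ) : ℝ) ^ 2 * ((c.divisors.card : ℝ) * Real.sqrt (qp (2 * D * n) c))) * (3 + Real.log c)

theorem rowHyp (n D N c : ℕ) [NeZero c] (hD0 : 0 < D) (u : Fin 4 → ℤ) :
    RowHyp n D N c u (Bc n D c) := by
  intro V hV k
  have hc0 : 0 < c := Nat.pos_of_ne_zero (NeZero.ne c)
  obtain ⟨hsq, hq0, hqc, hv0, hqv, hcop, hG, hdiv⟩ := qp_facts (2 * D * n) c hc0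
  unfold Bc
  set q := qp (2 * D * n) c with hq
  set w := vp (2 * D * n) c with hw
  have i1 : NeZero q := ⟨hq0.ne'⟩
  have i2 : NeZero w := ⟨hv0.ne'⟩
  have h2q : Nat.Coprime q 2 := Nat.Coprime.coprime_dvd_right (Dvd.intro (D * n) (by ring)) hG
  have hDq : Nat.Coprime D q := (Nat.Coprime.coprime_dvd_right (Dvd.intro (2 * n) (by ring)) hG).symm
  have hnq : Nat.Coprime n q := (Nat.Coprime.coprime_dvd_right (Dvd.intro (2 * D) (by ring)) hG).symm
  have hqo : Odd q := Nat.coprime_two_right.1 h2q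
  have hle : (q : ℝ) ≤ c := by exact_mod_cast Nat.le_of_dvd hc0 hqc
  have hqr : (1 : ℝ) ≤ q := by exact_mod_cast hq0
  have hcr : (1 : ℝ) ≤ c := by exact_mod_cast hc0
  have hlog : Real.log q ≤ Real.log c := Real.log_le_log (by linarith) hle
  have hlog0 : 0 ≤ Real.log q := Real.log_nonneg hqr
  have h2d : ((2 : ℝ) ^ q.primeFactors.card) ≤ (c.divisors.card : ℝ) := by exact_mod_cast hdiv
  have key : ∀ c' : ℕ, ∀ _ : NeZero c', c' = c → q * w = c' → ‖∑ v ∈ (Finset.Ioc (N - c') V).filter (Nat.Coprime c' ·),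
      Tk c' D n (aa c' v : ZMod c') u k‖ ≤
      4 * (D : ℝ) ^ 4 * w ^ 3 * ((q : ℝ) ^ 2 * (2 ^ q.primeFactors.card * Real.sqrt q)) * (3 + Real.log q) := by
    intro c' i3 hc' hqc'
    subst hqc'
    exact row_qw q w hqo hsq hcop D n hD0 hDq hnq N V hV u k
  refine (key c _ rfl hqv).trans ?_
  gcongr

end Pool.Agent.W65.FS
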