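import Pool.Agent.W65.FS.Lower
import Pool.Agent.W65.FS.Local
import Pool.Agent.H20R2.EN.FLem

/-!
# The sieve
-/

set_option autoImplicit false
open Finset

namespace Pool.Agent.W65.FS

lemma large_rpow (K s : ℝ) (hs : 0 < s) : ∃ n0 : ℕ, ∀ n : ℕ, n0 ≤ n → K ≤ (n : ℝ) ^ s := by
  have h1 := (tendsto_rpow_atTop hs).comp tendsto_natCast_atTop_atTop
  have h2 := h1.eventually_ge_atTop K
  rw [Filter.eventually_atTop] at h2
  obtain ⟨n0, h⟩ := h2
  exact ⟨n0, fun n hn => h n hn⟩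

lemma prc_one (n : ℕ) : prc n 1 0 = preps n := by
  unfold prc preps repsc
  congr 1
  apply Finset.filter_true_of_mem
  intro X _ i
  simp

lemma good_one (n : ℕ) : Good n 1 0 := by
  refine ⟨by simp, ?_⟩
  intro l hl h
  exact absurd (Nat.dvd_one.1 h) hl.one_lt.ne'

/-- choice of the scale -/
lemma exists_scale (B n : ℕ) (hB : 1 ≤ B) (hn : 2 ^ B ≤ n) :
    ∃ J : ℕ, (2 ^ 2 ^ J) ^ B ≤ n ∧ n < (2 ^ 2 ^ (J + 1)) ^ B := by
  classical
  have hex : ∃ J : ℕ, n < (2 ^ 2 ^ J) ^ B := by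
    refine ⟨n, ?_⟩
    have h1 : n < 2 ^ n := Nat.lt_two_pow_self
    have h2 : n ≤ 2 ^ n := h1.le
    calc n < 2 ^ n := h1
      _ ≤ 2 ^ 2 ^ n := Nat.pow_le_pow_right (by norm_num) h2
      _ = (2 ^ 2 ^ n) ^ 1 := (pow_one _).symm
      _ ≤ (2 ^ 2 ^ n) ^ B := Nat.pow_le_pow_right (by positivity) hB
  set J' := Nat.find hex with hJ'
  have h1 := Nat.find_spec hex
  have h0 : J' ≠ 0 := by
    intro h
    rw [← hJ', h] at h1
    simp at h1
    omega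
  refine ⟨J' - 1, ?_, ?_⟩
  · have := Nat.find_min hex (m := J' - 1) (by omega)
    exact Nat.le_of_not_lt this
  · have : J' - 1 + 1 = J' := by omega
    rw [this]
    exact h1

lemma prod_lower (κ : ℕ) (z : ℕ) (hz : 1 ≤ z) (P : Finset ℕ) (hP : ∀ p ∈ P, 2 ≤ p ∧ p ≤ z) (g : ℕ → ℝ)
    (hg0 : ∀ p ∈ P, 0 ≤ g p) (hg : ∀ p ∈ P, g p ≤ κ / ((p : ℝ) - 1)) (hg2 : ∀ p ∈ P, g p ≤ 1 / 2) :
    Real.exp (-(2 * κ)) * (z : ℝ) ^ (-(2 * κ : ℝ)) ≤ ∏ p ∈ P, (1 - g p) := by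
  have hzr : (0 : ℝ) < z := by exact_mod_cast hz
  have h1 : ∀ p ∈ P, Real.exp (-(2 * g p)) ≤ 1 - g p := by
    intro p hp
    have h2 := hg0 p hp
    have h3 := hg2 p hp
    have h4 := Real.add_one_le_exp (2 * g p)
    have h5 : 1 ≤ (1 - g p) * Real.exp (2 * g p) := by
      have : 1 ≤ (1 - g p) * (2 * g p + 1) := by nlinarith
      have h6 : (1 - g p) * (2 * g p + 1) ≤ (1 - g p) * Real.exp (2 * g p) := by
        apply mul_le_mul_of_nonneg_left h4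
        linarith
      linarith
    rw [Real.exp_neg, inv_le_iff_one_le_mul₀ (Real.exp_pos _)]
    exact h5
  have h2 : ∑ p ∈ P, g p ≤ κ * (1 + Real.log z) := by
    have h3 : ∑ p ∈ P, g p ≤ ∑ p ∈ P, κ / ((p : ℝ) - 1) := Finset.sum_le_sum hg
    have h4 : ∑ p ∈ P, κ / ((p : ℝ) - 1) = κ * ∑ a ∈ P.image (fun p : ℕ => (p - 1 : ℕ)), 1 / (a : ℝ) := by
      rw [Finset.sum_image, Finset.mul_sum]
      · apply Finset.sum_congr rfl
        intro p hp
        rw [Nat.cast_sub (by have := (hP p hp).1; omega)]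
        push_cast
        ring
      · intro a ha b hb hab
        have h5 := (hP a (Finset.mem_coe.1 ha)).1
        have h6 := (hP b (Finset.mem_coe.1 hb)).1
        simp only at hab
        omega
    have h5 : ∑ a ∈ P.image (fun p : ℕ => (p - 1 : ℕ)), 1 / (a : ℝ) ≤ ∑ a ∈ Icc 1 z, 1 / (a : ℝ) := by
      apply Finset.sum_le_sum_of_subset_of_nonneg
      · intro a ha
        rw [Finset.mem_image] at ha
        obtain ⟨p, hp, rfl⟩ := ha
        have := hP p hp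
        rw [Finset.mem_Icc]
        omega
      · intro a _ _
        positivity
    have h6 := Pool.Agent.H442R2.KF.TaskG.sum_a z
    rw [h4] at h3
    calc ∑ p ∈ P, g p ≤ κ * ∑ a ∈ P.image (fun p : ℕ => (p - 1 : ℕ)), 1 / (a : ℝ) := h3
      _ ≤ κ * (1 + Real.log z) := by
        apply mul_le_mul_of_nonneg_left (h5.trans h6) (by positivity)
  calc Real.exp (-(2 * κ)) * (z : ℝ) ^ (-(2 * κ : ℝ)) = Real.exp (-(2 * (κ * (1 + Real.log z)))) := by
        rw [Real.rpow_def_of_pos hzr, ← Real.exp_add]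
        congr 1
        ring
    _ ≤ Real.exp (-(2 * ∑ p ∈ P, g p)) := by
        apply Real.exp_le_exp.2
        linarith
    _ = ∏ p ∈ P, Real.exp (-(2 * g p)) := by
        rw [← Real.exp_sum]
        congr 1
        rw [Finset.mul_sum, ← Finset.sum_neg_distrib]
    _ ≤ _ := Finset.prod_le_prod (fun p _ => (Real.exp_pos _).le) h1

/-- number of sets of primes with bounded product -/
lemma card_sets (P : Finset ℕ) (hP : ∀ p ∈ P, p.Prime) (Y : ℕ) :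
    (P.powerset.filter (fun T : Finset ℕ => ∏ p ∈ T, p ≤ Y)).card ≤ Y := by
  classical
  have h1 : Y = (Icc 1 Y).card := by simp
  conv_rhs => rw [h1]
  apply Finset.card_le_card_of_injOn (fun T => ∏ p ∈ T, p)
  · intro T hT
    rw [Finset.mem_coe, Finset.mem_filter, Finset.mem_powerset] at hT
    rw [Finset.mem_coe, Finset.mem_Icc]
    refine ⟨?_, hT.2⟩
    exact Finset.prod_pos fun p hp => (hP p (hT.1 hp)).pos
  · intro T hT T' hT' h
    rw [Finset.mem_coe, Finset.mem_filter, Finset.mem_powerset] at hT hT'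
    have h2 := Nat.primeFactors_prod (fun p hp => hP p (hT.1 hp))
    have h3 := Nat.primeFactors_prod (fun p hp => hP p (hT'.1 hp))
    rw [← h2, ← h3]
    simp only at h
    rw [h]

/-- density of the bad classes -/
noncomputable def gg (f : (Fin 4 → ℤ) → ℤ) (n l : ℕ) : ℝ := ((Bl f n l).card : ℝ) / (Gl n l).card

lemma gg_bound (f : (Fin 4 → ℤ) → ℤ) (κ : ℕ) (n l : ℕ) (hl : l.Prime) (hl2 : l ≠ 2)
    (h : (Bl f n l).card ≤ κ * l ^ 2) : 0 ≤ gg f n l ∧ gg f n l ≤ κ / ((l : ℝ) - 1) := by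
  have hl3 : (3 : ℝ) ≤ l := by
    have : 3 ≤ l := by
      have := hl.two_le
      omega
    exact_mod_cast this
  have h1 := count_lower l hl hl2 n
  have hpos : 0 < (l : ℝ) ^ 3 - l := by nlinarith [mul_pos (show (0:ℝ) < l by linarith) (show (0:ℝ) < l by linarith)]
  have h2 : ((Bl f n l).card : ℝ) ≤ κ * (l : ℝ) ^ 2 := by exact_mod_cast h
  refine ⟨by unfold gg; positivity, ?_⟩
  unfold gg
  have hκ : (0 : ℝ) ≤ κ := by positivity
  calc ((Bl f n l).card : ℝ) / (Gl n l).card ≤ (κ * (l : ℝ) ^ 2) / ((l : ℝ) ^ 3 - l) :=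
        div_le_div₀ (by positivity) h2 hpos h1
    _ ≤ κ / ((l : ℝ) - 1) := by
      rw [div_le_div_iff₀ hpos (by linarith)]
      have : (l : ℝ) ^ 2 * (l - 1) ≤ (l : ℝ) ^ 3 - l := by nlinarith
      calc κ * (l : ℝ) ^ 2 * (l - 1) = κ * ((l : ℝ) ^ 2 * (l - 1)) := by ring
        _ ≤ κ * ((l : ℝ) ^ 3 - l) := by gcongr

/-- **sieve theorem**: many primitive representations with `f` free of small odd prime factors -/
theorem sieve_main (f : (Fin 4 → ℤ) → ℤ) (κ : ℕ)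
    (hcong : ∀ (l : ℕ) (X Y : Fin 4 → ℤ), (∀ i, (l : ℤ) ∣ X i - Y i) → (l : ℤ) ∣ f X - f Y)
    (hbad : ∀ l : ℕ, l.Prime → l ≠ 2 → ∀ n : ℕ, (Bl f n l).card ≤ κ * l ^ 2)
    (hloc : ∀ l : ℕ, l.Prime → l ≠ 2 → ∀ n : ℕ, ∃ c ∈ Gl n l, ¬ (l : ℤ) ∣ f c)
    (ε : ℝ) (hε : 0 < ε) (hε1 : ε ≤ 1 / 50) :
    ∃ δ : ℝ, 0 < δ ∧ ∃ n0 : ℕ, ∀ n : ℕ, Odd n → n0 ≤ n → ∃ S : Finset (Fin 4 → ℤ),
      (n : ℝ) ^ (1 - ε) ≤ S.card ∧ ∀ X ∈ S, ∑ i, X i ^ 2 = n ∧ gc X = 1 ∧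
        ∀ l : ℕ, l.Prime → l ≠ 2 → (l : ℝ) ≤ (n : ℝ) ^ δ → ¬ (l : ℤ) ∣ f X := by
  classical
  obtain ⟨C0, hC0, hFL⟩ := Pool.Agent.H20R2.fLem κ
  obtain ⟨C, hC, hdist⟩ := distribution
  obtain ⟨c1, hc1, hlow⟩ := preps_lower (ε / 4) (by positivity)
  set z0 : ℕ := C0 + 2 * κ + 10 with hz0
  set T0 : Finset ℕ := (Icc 3 z0).filter Nat.Prime with hT0
  set M0 : ℕ := ∏ l ∈ T0, l with hM0
  have hT0p : ∀ l ∈ T0, l.Prime ∧ l ≠ 2 ∧ l ≤ z0 := by
    intro l hl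
    rw [hT0, Finset.mem_filter, Finset.mem_Icc] at hl
    exact ⟨hl.2, by omega, hl.1.2⟩
  have hM0pos : 0 < M0 := Finset.prod_pos fun l hl => (hT0p l hl).1.pos
  have hM0r : (1 : ℝ) ≤ M0 := by exact_mod_cast hM0pos
  have hM0odd : Odd (1 * M0) := by
    rw [one_mul, hM0]
    apply Finset.prod_induction _ Odd (fun a b ha hb => ha.mul hb) odd_one
    intro l hl
    exact (hT0p l hl).1.odd_of_ne_two (hT0p l hl).2.1
  have hM0sq : Squarefree (1 * M0) := by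
    rw [one_mul, hM0]
    apply Finset.squarefree_prod_of_pairwise_isCoprime
    · intro a ha b hb hab
      rw [Function.onFun, ← Nat.coprime_iff_isRelPrime, Nat.coprime_primes (hT0p a ha).1 (hT0p b hb).1]
      exact hab
    · intro l hl
      exact (hT0p l hl).1.squarefree
  -- parameters
  obtain ⟨B1, hB1⟩ := exists_nat_ge (8 * κ / ε)
  set B : ℕ := 100 * (16 * (C0 * C0) + 1) + B1 with hB
  have hBpos : 1 ≤ B := by omega
  have hBr : (0 : ℝ) < B := by exact_mod_cast hBpos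
  set δ : ℝ := 1 / (2 * B) with hδ
  set c2 : ℝ := c1 / (2 * (M0 : ℝ) ^ 4) with hc2
  have hc2pos : 0 < c2 := by positivity
  set c3 : ℝ := Real.exp (-(2 * κ)) with hc3
  have hc3pos : 0 < c3 := Real.exp_pos _
  obtain ⟨n1, hn1⟩ := large_rpow (C * (M0 : ℝ) ^ 15 / c2) (1 / 25) (by norm_num)
  obtain ⟨n2, hn2⟩ := large_rpow ((2 * C * (M0 : ℝ) ^ 11) / (c2 * c3 / 4)) (3 / 100) (by norm_num)
  obtain ⟨n3, hn3⟩ := large_rpow (1 / (c2 * c3 / 4)) (ε / 2) (by positivity)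
  refine ⟨δ, by positivity, n1 + n2 + n3 + 2 ^ B, ?_⟩
  intro n hno hnbig
  have hn : 1 ≤ n := hno.pos
  have hnr : (1 : ℝ) ≤ n := by exact_mod_cast hn
  have hn0 : (0 : ℝ) < n := by linarith
  have h2B : 0 < 2 ^ B := by positivity
  have hn1' := hn1 n (by omega)
  have hn2' := hn2 n (by omega)
  have hn3' := hn3 n (by omega)
  -- the class modulo M0
  have hex : ∀ l : ℕ, ∃ c : Fin 4 → ℤ, l ∈ T0 → (c ∈ Gl n l ∧ ¬ (l : ℤ) ∣ f c) := by
    intro l
    by_cases hl : l ∈ T0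
    · obtain ⟨c, hc⟩ := hloc l (hT0p l hl).1 (hT0p l hl).2.1 n
      exact ⟨c, fun _ => hc⟩
    · exact ⟨0, fun h => absurd h hl⟩
  choose cc hcc using hex
  set ccp : (l : ℕ) → l ∈ T0 → (Fin 4 → ℤ) := fun l _ => cc l with hccp
  have hccmem : ccp ∈ T0.pi (fun l => Gl n l) := by
    rw [Finset.mem_pi]
    intro l hl
    exact (hcc l hl).1
  have hT0cop : ∀ l ∈ T0, l.Prime ∧ ¬ l ∣ 1 := fun l hl =>
    ⟨(hT0p l hl).1, fun h => (hT0p l hl).1.one_lt.ne' (Nat.dvd_one.1 h)⟩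
  obtain ⟨u, hu, hNu⟩ := Nc_eq n 1 one_pos 0 (good_one n) T0 hT0cop ccp hccmem
  rw [← hM0] at hu hNu
  -- lower bound for the mass
  have hmass : c2 * (n : ℝ) ^ (1 - ε / 4) ≤ ((prc n (1 * M0) u).card : ℝ) := by
    have h1 := hdist n 1 hn one_pos odd_one squarefree_one 0 (good_one n) T0
      (fun l hl => ⟨(hT0p l hl).1, (hT0cop l hl).2, (hT0p l hl).2.1, ⟨cc l, (hcc l hl).1⟩⟩)
      (fun l => if l ∈ T0 then {cc l} else ∅)
      (fun l hl => by
        rw [if_pos hl]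
        exact Finset.singleton_subset_iff.2 (hcc l hl).1)
    have h2 : (prc n 1 0).filter (fun X => ∀ l ∈ T0, red l X ∈ (fun l => if l ∈ T0 then ({cc l} : Finset (Fin 4 → ℤ)) else ∅) l) =
        prc n (1 * M0) u := by
      rw [← hNu]
      unfold Nc
      apply Finset.filter_congr
      intro X _
      constructor
      · intro h l hl
        have := h l hl
        simp only [if_pos hl, Finset.mem_singleton] at this
        exact this
      · intro h l hl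
        simp only [if_pos hl, Finset.mem_singleton]
        exact h l hl
    rw [h2, prc_one, ← hM0] at h1
    have h3 : ∏ l ∈ T0, ((((if l ∈ T0 then ({cc l} : Finset (Fin 4 → ℤ)) else ∅).card : ℕ) : ℝ) / (Gl n l).card) ≥ 1 / (M0 : ℝ) ^ 4 := by
      have h4 : ∏ l ∈ T0, ((((if l ∈ T0 then ({cc l} : Finset (Fin 4 → ℤ)) else ∅).card : ℕ) : ℝ) / (Gl n l).card) =
          1 / ∏ l ∈ T0, ((Gl n l).card : ℝ) := by
        rw [one_div, ← Finset.prod_inv_distrib]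
        apply Finset.prod_congr rfl
        intro l hl
        rw [if_pos hl, Finset.card_singleton]
        simp
      rw [h4]
      have h5 : ∏ l ∈ T0, ((Gl n l).card : ℝ) ≤ (M0 : ℝ) ^ 4 := by
        rw [hM0]
        push_cast
        rw [← Finset.prod_pow]
        apply Finset.prod_le_prod
        · intro l _; positivity
        · intro l _
          exact_mod_cast card_Gl_le n l
      have h6 : 0 < ∏ l ∈ T0, ((Gl n l).card : ℝ) := by
        apply Finset.prod_pos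
        intro l hl
        exact_mod_cast Finset.card_pos.2 ⟨cc l, (hcc l hl).1⟩
      exact one_div_le_one_div_of_le h6 h5
    have h4 := (abs_le.1 h1).1
    have h5 := hlow n hno
    have h6 : c1 * (n : ℝ) ^ (1 - ε / 4) / (M0 : ℝ) ^ 4 ≤
        ((preps n).card : ℝ) * ∏ l ∈ T0, ((((if l ∈ T0 then ({cc l} : Finset (Fin 4 → ℤ)) else ∅).card : ℕ) : ℝ) / (Gl n l).card) := by
      calc c1 * (n : ℝ) ^ (1 - ε / 4) / (M0 : ℝ) ^ 4 = (c1 * (n : ℝ) ^ (1 - ε / 4)) * (1 / (M0 : ℝ) ^ 4) := by ring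
        _ ≤ _ := by
          apply mul_le_mul h5 h3 (by positivity) (by positivity)
    have h7 : C * (1 : ℝ) ^ 11 * ((M0 : ℕ) : ℝ) ^ 15 * (n : ℝ) ^ (19 / 20 : ℝ) ≤ c2 * (n : ℝ) ^ (1 - ε / 4) := by
      have h8 : (n : ℝ) ^ (1 / 25 : ℝ) * (n : ℝ) ^ (19 / 20 : ℝ) ≤ (n : ℝ) ^ (1 - ε / 4) := by
        rw [← Real.rpow_add hn0]
        apply Real.rpow_le_rpow_of_exponent_le hnr
        linarith
      rw [div_le_iff₀ hc2pos] at hn1'
      calc C * (1 : ℝ) ^ 11 * ((M0 : ℕ) : ℝ) ^ 15 * (n : ℝ) ^ (19 / 20 : ℝ) = (C * (M0 : ℝ) ^ 15) * (n : ℝ) ^ (19 / 20 : ℝ) := by ring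
        _ ≤ ((n : ℝ) ^ (1 / 25 : ℝ) * c2) * (n : ℝ) ^ (19 / 20 : ℝ) := by gcongr
        _ = c2 * ((n : ℝ) ^ (1 / 25 : ℝ) * (n : ℝ) ^ (19 / 20 : ℝ)) := by ring
        _ ≤ _ := by gcongr
    have h9 : c1 * (n : ℝ) ^ (1 - ε / 4) / (M0 : ℝ) ^ 4 = 2 * (c2 * (n : ℝ) ^ (1 - ε / 4)) := by
      rw [hc2]; field_simp
    push_cast at h4 h7
    linarith
  -- scale
  obtain ⟨J, hJ1, hJ2⟩ := exists_scale B n hBpos (by omega)
  set z : ℕ := 2 ^ 2 ^ J with hz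
  have hz2 : 2 ≤ z := by
    have h1 : 1 ≤ 2 ^ J := Nat.one_le_two_pow
    calc 2 = 2 ^ 1 := rfl
      _ ≤ 2 ^ 2 ^ J := Nat.pow_le_pow_right (by norm_num) h1
  have hzr : (2 : ℝ) ≤ z := by exact_mod_cast hz2
  have hz0r : (0 : ℝ) < z := by linarith
  have hzB : (z : ℝ) ≤ (n : ℝ) ^ (1 / (B : ℝ)) := by
    have h1 : (z : ℝ) ^ B ≤ n := by exact_mod_cast hJ1
    calc (z : ℝ) = ((z : ℝ) ^ B) ^ (1 / (B : ℝ)) := by
          rw [← Real.rpow_natCast, ← Real.rpow_mul hz0r.le, mul_one_div_cancel hBr.ne', Real.rpow_one]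
      _ ≤ _ := Real.rpow_le_rpow (by positivity) h1 (by positivity)
  have hzδ : (n : ℝ) ^ δ < z := by
    have h1 : (n : ℝ) < (z : ℝ) ^ (2 * B) := by
      have : (2 ^ 2 ^ (J + 1)) ^ B = z ^ (2 * B) := by
        rw [hz, pow_mul, ← pow_mul 2 (2 ^ J) 2, pow_succ]
      rw [this] at hJ2
      exact_mod_cast hJ2
    calc (n : ℝ) ^ δ < ((z : ℝ) ^ (2 * B)) ^ δ := Real.rpow_lt_rpow (by positivity) h1 (by positivity)
      _ = z := by
        rw [← Real.rpow_natCast, ← Real.rpow_mul hz0r.le, hδ]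
        push_cast
        rw [mul_one_div_cancel (by positivity), Real.rpow_one]
  -- primes
  set P : Finset ℕ := (Ioc z0 z).filter Nat.Prime with hP
  have hPp : ∀ p ∈ P, p.Prime ∧ z0 < p ∧ p ≤ z := by
    intro p hp
    rw [hP, Finset.mem_filter, Finset.mem_Ioc] at hp
    exact ⟨hp.2, hp.1.1, hp.1.2⟩
  have hP2 : ∀ p ∈ P, p ≠ 2 := fun p hp => by have := (hPp p hp).2.1; omega
  have hgb : ∀ p ∈ P, 0 ≤ gg f n p ∧ gg f n p ≤ κ / ((p : ℝ) - 1) := fun p hp =>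
    gg_bound f κ n p (hPp p hp).1 (hP2 p hp) (hbad p (hPp p hp).1 (hP2 p hp) n)
  set A := prc n (1 * M0) u with hA
  obtain ⟨e, he⟩ := exists_injective_nat (Fin 4 → ℤ)
  set Ω : Finset ℕ := A.map ⟨e, he⟩ with hΩ
  set hit : ℕ → ℕ → Prop := fun p m => ∀ X, e X = m → red p X ∈ Bl f n p with hhit
  have hhit' : ∀ p X, hit p (e X) ↔ red p X ∈ Bl f n p := by
    intro p X
    constructor
    · intro h; exact h X rfl
    · intro h Y hY
      rw [he hY]; exact h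
  set err : Finset ℕ → ℝ := fun T => C * (((1 * M0 : ℕ)) : ℝ) ^ 11 * ((∏ l ∈ T, l : ℕ) : ℝ) ^ 15 * (n : ℝ) ^ (19 / 20 : ℝ) with herr
  have hPM : ∀ p ∈ P, ¬ p ∣ 1 * M0 := by
    intro p hp h
    rw [one_mul, hM0] at h
    obtain ⟨l', hl', hll⟩ := ((hPp p hp).1.prime.dvd_finsetProd_iff _).1 h
    have hle : p = l' := (Nat.prime_dvd_prime_iff_eq (hPp p hp).1 (hT0p l' hl').1).1 hll
    have h1 := (hT0p l' hl').2.2
    have h2 := (hPp p hp).2.1
    omega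
  have hfl := hFL C0 J z0 P (gg f n) le_rfl (by omega) (fun p hp => ⟨(hPp p hp).1, (hPp p hp).2.1, (hPp p hp).2.2⟩)
    (fun p hp => hgb p hp) Ω (fun _ => 1) hit (A.card : ℝ) err (fun _ _ => zero_le_one) (by positivity)
    (fun T hT _ => by
      have h1 := hdist n (1 * M0) hn (by omega) hM0odd hM0sq u hu T
        (fun l hl => ⟨(hPp l (hT hl)).1, hPM l (hT hl), hP2 l (hT hl), by
          obtain ⟨c, hc, _⟩ := hloc l (hPp l (hT hl)).1 (hP2 l (hT hl)) n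
          exact ⟨c, hc⟩⟩)
        (fun l => Bl f n l) (fun l _ c hc => ((mem_Bl f n l c).1 hc).1)
      have h2 : ∑ m ∈ Ω.filter (fun m => ∀ p ∈ T, hit p m), (1 : ℝ) =
          (((prc n (1 * M0) u).filter (fun X => ∀ l ∈ T, red l X ∈ Bl f n l)).card : ℝ) := by
        rw [Finset.sum_const, nsmul_eq_mul, mul_one, hΩ, Finset.filter_map, Finset.card_map]
        congr 2
        ext X
        simp only [Finset.mem_filter, Function.comp, Function.Embedding.coeFn_mk, hhit']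
        rfl
      rw [h2]
      exact h1)
  -- the sifted set
  set S : Finset (Fin 4 → ℤ) := A.filter (fun X => ∀ p ∈ P, red p X ∉ Bl f n p) with hS
  have hScard : ∑ m ∈ Ω.filter (fun m => ∀ p ∈ P, ¬ hit p m), (1 : ℝ) = (S.card : ℝ) := by
    rw [Finset.sum_const, nsmul_eq_mul, mul_one, hΩ, Finset.filter_map, Finset.card_map]
    congr 2
    ext X
    simp only [Finset.mem_filter, Function.comp, Function.Embedding.coeFn_mk, hhit']
    rw [hS, Finset.mem_filter]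
  have hfl' : |(S.card : ℝ) - A.card * ∏ p ∈ P, (1 - gg f n p)| ≤
      (1 / 2 : ℝ) ^ C0 * (A.card * ∏ p ∈ P, (1 - gg f n p)) +
        ((J : ℝ) + 2) * ∑ T ∈ P.powerset.filter (fun T : Finset ℕ => ∏ p ∈ T, p ≤ z ^ (C0 * C0)), err T := by
    rw [← hScard]
    convert hfl using 3
  -- bounds
  have hz0le : 2 * (κ : ℝ) + 1 ≤ z0 := by
    rw [hz0]; push_cast
    have : (0:ℝ) ≤ C0 := by positivity
    linarith
  have hV : c3 * (z : ℝ) ^ (-(2 * κ : ℝ)) ≤ ∏ p ∈ P, (1 - gg f n p) := by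
    apply prod_lower κ z (by omega) P (fun p hp => ⟨(hPp p hp).1.two_le, (hPp p hp).2.2⟩) (gg f n)
      (fun p hp => (hgb p hp).1) (fun p hp => (hgb p hp).2)
    intro p hp
    refine (hgb p hp).2.trans ?_
    have h1 : (z0 : ℝ) < p := by exact_mod_cast (hPp p hp).2.1
    rw [div_le_div_iff₀ (by linarith) (by norm_num)]
    linarith
  set V := ∏ p ∈ P, (1 - gg f n p) with hVdef
  have hV0 : 0 ≤ V := le_trans (by positivity) hV
  have hhalf : (1 / 2 : ℝ) ^ C0 ≤ 1 / 2 := by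
    calc (1 / 2 : ℝ) ^ C0 ≤ (1 / 2 : ℝ) ^ 1 := pow_le_pow_of_le_one (by norm_num) (by norm_num) hC0
      _ = 1 / 2 := pow_one _
  have hErr : ((J : ℝ) + 2) * ∑ T ∈ P.powerset.filter (fun T : Finset ℕ => ∏ p ∈ T, p ≤ z ^ (C0 * C0)), err T ≤
      2 * C * (M0 : ℝ) ^ 11 * ((z : ℝ) ^ (16 * (C0 * C0) + 1) * (n : ℝ) ^ (19 / 20 : ℝ)) := by
    have h1 : ∀ T ∈ P.powerset.filter (fun T : Finset ℕ => ∏ p ∈ T, p ≤ z ^ (C0 * C0)), err T ≤
        C * (M0 : ℝ) ^ 11 * ((z : ℝ) ^ (C0 * C0)) ^ 15 * (n : ℝ) ^ (19 / 20 : ℝ) := by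
      intro T hT
      have h2 := (Finset.mem_filter.1 hT).2
      have h3 : ((∏ l ∈ T, l : ℕ) : ℝ) ≤ (z : ℝ) ^ (C0 * C0) := by exact_mod_cast h2
      rw [herr]
      simp only [one_mul]
      gcongr
    have h2 := Finset.sum_le_sum h1
    rw [Finset.sum_const, nsmul_eq_mul] at h2
    have h3 := card_sets P (fun p hp => (hPp p hp).1) (z ^ (C0 * C0))
    have h4 : (((P.powerset.filter (fun T : Finset ℕ => ∏ p ∈ T, p ≤ z ^ (C0 * C0))).card : ℕ) : ℝ) ≤ (z : ℝ) ^ (C0 * C0) := by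
      exact_mod_cast h3
    have hJz : (J : ℝ) + 2 ≤ 2 * z := by
      have h5 : J + 2 ≤ 2 * z := by
        have h6 : J < 2 ^ J := Nat.lt_two_pow_self
        have h7 : 2 ^ J < 2 ^ 2 ^ J := Nat.lt_two_pow_self
        omega
      exact_mod_cast h5
    calc ((J : ℝ) + 2) * ∑ T ∈ P.powerset.filter (fun T : Finset ℕ => ∏ p ∈ T, p ≤ z ^ (C0 * C0)), err T
        ≤ (2 * z) * ((z : ℝ) ^ (C0 * C0) * (C * (M0 : ℝ) ^ 11 * ((z : ℝ) ^ (C0 * C0)) ^ 15 * (n : ℝ) ^ (19 / 20 : ℝ))) := by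
          apply mul_le_mul hJz (h2.trans (by gcongr)) _ (by positivity)
          apply Finset.sum_nonneg
          intro T _
          rw [herr]
          positivity
      _ = _ := by ring
  have hzpow1 : (z : ℝ) ^ (16 * (C0 * C0) + 1) ≤ (n : ℝ) ^ (1 / 100 : ℝ) := by
    calc (z : ℝ) ^ (16 * (C0 * C0) + 1) ≤ ((n : ℝ) ^ (1 / (B : ℝ))) ^ (16 * (C0 * C0) + 1) := by gcongr
      _ = (n : ℝ) ^ ((16 * (C0 * C0) + 1 : ℕ) / (B : ℝ)) := by
        rw [← Real.rpow_natCast, ← Real.rpow_mul hn0.le]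
        congr 1
        ring
      _ ≤ _ := by
        apply Real.rpow_le_rpow_of_exponent_le hnr
        rw [div_le_div_iff₀ hBr (by norm_num)]
        have : (16 * (C0 * C0) + 1) * 100 ≤ 1 * B := by omega
        exact_mod_cast this
  have hzpow2 : (n : ℝ) ^ (-(ε / 4)) ≤ (z : ℝ) ^ (-(2 * κ : ℝ)) := by
    rw [Real.rpow_neg hn0.le, Real.rpow_neg hz0r.le]
    apply inv_anti₀ (Real.rpow_pos_of_pos hz0r _)
    calc (z : ℝ) ^ (2 * κ : ℝ) ≤ ((n : ℝ) ^ (1 / (B : ℝ))) ^ (2 * κ : ℝ) :=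
          Real.rpow_le_rpow hz0r.le hzB (by positivity)
      _ = (n : ℝ) ^ (2 * κ / (B : ℝ)) := by
        rw [← Real.rpow_mul hn0.le]
        congr 1
        ring
      _ ≤ _ := by
        apply Real.rpow_le_rpow_of_exponent_le hnr
        rw [div_le_iff₀ hBr]
        have h1 : 8 * (κ : ℝ) / ε ≤ B := by
          have : (B1 : ℝ) ≤ B := by exact_mod_cast (show B1 ≤ B by omega)
          linarith
        rw [div_le_iff₀ hε] at h1
        linarith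
  have hmain : c2 * c3 * (n : ℝ) ^ (1 - ε / 2) ≤ A.card * V := by
    calc c2 * c3 * (n : ℝ) ^ (1 - ε / 2) = (c2 * (n : ℝ) ^ (1 - ε / 4)) * (c3 * (n : ℝ) ^ (-(ε / 4))) := by
          have : (n : ℝ) ^ (1 - ε / 2) = (n : ℝ) ^ (1 - ε / 4) * (n : ℝ) ^ (-(ε / 4)) := by
            rw [← Real.rpow_add hn0]; congr 1; ring
          rw [this]; ring
      _ ≤ A.card * V := by
        apply mul_le_mul hmass _ (by positivity) (by positivity)
        exact le_trans (by gcongr) hV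
  refine ⟨S, ?_, ?_⟩
  · have h1 := (abs_le.1 hfl').1
    have h2 : (1 / 2 : ℝ) ^ C0 * (A.card * V) ≤ 1 / 2 * (A.card * V) := by
      apply mul_le_mul_of_nonneg_right hhalf (by positivity)
    have h3 : 2 * C * (M0 : ℝ) ^ 11 * ((z : ℝ) ^ (16 * (C0 * C0) + 1) * (n : ℝ) ^ (19 / 20 : ℝ)) ≤
        c2 * c3 / 4 * (n : ℝ) ^ (1 - ε / 2) := by
      rw [div_le_iff₀ (by positivity)] at hn2'
      have h4 : (n : ℝ) ^ (3 / 100 : ℝ) * ((n : ℝ) ^ (1 / 100 : ℝ) * (n : ℝ) ^ (19 / 20 : ℝ)) ≤ (n : ℝ) ^ (1 - ε / 2) := by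
        rw [← Real.rpow_add hn0, ← Real.rpow_add hn0]
        apply Real.rpow_le_rpow_of_exponent_le hnr
        linarith
      calc 2 * C * (M0 : ℝ) ^ 11 * ((z : ℝ) ^ (16 * (C0 * C0) + 1) * (n : ℝ) ^ (19 / 20 : ℝ))
          ≤ ((n : ℝ) ^ (3 / 100 : ℝ) * (c2 * c3 / 4)) * ((n : ℝ) ^ (1 / 100 : ℝ) * (n : ℝ) ^ (19 / 20 : ℝ)) := by gcongr
        _ = c2 * c3 / 4 * ((n : ℝ) ^ (3 / 100 : ℝ) * ((n : ℝ) ^ (1 / 100 : ℝ) * (n : ℝ) ^ (19 / 20 : ℝ))) := by ring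
        _ ≤ _ := by gcongr
    have h5 : (n : ℝ) ^ (1 - ε) ≤ c2 * c3 / 4 * (n : ℝ) ^ (1 - ε / 2) := by
      rw [div_le_iff₀ (by positivity)] at hn3'
      have h6 : (n : ℝ) ^ (1 - ε / 2) = (n : ℝ) ^ (ε / 2) * (n : ℝ) ^ (1 - ε) := by
        rw [← Real.rpow_add hn0]; congr 1; ring
      rw [h6]
      calc (n : ℝ) ^ (1 - ε) = 1 * (n : ℝ) ^ (1 - ε) := (one_mul _).symm
        _ ≤ ((n : ℝ) ^ (ε / 2) * (c2 * c3 / 4)) * (n : ℝ) ^ (1 - ε) := by gcongr
        _ = _ := by ring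
    linarith
  · intro X hX
    rw [hS, Finset.mem_filter] at hX
    obtain ⟨hXA, hXP⟩ := hX
    have hXA' := hXA
    rw [hA] at hXA'
    unfold prc at hXA'
    rw [Finset.mem_filter, mem_repsc] at hXA'
    refine ⟨hXA'.1.1, hXA'.2, ?_⟩
    intro l hl hl2 hln hdvd
    have hlz : (l : ℝ) < z := lt_of_le_of_lt hln hzδ
    have hlz' : l < z := by exact_mod_cast hlz
    by_cases hlz0 : l ≤ z0
    · have hlT : l ∈ T0 := by
        rw [hT0, Finset.mem_filter, Finset.mem_Icc]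
        have := hl.two_le
        exact ⟨⟨by omega, hlz0⟩, hl⟩
      have hXN : X ∈ Nc n 1 0 T0 ccp := by
        rw [hNu]; exact hXA
      unfold Nc at hXN
      rw [Finset.mem_filter] at hXN
      have h1 := hXN.2 l hlT
      have h2 := red_dvd l X
      rw [h1] at h2
      have h3 := hcong l X (cc l) h2
      have h4 := dvd_sub hdvd h3
      rw [sub_sub_cancel] at h4
      exact (hcc l hlT).2 h4
    · have hlP : l ∈ P := by
        rw [hP, Finset.mem_filter, Finset.mem_Ioc]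
        exact ⟨⟨by omega, hlz'.le⟩, hl⟩
      apply hXP l hlP
      rw [mem_Bl]
      refine ⟨red_mem n l hl X hXA'.1.1 hXA'.2, ?_⟩
      have h3 := hcong l X (red l X) (red_dvd l X)
      have h4 := dvd_sub hdvd h3
      rwa [sub_sub_cancel] at h4

end Pool.Agent.W65.FS
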