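import Pool.Agent.W65.FS.RowK
import Pool.Agent.H442R2.KF.SumV
import Pool.Agent.Helper426.TW.Resid

/-!
# Summation of the row bounds
-/

set_option autoImplicit false
open Finset Pool.Agent.H442R2.KF

namespace Pool.Agent.W65.FS

lemma abel_aux (a : ℕ → ℝ) (ha : ∀ c, 0 ≤ a c) (K : ℝ) (N : ℕ) (hN : 1 ≤ N)
    (hA : ∀ X, 1 ≤ X → X ≤ N → ∑ c ∈ Icc 1 X, a c ≤ K * X) :
    ∑ c ∈ Icc 1 N, a c / Real.sqrt c - (∑ c ∈ Icc 1 N, a c) / Real.sqrt N ≤ K * Real.sqrt N := by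
  have hK : 0 ≤ K := by
    have := hA 1 le_rfl hN
    simp at this
    linarith [ha 1]
  induction N, hN using Nat.le_induction with
  | base => simp [hK]
  | succ N hN ih =>
    have ih' := ih (fun X h1 h2 => hA X h1 (by omega))
    rw [Finset.sum_Icc_succ_top (by omega), Finset.sum_Icc_succ_top (by omega)]
    have hAN := hA N hN (by omega)
    set s := Real.sqrt (N : ℝ) with hs
    set t := Real.sqrt ((N + 1 : ℕ) : ℝ) with ht
    have hN0 : (0 : ℝ) < N := by exact_mod_cast hN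
    have hs0 : 0 < s := Real.sqrt_pos.2 hN0
    have ht0 : 0 < t := Real.sqrt_pos.2 (by positivity)
    have hst : s ≤ t := Real.sqrt_le_sqrt (by push_cast; linarith)
    have hs2 : s ^ 2 = N := Real.sq_sqrt hN0.le
    have ht2 : t ^ 2 = N + 1 := by
      rw [ht, Real.sq_sqrt (by positivity)]; push_cast; ring
    set A := ∑ c ∈ Icc 1 N, a c with hAdef
    set S := ∑ c ∈ Icc 1 N, a c / Real.sqrt c with hSdef
    have e1 : S + a (N + 1) / t - (A + a (N + 1)) / t = (S - A / s) + A * (1 / s - 1 / t) := by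
      field_simp
      ring
    rw [e1]
    have h1 : 0 ≤ 1 / s - 1 / t := by
      have := one_div_le_one_div_of_le hs0 hst
      linarith
    have h2 : A * (1 / s - 1 / t) ≤ K * N * (1 / s - 1 / t) := by gcongr
    have h3 : K * s + K * N * (1 / s - 1 / t) ≤ K * t := by
      rw [← hs2]
      have e2 : K * s + K * s ^ 2 * (1 / s - 1 / t) = K * (2 * s - s ^ 2 / t) := by
        field_simp
        ring
      rw [e2]
      apply mul_le_mul_of_nonneg_left _ hK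
      have h4 : 2 * s * t ≤ s ^ 2 + t ^ 2 := by nlinarith [sq_nonneg (s - t)]
      have h5 : 2 * s - s ^ 2 / t = (2 * s * t - s ^ 2) / t := by field_simp
      rw [h5, div_le_iff₀ ht0]
      nlinarith
    linarith

lemma abel (a : ℕ → ℝ) (ha : ∀ c, 0 ≤ a c) (K : ℝ) (N : ℕ) (hN : 1 ≤ N)
    (hA : ∀ X, 1 ≤ X → X ≤ N → ∑ c ∈ Icc 1 X, a c ≤ K * X) :
    ∑ c ∈ Icc 1 N, a c / Real.sqrt c ≤ 2 * K * Real.sqrt N := by
  have h1 := abel_aux a ha K N hN hA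
  have hN0 : (0 : ℝ) < N := by exact_mod_cast hN
  have hs0 : 0 < Real.sqrt N := Real.sqrt_pos.2 hN0
  have h2 : (∑ c ∈ Icc 1 N, a c) / Real.sqrt N ≤ K * Real.sqrt N := by
    rw [div_le_iff₀ hs0]
    have := hA N hN le_rfl
    have h3 : Real.sqrt N * Real.sqrt N = N := Real.mul_self_sqrt hN0.le
    calc _ ≤ K * N := this
      _ = K * Real.sqrt N * Real.sqrt N := by rw [mul_assoc, h3]
  linarith

/-- real divisor bound -/
lemma tau_bound : ∃ K : ℝ, 1 ≤ K ∧ ∀ n : ℕ, n ≠ 0 → (n.divisors.card : ℝ) ≤ K * (n : ℝ) ^ (1 / 10 : ℝ) := by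
  obtain ⟨K, hK⟩ := Helper426.TW.divisor_bound
  refine ⟨max 1 ((K : ℝ) ^ (1 / 10 : ℝ)), le_max_left _ _, fun n hn => ?_⟩
  have h1 := hK n hn
  have h2 : ((n.divisors.card : ℝ)) ^ (10 : ℕ) ≤ (K : ℝ) * n := by
    have h3 := (Nat.cast_le (α := ℝ)).2 h1
    rw [Nat.cast_pow, Nat.cast_mul] at h3
    exact h3
  have h3 : (n.divisors.card : ℝ) = (((n.divisors.card : ℝ)) ^ (10 : ℕ)) ^ (1 / 10 : ℝ) := by
    rw [← Real.rpow_natCast, ← Real.rpow_mul (Nat.cast_nonneg _)]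
    norm_num
  rw [h3]
  calc (((n.divisors.card : ℝ)) ^ (10 : ℕ)) ^ (1 / 10 : ℝ) ≤ ((K : ℝ) * n) ^ (1 / 10 : ℝ) := by
        apply Real.rpow_le_rpow (pow_nonneg (Nat.cast_nonneg _) _) h2 (by norm_num)
    _ = (K : ℝ) ^ (1 / 10 : ℝ) * (n : ℝ) ^ (1 / 10 : ℝ) := Real.mul_rpow (Nat.cast_nonneg _) (Nat.cast_nonneg _)
    _ ≤ _ := by
      gcongr
      exact le_max_right _ _

/-- one row, simplified -/
lemma rowB_eq (n D N c : ℕ) (hc : 0 < c) (hD : 0 < D) :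
    rowB n D N c (Bc n D c) = 8192 * (D : ℝ) ^ 10 * ((n : ℝ) / (N + 1)) *
      ((c.divisors.card : ℝ) * (3 + Real.log c)) * (Real.sqrt (vp (2 * D * n) c) / Real.sqrt c) := by
  obtain ⟨hsq, hq0, hqc, hv0, hqv, hcop, hG, hdiv⟩ := qp_facts (2 * D * n) c hc
  unfold rowB Bc
  set q := qp (2 * D * n) c with hq
  set w := vp (2 * D * n) c with hw
  have hqr : (0 : ℝ) < q := by exact_mod_cast hq0
  have hwr : (0 : ℝ) < w := by exact_mod_cast hv0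
  have hDr : (0 : ℝ) < D := by exact_mod_cast hD
  have hcq : (c : ℝ) = q * w := by rw [← hqv]; push_cast; ring
  have hsc : Real.sqrt (c : ℝ) = Real.sqrt q * Real.sqrt w := by rw [hcq, Real.sqrt_mul hqr.le]
  rw [hsc]
  have hsq0 : 0 < Real.sqrt (q : ℝ) := Real.sqrt_pos.2 hqr
  have hsw0 : 0 < Real.sqrt (w : ℝ) := Real.sqrt_pos.2 hwr
  have hq2 : Real.sqrt (q : ℝ) * Real.sqrt (q : ℝ) = q := Real.mul_self_sqrt hqr.le
  generalize (3 + Real.log (c : ℝ)) = L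
  rw [hcq]
  generalize hsqq : Real.sqrt (q : ℝ) = s at *
  generalize hsww : Real.sqrt (w : ℝ) = t at *
  have hN : (0 : ℝ) < (N : ℝ) + 1 := by positivity
  rw [← hq2]
  field_simp
  ring

/-- **two good classes have almost the same number of representations** -/
theorem class_bound : ∃ C : ℝ, 0 < C ∧ ∀ (n D : ℕ), 1 ≤ n → 0 < D → Odd D → Squarefree D →
    ∀ u u' : Fin 4 → ℤ, Good n D u → Good n D u' →
      |((repsc n D u).card : ℝ) - (repsc n D u').card| ≤ C * (D : ℝ) ^ 11 * (n : ℝ) ^ (19 / 20 : ℝ) := by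
  obtain ⟨K, hK1, hK⟩ := tau_bound
  refine ⟨Real.exp (2 * Real.pi) * (4 * 8192 * (K * 23) * (6 * 21 * (2 * K))), by positivity, ?_⟩
  intro n D hn hD hDo hDs u u' hu hu'
  set N := Nat.sqrt n with hNdef
  have hN2 : N ^ 2 ≤ n := by rw [pow_two]; exact Nat.sqrt_le n
  have hN : n < (N + 1) ^ 2 := by rw [pow_two]; exact Nat.lt_succ_sqrt n
  have hN1 : 1 ≤ N := by
    by_contra h
    have : N = 0 := by omega
    rw [this] at hN
    omega
  have h1 := class_diff n D N hn hD hN hN2 u u' (fun c => Bc n D c)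
    (fun c _ _ a ha => Tk_indep n D hDo hDs u u' hu hu' c a ha)
    (fun c _ _ => rowHyp n D N c hD u) (fun c _ _ => rowHyp n D N c hD u')
  refine h1.trans ?_
  have hnr : (1 : ℝ) ≤ n := by exact_mod_cast hn
  have hn0 : (0 : ℝ) < n := by linarith
  have hNr : (1 : ℝ) ≤ N := by exact_mod_cast hN1
  have hN0 : (0 : ℝ) < N := by linarith
  have hDr : (1 : ℝ) ≤ D := by exact_mod_cast hD
  have hNn : (N : ℝ) ≤ (n : ℝ) ^ (1 / 2 : ℝ) := by
    rw [← Real.sqrt_eq_rpow]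
    apply Real.le_sqrt_of_sq_le
    exact_mod_cast hN2
  have hlogN : Real.log N ≤ 20 * (n : ℝ) ^ (1 / 40 : ℝ) := by
    have h2 := Real.log_le_rpow_div hN0.le (show (0:ℝ) < 1 / 20 by norm_num)
    have h3 : (N : ℝ) ^ (1 / 20 : ℝ) ≤ (n : ℝ) ^ (1 / 40 : ℝ) := by
      calc (N : ℝ) ^ (1 / 20 : ℝ) ≤ ((n : ℝ) ^ (1 / 2 : ℝ)) ^ (1 / 20 : ℝ) :=
            Real.rpow_le_rpow hN0.le hNn (by norm_num)
        _ = _ := by rw [← Real.rpow_mul hn0.le]; norm_num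
    calc Real.log N ≤ (N : ℝ) ^ (1 / 20 : ℝ) / (1 / 20) := h2
      _ = 20 * (N : ℝ) ^ (1 / 20 : ℝ) := by ring
      _ ≤ _ := by gcongr
  have hn40 : 1 ≤ (n : ℝ) ^ (1 / 40 : ℝ) := Real.one_le_rpow hnr (by norm_num)
  have hlog0 : 0 ≤ Real.log N := Real.log_nonneg hNr
  -- pointwise bound
  set X := (n : ℝ) ^ (1 / 40 : ℝ) with hX
  have hpt : ∀ c ∈ Icc 1 N, 4 * rowB n D N c (Bc n D c) ≤
      4 * 8192 * (D : ℝ) ^ 10 * ((n : ℝ) ^ (1 / 2 : ℝ)) * (K * (n : ℝ) ^ (1 / 20 : ℝ) * (23 * X)) *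
        (Real.sqrt (vp (2 * D * n) c) / Real.sqrt c) := by
    intro c hc
    rw [Finset.mem_Icc] at hc
    rw [rowB_eq n D N c (by omega) hD]
    have hcr : (1 : ℝ) ≤ c := by exact_mod_cast hc.1
    have hcN : (c : ℝ) ≤ N := by exact_mod_cast hc.2
    have hlc : Real.log c ≤ Real.log N := Real.log_le_log (by linarith) hcN
    have hlc0 : 0 ≤ Real.log c := Real.log_nonneg hcr
    have hτ : (c.divisors.card : ℝ) ≤ K * (n : ℝ) ^ (1 / 20 : ℝ) := by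
      refine (hK c (by omega)).trans ?_
      gcongr
      calc (c : ℝ) ^ (1 / 10 : ℝ) ≤ ((n : ℝ) ^ (1 / 2 : ℝ)) ^ (1 / 10 : ℝ) :=
            Real.rpow_le_rpow (by linarith) (hcN.trans hNn) (by norm_num)
        _ = _ := by rw [← Real.rpow_mul hn0.le]; norm_num
    have hL : 3 + Real.log c ≤ 23 * X := by linarith
    have hnN : (n : ℝ) / (N + 1) ≤ (n : ℝ) ^ (1 / 2 : ℝ) := by
      rw [div_le_iff₀ (by linarith), ← Real.sqrt_eq_rpow]
      have h5 : Real.sqrt n ≤ N + 1 := by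
        apply Real.sqrt_le_iff.2
        refine ⟨by linarith, ?_⟩
        have : (n : ℝ) < ((N : ℝ) + 1) ^ 2 := by exact_mod_cast hN
        linarith
      calc (n : ℝ) = Real.sqrt n * Real.sqrt n := (Real.mul_self_sqrt hn0.le).symm
        _ ≤ Real.sqrt n * (N + 1) := by gcongr
    calc 4 * (8192 * (D : ℝ) ^ 10 * ((n : ℝ) / (N + 1)) * ((c.divisors.card : ℝ) * (3 + Real.log c)) *
          (Real.sqrt (vp (2 * D * n) c) / Real.sqrt c))
        = 4 * 8192 * (D : ℝ) ^ 10 * ((n : ℝ) / (N + 1)) * ((c.divisors.card : ℝ) * (3 + Real.log c)) *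
          (Real.sqrt (vp (2 * D * n) c) / Real.sqrt c) := by ring
      _ ≤ _ := by gcongr
  have hsum : ∑ c ∈ Icc 1 N, Real.sqrt (vp (2 * D * n) c) / Real.sqrt c ≤
      2 * (3 * (1 + Real.log N) * tau (2 * D * n)) * Real.sqrt N := by
    apply abel (fun c => Real.sqrt (vp (2 * D * n) c)) (fun c => Real.sqrt_nonneg _) _ N hN1
    intro M hM1 hMN
    have h5 := sum_vp M (2 * D * n) hM1 (by positivity)
    have hMr : (1 : ℝ) ≤ M := by exact_mod_cast hM1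
    have hlM : Real.log M ≤ Real.log N := Real.log_le_log (by linarith) (by exact_mod_cast hMN)
    have hτ0 : 0 ≤ tau (2 * D * n) := by unfold tau; positivity
    calc _ ≤ 3 * (M : ℝ) * (1 + Real.log M) * tau (2 * D * n) := h5
      _ ≤ 3 * (M : ℝ) * (1 + Real.log N) * tau (2 * D * n) := by gcongr
      _ = _ := by ring
  have hτG : tau (2 * D * n) ≤ 2 * K * ((D : ℝ) * (n : ℝ) ^ (1 / 10 : ℝ)) := by
    unfold tau
    refine (hK (2 * D * n) (by positivity)).trans ?_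
    push_cast
    rw [Real.mul_rpow (by positivity) (by positivity), Real.mul_rpow (by positivity) (by positivity)]
    have e1 : (2 : ℝ) ^ (1 / 10 : ℝ) ≤ 2 := by
      calc (2 : ℝ) ^ (1 / 10 : ℝ) ≤ (2 : ℝ) ^ (1 : ℝ) := Real.rpow_le_rpow_of_exponent_le (by norm_num) (by norm_num)
        _ = 2 := Real.rpow_one 2
    have e2 : (D : ℝ) ^ (1 / 10 : ℝ) ≤ D := by
      calc (D : ℝ) ^ (1 / 10 : ℝ) ≤ (D : ℝ) ^ (1 : ℝ) := Real.rpow_le_rpow_of_exponent_le hDr (by norm_num)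
        _ = D := Real.rpow_one _
    calc K * ((2 : ℝ) ^ (1 / 10 : ℝ) * (D : ℝ) ^ (1 / 10 : ℝ) * (n : ℝ) ^ (1 / 10 : ℝ)) ≤
        K * (2 * (D : ℝ) * (n : ℝ) ^ (1 / 10 : ℝ)) := by gcongr
      _ = _ := by ring
  have hsqN : Real.sqrt N ≤ (n : ℝ) ^ (1 / 4 : ℝ) := by
    rw [Real.sqrt_eq_rpow]
    calc (N : ℝ) ^ (1 / 2 : ℝ) ≤ ((n : ℝ) ^ (1 / 2 : ℝ)) ^ (1 / 2 : ℝ) :=
          Real.rpow_le_rpow hN0.le hNn (by norm_num)
      _ = _ := by rw [← Real.rpow_mul hn0.le]; norm_num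
  have hτ0 : 0 ≤ tau (2 * D * n) := by unfold tau; positivity
  have hsum2 : ∑ c ∈ Icc 1 N, Real.sqrt (vp (2 * D * n) c) / Real.sqrt c ≤
      6 * 21 * (2 * K) * (X * ((D : ℝ) * (n : ℝ) ^ (1 / 10 : ℝ)) * (n : ℝ) ^ (1 / 4 : ℝ)) := by
    refine hsum.trans ?_
    have hL : 1 + Real.log N ≤ 21 * X := by linarith
    calc 2 * (3 * (1 + Real.log N) * tau (2 * D * n)) * Real.sqrt N ≤
        2 * (3 * (21 * X) * (2 * K * ((D : ℝ) * (n : ℝ) ^ (1 / 10 : ℝ)))) * (n : ℝ) ^ (1 / 4 : ℝ) := by gcongr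
      _ = _ := by ring
  have hpow : (n : ℝ) ^ (1 / 2 : ℝ) * (n : ℝ) ^ (1 / 20 : ℝ) * X * X * (n : ℝ) ^ (1 / 10 : ℝ) * (n : ℝ) ^ (1 / 4 : ℝ) =
      (n : ℝ) ^ (19 / 20 : ℝ) := by
    rw [hX, ← Real.rpow_add hn0, ← Real.rpow_add hn0, ← Real.rpow_add hn0, ← Real.rpow_add hn0, ← Real.rpow_add hn0]
    norm_num
  calc Real.exp (2 * Real.pi) * ∑ c ∈ Icc 1 N, 4 * rowB n D N c (Bc n D c)
      ≤ Real.exp (2 * Real.pi) * ∑ c ∈ Icc 1 N, 4 * 8192 * (D : ℝ) ^ 10 * ((n : ℝ) ^ (1 / 2 : ℝ)) *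
        (K * (n : ℝ) ^ (1 / 20 : ℝ) * (23 * X)) * (Real.sqrt (vp (2 * D * n) c) / Real.sqrt c) := by
        exact mul_le_mul_of_nonneg_left (Finset.sum_le_sum hpt) (Real.exp_pos _).le
    _ = Real.exp (2 * Real.pi) * (4 * 8192 * (D : ℝ) ^ 10 * ((n : ℝ) ^ (1 / 2 : ℝ)) *
        (K * (n : ℝ) ^ (1 / 20 : ℝ) * (23 * X)) * ∑ c ∈ Icc 1 N, (Real.sqrt (vp (2 * D * n) c) / Real.sqrt c)) := by
        congr 1
        rw [← Finset.mul_sum]
    _ ≤ Real.exp (2 * Real.pi) * (4 * 8192 * (D : ℝ) ^ 10 * ((n : ℝ) ^ (1 / 2 : ℝ)) *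
        (K * (n : ℝ) ^ (1 / 20 : ℝ) * (23 * X)) *
          (6 * 21 * (2 * K) * (X * ((D : ℝ) * (n : ℝ) ^ (1 / 10 : ℝ)) * (n : ℝ) ^ (1 / 4 : ℝ)))) := by gcongr
    _ = Real.exp (2 * Real.pi) * (4 * 8192 * (K * 23) * (6 * 21 * (2 * K))) * (D : ℝ) ^ 11 *
        ((n : ℝ) ^ (1 / 2 : ℝ) * (n : ℝ) ^ (1 / 20 : ℝ) * X * X * (n : ℝ) ^ (1 / 10 : ℝ) * (n : ℝ) ^ (1 / 4 : ℝ)) := by ring
    _ = _ := by rw [hpow]

end Pool.Agent.W65.FS
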