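import Mathlib

/-!
# Theta series of an arithmetic progression at rational points
-/

set_option autoImplicit false
open Finset Complex

namespace Pool.Agent.W65.FS

/-- term of the theta series -/
noncomputable def tht (y : ℝ) (D : ℕ) (u : ℤ) (α : ℝ) (t : ℤ) : ℂ :=
  cexp (2 * Real.pi * I * ((u + D * t : ℤ) : ℂ) ^ 2 * ((α : ℂ) + y * I))

/-- theta series of the progression `u mod D` -/
noncomputable def theta (y : ℝ) (D : ℕ) (u : ℤ) (α : ℝ) : ℂ := ∑' t : ℤ, tht y D u α t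

lemma norm_tht (y : ℝ) (D : ℕ) (u : ℤ) (α : ℝ) (t : ℤ) :
    ‖tht y D u α t‖ = Real.exp (-2 * Real.pi * y * ((u + D * t : ℤ) : ℝ) ^ 2) := by
  unfold tht
  rw [Complex.norm_exp]
  congr 1
  have : (2 * Real.pi * I * ((u + D * t : ℤ) : ℂ) ^ 2 * ((α : ℂ) + y * I)) =
    ((-2 * Real.pi * y * ((u + D * t : ℤ) : ℝ) ^ 2 : ℝ) : ℂ) +
      ((2 * Real.pi * α * ((u + D * t : ℤ) : ℝ) ^ 2 : ℝ) : ℂ) * I := by
    push_cast
    ring_nf
    rw [I_sq]
    ring
  rw [this, Complex.add_re, Complex.ofReal_re, Complex.re_ofReal_mul, Complex.I_re]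
  ring

lemma summable_gauss (y : ℝ) (hy : 0 < y) : Summable (fun x : ℤ => Real.exp (-2 * Real.pi * y * (x : ℝ) ^ 2)) := by
  have h := (summable_jacobiTheta₂_term_iff 0 (((2 * y : ℝ) : ℂ) * I)).2 (by simp [hy])
  refine h.norm.congr fun n => ?_
  rw [norm_jacobiTheta₂_term]
  congr 1
  simp
  ring

lemma summable_norm_tht (y : ℝ) (hy : 0 < y) (D : ℕ) (hD : 0 < D) (u : ℤ) (α : ℝ) :
    Summable (fun t : ℤ => ‖tht y D u α t‖) := by
  simp_rw [norm_tht]
  have hinj : Function.Injective (fun t : ℤ => u + D * t) := by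
    intro s t hst
    have h2 : (D : ℤ) * s = D * t := by
      have := hst
      simp only at this
      linarith
    exact mul_left_cancel₀ (by exact_mod_cast hD.ne') h2
  exact (summable_gauss y hy).comp_injective hinj

lemma norm_dual (A : ℂ) (k : ℤ) :
    ‖cexp (-Real.pi * k ^ 2 / A)‖ = Real.exp (-Real.pi * (k : ℝ) ^ 2 * (A⁻¹).re) := by
  rw [Complex.norm_exp]
  congr 1
  have : (-Real.pi * k ^ 2 / A : ℂ) = ((-Real.pi * (k : ℝ) ^ 2 : ℝ) : ℂ) * A⁻¹ := by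
    push_cast
    rw [div_eq_mul_inv]
  rw [this, Complex.re_ofReal_mul]

lemma inv_re_pos (A : ℂ) (h : 0 < A.re) : 0 < (A⁻¹).re := by
  rw [Complex.inv_re]
  apply div_pos h
  rw [Complex.normSq_pos]
  rintro rfl
  simp at h

lemma summable_dual (A : ℂ) (hA : 0 < A.re) : Summable (fun k : ℤ => ‖cexp (-Real.pi * k ^ 2 / A)‖) := by
  have h := summable_gauss ((A⁻¹).re / 2) (by have := inv_re_pos A hA; linarith)
  refine h.congr fun k => ?_
  rw [norm_dual]
  congr 1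
  ring

/-- Poisson summation in a progression -/
lemma poisson (z : ℂ) (hz : 0 < z.im) (m : ℕ) (hm : 0 < m) (ρ : ℤ) :
    ∑' w : ℤ, cexp (2 * Real.pi * I * ((ρ + m * w : ℤ) : ℂ) ^ 2 * z) =
      1 / (-2 * I * (m : ℂ) ^ 2 * z) ^ (1 / 2 : ℂ) *
        ∑' k : ℤ, cexp (2 * Real.pi * I * (k * ρ / m)) * cexp (-Real.pi * k ^ 2 / (-2 * I * (m : ℂ) ^ 2 * z)) := by
  have hm0 : (m : ℂ) ≠ 0 := by exact_mod_cast hm.ne'
  have hmr : (0 : ℝ) < m := by exact_mod_cast hm
  have hz0 : z ≠ 0 := by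
    rintro rfl
    simp at hz
  set A : ℂ := -2 * I * (m : ℂ) ^ 2 * z with hA
  have hA0 : A ≠ 0 := by
    rw [hA]
    simp [hm0, hz0]
  have hAre : 0 < A.re := by
    have : A = (2 * m ^ 2 * z.im : ℝ) + (-2 * m ^ 2 * z.re : ℝ) * I := by
      rw [hA]
      conv_lhs => rw [← Complex.re_add_im z]
      push_cast
      ring_nf
      rw [I_sq]
      ring
    rw [this, Complex.add_re, Complex.ofReal_re, Complex.re_ofReal_mul, Complex.I_re]
    have : 0 < 2 * (m : ℝ) ^ 2 * z.im := by positivity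
    linarith
  have h := Complex.tsum_exp_neg_quadratic hAre (2 * I * ρ * m * z)
  have h1 : ∀ w : ℤ, cexp (2 * Real.pi * I * ((ρ + m * w : ℤ) : ℂ) ^ 2 * z) =
      cexp (2 * Real.pi * I * ρ ^ 2 * z) *
        cexp (-Real.pi * A * w ^ 2 + 2 * Real.pi * (2 * I * ρ * m * z) * w) := by
    intro w
    rw [← Complex.exp_add]
    congr 1
    rw [hA]
    push_cast
    ring
  simp_rw [h1]
  rw [tsum_mul_left, h, ← mul_assoc, mul_comm (cexp _) (1 / _), mul_assoc, ← tsum_mul_left]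
  congr 1
  apply tsum_congr
  intro k
  rw [← Complex.exp_add, ← Complex.exp_add]
  congr 1
  have hI4 : I ^ 4 = 1 := by
    have : I ^ 4 = (I ^ 2) ^ 2 := by ring
    rw [this, I_sq]; norm_num
  rw [hA]
  field_simp
  ring_nf
  rw [I_sq, hI4]
  ring

lemma sum_zmod (c : ℕ) [NeZero c] (f : ZMod c → ℂ) :
    ∑ s : ZMod c, f s = ∑ s : Fin c, f ((s : ℕ) : ZMod c) := by
  obtain ⟨n, rfl⟩ : ∃ n, c = n + 1 := ⟨c - 1, by have := NeZero.ne c; omega⟩
  show ∑ s : Fin (n + 1), f s = _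
  apply Finset.sum_congr rfl
  intro s _
  congr 1
  exact (Fin.cast_val_eq_self s).symm

/-- the local Gauss sum -/
noncomputable def gs (c : ℕ) [NeZero c] (D : ℕ) (a u k : ZMod c) : ℂ :=
  ∑ s : ZMod c, ZMod.stdAddChar (a * (u + (D : ZMod c) * s) ^ 2 + k * s)

/-- the theta series at a rational point -/
theorem theta_rational (y : ℝ) (hy : 0 < y) (D : ℕ) (hD : 0 < D) (u : ℤ) (c : ℕ) [NeZero c] (a : ℤ) (β : ℝ) :
    theta y D u ((a : ℝ) / c + β) =
      1 / (-2 * I * ((c * D : ℕ) : ℂ) ^ 2 * ((β : ℂ) + y * I)) ^ (1 / 2 : ℂ) *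
        ∑' k : ℤ, cexp (2 * Real.pi * I * (k * u / ((c * D : ℕ) : ℂ))) *
          gs c D (a : ZMod c) (u : ZMod c) (k : ZMod c) *
          cexp (-Real.pi * k ^ 2 / (-2 * I * ((c * D : ℕ) : ℂ) ^ 2 * ((β : ℂ) + y * I))) := by
  have hc : 0 < c := Nat.pos_of_ne_zero (NeZero.ne c)
  have hc0 : (c : ℂ) ≠ 0 := by exact_mod_cast hc.ne'
  have hD0 : (D : ℂ) ≠ 0 := by exact_mod_cast hD.ne'
  have hm : 0 < c * D := Nat.mul_pos hc hD
  set z : ℂ := (β : ℂ) + y * I with hz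
  have hzim : 0 < z.im := by simp [hz, hy]
  set A : ℂ := -2 * I * ((c * D : ℕ) : ℂ) ^ 2 * z with hA
  have hsum := summable_norm_tht y hy D hD u ((a : ℝ) / c + β)
  have hterm : ∀ (w : ℤ) (s : Fin c), tht y D u ((a : ℝ) / c + β) (w * c + s) =
      cexp (2 * Real.pi * I * (a * (u + D * (s : ℕ)) ^ 2 / c)) *
        cexp (2 * Real.pi * I * (((u + D * (s : ℕ) : ℤ) + (c * D : ℕ) * w : ℤ) : ℂ) ^ 2 * z) := by
    intro w s
    unfold tht
    rw [← Complex.exp_add]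
    set M : ℤ := a * (2 * (u + D * (s : ℕ)) * D * w + D ^ 2 * c * w ^ 2) with hM
    have : 2 * Real.pi * I * ((u + D * (w * c + (s : ℕ)) : ℤ) : ℂ) ^ 2 * ((((a : ℝ) / c + β : ℝ) : ℂ) + y * I) =
        (2 * Real.pi * I * (a * (u + D * (s : ℕ)) ^ 2 / c) +
          2 * Real.pi * I * (((u + D * (s : ℕ) : ℤ) + (c * D : ℕ) * w : ℤ) : ℂ) ^ 2 * z) +
          (M : ℂ) * (2 * Real.pi * I) := by
      rw [hz, hM]
      push_cast
      field_simp
      ring
    rw [this, Complex.exp_add, Complex.exp_int_mul_two_pi_mul_I, mul_one]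
  have h1 : theta y D u ((a : ℝ) / c + β) = ∑ s : Fin c,
      cexp (2 * Real.pi * I * (a * (u + D * (s : ℕ)) ^ 2 / c)) *
        ∑' w : ℤ, cexp (2 * Real.pi * I * (((u + D * (s : ℕ) : ℤ) + (c * D : ℕ) * w : ℤ) : ℂ) ^ 2 * z) := by
    unfold theta
    rw [← (Int.divModEquiv c).symm.tsum_eq]
    have hs2 : Summable (fun p : ℤ × Fin c => tht y D u ((a : ℝ) / c + β) ((Int.divModEquiv c).symm p)) :=
      (Equiv.summable_iff (Int.divModEquiv c).symm).2 hsum.of_norm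
    rw [hs2.tsum_prod]
    have h3 : ∀ w : ℤ, ∑' s : Fin c, tht y D u ((a : ℝ) / c + β) ((Int.divModEquiv c).symm (w, s)) =
        ∑ s : Fin c, cexp (2 * Real.pi * I * (a * (u + D * (s : ℕ)) ^ 2 / c)) *
        cexp (2 * Real.pi * I * (((u + D * (s : ℕ) : ℤ) + (c * D : ℕ) * w : ℤ) : ℂ) ^ 2 * z) := by
      intro w
      rw [tsum_fintype]
      apply Finset.sum_congr rfl
      intro s _
      rw [← hterm w s]
      rfl
    simp_rw [h3]
    rw [Summable.tsum_finsetSum]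
    · apply Finset.sum_congr rfl
      intro s _
      rw [tsum_mul_left]
    · intro s _
      have hinj : Function.Injective (fun w : ℤ => w * c + (s : ℕ)) := by
        intro w w' hw
        have h2 : w * (c : ℤ) = w' * c := by
          have := hw
          simp only at this
          linarith
        exact mul_right_cancel₀ (by exact_mod_cast hc.ne') h2
      have h4 := hsum.of_norm.comp_injective hinj
      refine h4.congr fun w => ?_
      rw [← hterm w s]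
      rfl
  rw [h1]
  have h5 : ∀ s : Fin c, ∑' w : ℤ, cexp (2 * Real.pi * I * (((u + D * (s : ℕ) : ℤ) + (c * D : ℕ) * w : ℤ) : ℂ) ^ 2 * z) =
      1 / A ^ (1 / 2 : ℂ) * ∑' k : ℤ, cexp (2 * Real.pi * I * (k * (u + D * (s : ℕ) : ℤ) / ((c * D : ℕ) : ℂ))) *
        cexp (-Real.pi * k ^ 2 / A) := by
    intro s
    exact poisson z hzim (c * D) hm (u + D * (s : ℕ))
  simp_rw [h5]
  have h6 : ∀ s : Fin c, cexp (2 * Real.pi * I * (a * (u + D * (s : ℕ)) ^ 2 / c)) *
      (1 / A ^ (1 / 2 : ℂ) * ∑' k : ℤ, cexp (2 * Real.pi * I * (k * (u + D * (s : ℕ) : ℤ) / ((c * D : ℕ) : ℂ))) *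
        cexp (-Real.pi * k ^ 2 / A)) =
      1 / A ^ (1 / 2 : ℂ) * ∑' k : ℤ, (cexp (2 * Real.pi * I * (a * (u + D * (s : ℕ)) ^ 2 / c)) *
        cexp (2 * Real.pi * I * (k * (u + D * (s : ℕ) : ℤ) / ((c * D : ℕ) : ℂ))) *
        cexp (-Real.pi * k ^ 2 / A)) := by
    intro s
    rw [mul_left_comm, ← tsum_mul_left]
    congr 1
    apply tsum_congr
    intro k
    ring
  simp_rw [h6]
  rw [← Finset.mul_sum]
  congr 1
  have hAre : 0 < A.re := by
    have : A = (2 * ((c * D : ℕ) : ℝ) ^ 2 * z.im : ℝ) + (-2 * ((c * D : ℕ) : ℝ) ^ 2 * z.re : ℝ) * I := by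
      rw [hA]
      conv_lhs => rw [← Complex.re_add_im z]
      push_cast
      ring_nf
      rw [I_sq]
      ring
    rw [this, Complex.add_re, Complex.ofReal_re, Complex.re_ofReal_mul, Complex.I_re]
    have : 0 < 2 * ((c * D : ℕ) : ℝ) ^ 2 * z.im := by
      have : (0:ℝ) < ((c * D : ℕ) : ℝ) := by exact_mod_cast hm
      positivity
    linarith
  have hsg : Summable (fun k : ℤ => ‖cexp (-Real.pi * k ^ 2 / A)‖) := summable_dual A hAre
  rw [← Summable.tsum_finsetSum]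
  · apply tsum_congr
    intro k
    unfold gs
    rw [sum_zmod, Finset.mul_sum, Finset.sum_mul]
    apply Finset.sum_congr rfl
    intro s _
    congr 1
    have h7 : ((a : ZMod c) * ((u : ZMod c) + (D : ZMod c) * ((s : ℕ) : ZMod c)) ^ 2 + (k : ZMod c) * ((s : ℕ) : ZMod c)) =
        ((a * (u + D * (s : ℕ)) ^ 2 + k * (s : ℕ) : ℤ) : ZMod c) := by
      push_cast
      ring
    rw [h7, ZMod.stdAddChar_coe, ← Complex.exp_add, ← Complex.exp_add]
    congr 1
    push_cast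
    field_simp
    ring
  · intro s _
    refine Summable.of_norm (hsg.congr fun k => ?_)
    rw [norm_mul, norm_mul]
    have e1 : ‖cexp (2 * Real.pi * I * (a * (u + D * (s : ℕ)) ^ 2 / c))‖ = 1 := by
      have : 2 * Real.pi * I * (a * (u + D * (s : ℕ)) ^ 2 / c) =
        ((2 * Real.pi * (a * (u + D * (s : ℕ)) ^ 2 / c) : ℝ) : ℂ) * I := by push_cast; ring
      rw [this, Complex.norm_exp_ofReal_mul_I]
    have e2 : ‖cexp (2 * Real.pi * I * (k * (u + D * (s : ℕ) : ℤ) / ((c * D : ℕ) : ℂ)))‖ = 1 := by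
      have : 2 * Real.pi * I * (k * (u + D * (s : ℕ) : ℤ) / ((c * D : ℕ) : ℂ)) =
        ((2 * Real.pi * (k * (u + D * (s : ℕ) : ℤ) / ((c * D : ℕ) : ℝ)) : ℝ) : ℂ) * I := by push_cast; ring
      rw [this, Complex.norm_exp_ofReal_mul_I]
    rw [e1, e2, one_mul, one_mul]

end Pool.Agent.W65.FS
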